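import Pool.Agent.NH7.Sch.Nu2
import Pool.Agent.Y142.Split

/-!
# Primes with prescribed Frobenius elements
-/

set_option autoImplicit false
set_option linter.unusedSectionVars false

namespace Pool.Agent.NH7.Sch

open NumberField IsDedekindDomain Pool.Agent.W401.Cheb WithZero Filter Topology

variable {K : Type} [Field K] [NumberField K]

theorem dens_finite {P : HeightOneSpectrum (𝓞 K) → Prop} (h : {v | P v}.Finite) :
    Tendsto (dens P) atTop (𝓝 0) := by
  have h1 : ∀ N : ℕ, dens P N ≤ ({v | P v}.ncard : ℝ) / (Nat.primeCounting N : ℝ) := by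
    intro N
    unfold dens
    refine div_le_div_of_nonneg_right ?_ (Nat.cast_nonneg _)
    have h2 : Nat.card {v : HeightOneSpectrum (𝓞 K) // Ideal.absNorm v.asIdeal ≤ N ∧ P v} ≤
        {v | P v}.ncard := by
      have h3 : {v : HeightOneSpectrum (𝓞 K) | Ideal.absNorm v.asIdeal ≤ N ∧ P v}.ncard ≤
        {v | P v}.ncard := Set.ncard_le_ncard (fun v hv => hv.2) h
      exact h3
    exact_mod_cast h2
  have h0 : ∀ N : ℕ, 0 ≤ dens P N := fun N => div_nonneg (Nat.cast_nonneg _) (Nat.cast_nonneg _)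
  have h4 : Tendsto (fun N : ℕ => (Nat.primeCounting N : ℝ)) atTop atTop :=
    tendsto_natCast_atTop_atTop.comp Nat.tendsto_primeCounting
  exact squeeze_zero h0 h1 (Tendsto.div_atTop tendsto_const_nhds h4)

theorem cheb (U : Subgroup (GK K)) (hU : IsOpen (U : Set (GK K)))
    (hcomm : ∀ a b : GK K, a * b * a⁻¹ * b⁻¹ ∈ U) (σ : GK K) :
    {v : HeightOneSpectrum (𝓞 K) | ∃ φ, σ⁻¹ * φ ∈ U ∧ IsFrob v φ}.Infinite := by
  have hN : U.Normal := ⟨fun n hn g => by
    have h1 := U.mul_mem (hcomm g n) hn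
    have e : g * n * g⁻¹ * n⁻¹ * n = g * n * g⁻¹ := by group
    rwa [e] at h1⟩
  intro hfin
  set C : Set (GK K) := {φ | σ⁻¹ * φ ∈ U} with hC
  have h1 := Pool.Agent.Y142.chebK K U hU C (by
    intro φ hφ τ
    rw [hC, Set.mem_ofPred_eq] at hφ ⊢
    have h2 := U.mul_mem hφ (hcomm φ⁻¹ τ)
    have e : σ⁻¹ * φ * (φ⁻¹ * τ * φ⁻¹⁻¹ * τ⁻¹) = σ⁻¹ * (τ * φ * τ⁻¹) := by group
    rwa [e] at h2) (by
    intro φ hφ u hu
    rw [hC, Set.mem_ofPred_eq] at hφ ⊢
    rw [← mul_assoc]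
    exact U.mul_mem hφ hu)
  have h2 : {v : HeightOneSpectrum (𝓞 K) | ∃ φ ∈ C, IsFrob v φ}.Finite := hfin
  have h3 := tendsto_nhds_unique h1 (dens_finite h2)
  have hfq : Finite (GK K ⧸ U) := Subgroup.quotient_finite_of_isOpen U hU
  have h40 : ((QuotientGroup.mk : GK K → GK K ⧸ U) '' C).Nonempty :=
    ⟨_, σ, by rw [hC, Set.mem_ofPred_eq, inv_mul_cancel]; exact U.one_mem, rfl⟩
  have h4 : ((QuotientGroup.mk : GK K → GK K ⧸ U) '' C).ncard ≠ 0 :=
    ((Set.ncard_pos (Set.toFinite _)).2 h40).ne'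
  have h5 : Nat.card (GK K ⧸ U) ≠ 0 := Nat.card_pos.ne'
  rw [div_eq_zero_iff] at h3
  rcases h3 with h3 | h3
  · exact h4 (by exact_mod_cast h3)
  · exact h5 (by exact_mod_cast h3)

section

variable {p : ℕ} [hp : Fact p.Prime] {ζ : K} (hζ : IsPrimitiveRoot ζ p)

/-- the Kummer class of a unit of the ring of integers -/
noncomputable abbrev uu (u : (𝓞 K)ˣ) : Kˣ := Units.map (algebraMap (𝓞 K) K : 𝓞 K →* K) u

theorem unit_gen : ∃ S : Set (𝓞 K)ˣ, S.Finite ∧
    ∀ g : GK K, (∀ s ∈ S, kp hζ (uu s) g = 0) → ∀ u, kp hζ (uu u) g = 0 := by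
  have hfg : Group.FG (𝓞 K)ˣ := by
    rw [GroupFG.iff_add_fg, ← Module.Finite.iff_addGroup_fg]
    infer_instance
  obtain ⟨S, hS, hSf⟩ := Group.fg_iff.1 hfg
  refine ⟨S, hSf, fun g hg u => ?_⟩
  have h1 : Subgroup.closure S ≤ ((kpL hζ g).comp
      (Units.map (algebraMap (𝓞 K) K : 𝓞 K →* K))).ker := by
    rw [Subgroup.closure_le]
    intro s hs
    rw [SetLike.mem_coe, MonoidHom.mem_ker]
    exact hg s hs
  rw [hS] at h1
  exact MonoidHom.mem_ker.1 (h1 (Subgroup.mem_top u))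

theorem hh_ne (hcop : (classNumber K).Coprime p) : ((hh K : ℕ) : ZMod p) ≠ 0 := by
  rw [Ne, ZMod.natCast_eq_zero_iff]
  intro hd
  exact hp.out.one_lt.ne' (Nat.dvd_one.1 (hcop ▸ Nat.dvd_gcd hd dvd_rfl))

/-- the Kummer classes which are unramified outside a finite set vanish on a neighbourhood of `1` -/
theorem W_open (hcop : (classNumber K).Coprime p) (T : Finset (HeightOneSpectrum (𝓞 K))) :
    ∃ V : Set (GK K), IsOpen V ∧ (1 : GK K) ∈ V ∧
      ∀ g ∈ V, ∀ κ : Kˣ, (∀ v ∉ T, (p : ℤ) ∣ od v κ) → kp hζ κ g = 0 := by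
  classical
  obtain ⟨S, hSf, hS⟩ := unit_gen hζ
  have hker : ∀ κ : Kˣ, IsOpen {g : GK K | kp hζ κ g = 0} := fun κ =>
    (isOpen_discrete {0}).preimage (kp_cont hζ κ)
  refine ⟨(⋂ s ∈ S, {g : GK K | kp hζ (uu s) g = 0}) ∩ ⋂ v ∈ T, {g : GK K | kp hζ (gg v) g = 0},
    ?_, ?_, ?_⟩
  · exact (hSf.isOpen_biInter fun s _ => hker _).inter
      (isOpen_biInter_finset fun v _ => hker _)
  · refine ⟨?_, ?_⟩
    · simp only [Set.mem_iInter]
      exact fun s _ => kp_one_right hζ _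
    · simp only [Set.mem_iInter]
      exact fun s _ => kp_one_right hζ _
  · rintro g ⟨hg1, hg2⟩ κ hκ
    simp only [Set.mem_iInter] at hg1 hg2
    have hu : ∀ u, kp hζ (uu u) g = 0 := hS g hg1
    have hg3 : ∀ v ∈ T, kp hζ (gg v) g = 0 := hg2
    set c : Kˣ := κ ^ hh K * ∏ v ∈ T, gg v ^ od v κ with hc
    have hod : ∀ v, (p : ℤ) ∣ od v c := by
      intro v
      rw [hc, od_mul, od_pow, od_prod]
      by_cases hv : v ∈ T
      · rw [Finset.sum_eq_single v]
        · rw [od_zpow, od_gg_self]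
          have e : (hh K : ℤ) * od v κ + od v κ * -(hh K : ℤ) = 0 := by ring
          rw [e]
          exact dvd_zero _
        · intro w _ hw
          rw [od_zpow, od_gg_ne hw.symm, mul_zero]
        · exact fun h => absurd hv h
      · rw [Finset.sum_eq_zero, add_zero]
        · exact (hκ v hv).mul_left _
        · intro w hw
          rw [od_zpow, od_gg_ne (fun h => hv (by rw [h]; exact hw)), mul_zero]
    obtain ⟨u, k, hk0, hk⟩ := Pool.Agent.Y158.KL.exists_unit_mul_pow hp.out.pos hcop (c : K)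
      (Units.ne_zero _) (fun v => (od_dvd_iff v hp.out.ne_zero _).1 (hod v))
    have hck : c = uu u * Units.mk0 k hk0 ^ p := by
      apply Units.ext
      rw [hk, Units.val_mul, Units.val_pow_eq_pow_val, Units.val_mk0]
      rfl
    have h1 : kp hζ c g = 0 := by
      rw [hck, kp_mul_left, hu, kp_ppow, add_zero]
    rw [hc, kp_mul_left, kp_pow, kp_prod, Finset.sum_eq_zero, add_zero] at h1
    · exact (mul_eq_zero.1 h1).resolve_left (hh_ne hcop)
    · intro v hv
      rw [kp_zpow, hg3 v hv, mul_zero]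

/-- the elements of the Galois group which fix the roots of unity of order `p ^ n` -/
theorem chi_open (n : ℕ) : ∃ V : Set (GK K), IsOpen V ∧ (1 : GK K) ∈ V ∧
    ∀ g ∈ V, (p : ℤ_[p]) ^ n ∣ ((Pool.Agent.Y802.chi K p g : ℤ_[p]ˣ) : ℤ_[p]) - 1 := by
  have : NeZero (p ^ n) := ⟨pow_ne_zero _ hp.out.ne_zero⟩
  have : CharZero (AlgebraicClosure K) := charZero_of_injective_algebraMap
    (algebraMap K (AlgebraicClosure K)).injective
  have : NeZero ((p ^ n : ℕ) : AlgebraicClosure K) := ⟨by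
    exact_mod_cast pow_ne_zero _ hp.out.ne_zero⟩
  obtain ⟨t, ht⟩ := HasEnoughRootsOfUnity.exists_primitiveRoot (AlgebraicClosure K) (p ^ n)
  refine ⟨MulAction.stabilizer (GK K) t, stabilizer_isOpen_of_isIntegral (K := K) t, one_mem _, ?_⟩
  intro g hg
  have hg' : g t = t := hg
  rw [← toZModPow_one_iff]
  rcases Nat.eq_zero_or_pos n with rfl | hn
  · have : Subsingleton (ZMod (p ^ 0)) := by
      rw [pow_zero]
      infer_instance
    exact Subsingleton.elim _ _
  · have h2 : 1 < p ^ n := Nat.one_lt_pow hn.ne' hp.out.one_lt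
    have : Fact (1 < p ^ n) := ⟨h2⟩
    have h1 := chi_spec (p := p) g n ht.pow_eq_one
    rw [hg'] at h1
    have h3 := ht.pow_inj (ZMod.val_lt _) h2 (h1.symm.trans (pow_one _).symm)
    apply ZMod.val_injective
    rw [h3, ZMod.val_one]

end

end Pool.Agent.NH7.Sch
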