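import Mathlib

/-!
# An abstract criterion for the vanishing of locally trivial cocycles

`G` is a compact group, `ψ : G → ℤ_p^×` a continuous character, `χ : G → ℤ/p` a continuous
homomorphism with kernel `H`, `D` a subgroup (the decomposition group at the prime above `p`) on
which `χ` is not trivial, `I i ≤ E i` subgroups (the inertia and decomposition groups at the other
primes).
-/

set_option autoImplicit false

namespace Pool.Agent.NH7.Abs

open scoped Classical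

variable {G : Type} [Group G] [TopologicalSpace G] [IsTopologicalGroup G]
variable {p : ℕ} [hp : Fact p.Prime]

section extend

variable {χ : G → ZMod p} (cχ : Continuous χ) (χmul : ∀ g h, χ (g * h) = χ g + χ h)
include χmul

omit [TopologicalSpace G] [IsTopologicalGroup G] in
theorem χ_one : χ 1 = 0 := by
  have h := χmul 1 1
  rw [mul_one] at h
  exact left_eq_add.1 h

omit [TopologicalSpace G] [IsTopologicalGroup G] in
theorem χ_inv (g : G) : χ g⁻¹ = - χ g := by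
  have h := χmul g⁻¹ g
  rw [inv_mul_cancel, χ_one χmul] at h
  exact eq_neg_of_add_eq_zero_left h.symm

omit [TopologicalSpace G] [IsTopologicalGroup G] in
theorem χ_pow (g : G) (n : ℕ) : χ (g ^ n) = n * χ g := by
  induction n with
  | zero => rw [pow_zero, χ_one χmul, Nat.cast_zero, zero_mul]
  | succ n ih => rw [pow_succ, χmul, ih, Nat.cast_succ, add_mul, one_mul]

omit [TopologicalSpace G] [IsTopologicalGroup G] in
theorem χ_conj (g x : G) : χ (g * x * g⁻¹) = χ x := by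
  rw [χmul, χmul, χ_inv χmul]
  ring

omit [TopologicalSpace G] [IsTopologicalGroup G] in
theorem χ_conj' (g x : G) : χ (g⁻¹ * x * g) = χ x := by
  have h := χ_conj χmul g⁻¹ x
  rwa [inv_inv] at h

include cχ in
/-- Extension of an invariant cocycle. -/
theorem extend {R : Type} [CommRing R] [TopologicalSpace R] (f : G →* Rˣ) {D : Subgroup G} {σ : G}
    (hσD : σ ∈ D) (hσ : χ σ ≠ 0) {c : G → R} (hc : Continuous c)
    (hmul : ∀ g h, χ g = 0 → χ h = 0 → c (g * h) = c g + f g * c h)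
    (hD : ∀ g ∈ D, χ g = 0 → c g = 0)
    (hinv : ∀ g, χ g = 0 → c (σ * g * σ⁻¹) = f σ * c g) :
    ∃ c' : G → R, Continuous c' ∧ (∀ g h, c' (g * h) = c' g + f g * c' h) ∧
      (∀ g ∈ D, c' g = 0) ∧ ∀ g, χ g = 0 → c' g = c g := by
  set k : G → ℕ := fun g => (χ g * (χ σ)⁻¹).val with hk
  have hkχ : ∀ g, χ (g * (σ ^ k g)⁻¹) = 0 := by
    intro g
    rw [χmul, χ_inv χmul, χ_pow χmul, hk]
    simp only [ZMod.natCast_val, ZMod.cast_id', id_eq]
    rw [mul_assoc, inv_mul_cancel₀ hσ, mul_one, add_neg_cancel]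
  have hinvn : ∀ (n : ℕ) (g : G), χ g = 0 → c (σ ^ n * g * (σ ^ n)⁻¹) = f σ ^ n * c g := by
    intro n
    induction n with
    | zero => intro g _; simp
    | succ n ih =>
      intro g hg
      have e : σ ^ (n + 1) * g * (σ ^ (n + 1))⁻¹ = σ * (σ ^ n * g * (σ ^ n)⁻¹) * σ⁻¹ := by
        rw [pow_succ']
        group
      rw [e, hinv _ (by rw [χ_conj χmul, hg]), ih g hg]
      rw [pow_succ']
      ring
  refine ⟨fun g => c (g * (σ ^ k g)⁻¹), ?_, ?_, ?_, ?_⟩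
  · have h1 : Continuous fun z : ZMod p => (σ ^ (z * (χ σ)⁻¹).val)⁻¹ := continuous_of_discreteTopology
    exact hc.comp (continuous_id.mul (h1.comp cχ))
  · intro g h
    have ha := hkχ g
    have hb := hkχ h
    have e : g * h * (σ ^ k (g * h))⁻¹ = (g * (σ ^ k g)⁻¹) *
        (σ ^ k g * (h * (σ ^ k h)⁻¹) * (σ ^ k g)⁻¹) * (σ ^ (k g + k h) * (σ ^ k (g * h))⁻¹) := by
      rw [pow_add]
      group
    have hd : σ ^ (k g + k h) * (σ ^ k (g * h))⁻¹ ∈ D :=
      D.mul_mem (D.pow_mem hσD _) (D.inv_mem (D.pow_mem hσD _))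
    have hχd : χ (σ ^ (k g + k h) * (σ ^ k (g * h))⁻¹) = 0 := by
      have h1 := hkχ (g * h)
      rw [e, χmul, χmul, ha, χ_conj χmul, hb, add_zero, zero_add] at h1
      exact h1
    have hχb : χ (σ ^ k g * (h * (σ ^ k h)⁻¹) * (σ ^ k g)⁻¹) = 0 := by rw [χ_conj χmul, hb]
    show c (g * h * (σ ^ k (g * h))⁻¹) = c (g * (σ ^ k g)⁻¹) + f g * c (h * (σ ^ k h)⁻¹)
    rw [e, hmul _ _ (by rw [χmul, ha, hχb, add_zero]) hχd, hD _ hd hχd, mul_zero, add_zero,
      hmul _ _ ha hχb, hinvn _ _ hb]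
    have e2 : f g = f (g * (σ ^ k g)⁻¹) * f σ ^ k g := by
      rw [← map_pow, ← map_mul, inv_mul_cancel_right]
    rw [e2]
    push_cast
    ring
  · intro g hg
    exact hD _ (D.mul_mem hg (D.inv_mem (D.pow_mem hσD _))) (hkχ g)
  · intro g hg
    have h1 : k g = 0 := by
      rw [hk]
      simp [hg]
    show c (g * (σ ^ k g)⁻¹) = c g
    rw [h1, pow_zero, inv_one, mul_one]

end extend

/-- the hypotheses -/
structure Setup (ψ : G →* ℤ_[p]ˣ) (χ : G → ZMod p) (D : Subgroup G) {ι : Type}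
    (I E : ι → Subgroup G) : Prop where
  cχ : Continuous χ
  χmul : ∀ g h, χ (g * h) = χ g + χ h
  hIE : ∀ i, I i ≤ E i
  norm : ∀ i, ∀ g ∈ E i, ∀ x ∈ I i, g * x * g⁻¹ ∈ I i
  conj : ∀ i g x, x ∈ I i → ∃ j, g * x * g⁻¹ ∈ I j
  ψI : ∀ i, ∀ x ∈ I i, ψ x = 1
  ψE : ∀ i, (∃ x ∈ I i, χ x ≠ 0) → ∀ g ∈ E i, (p : ℤ_[p]) ∣ (ψ g : ℤ_[p]) - 1
  ψE2 : p = 2 → ∀ i, (∃ x ∈ I i, χ x ≠ 0) → ∀ g ∈ E i, (4 : ℤ_[p]) ∣ (ψ g : ℤ_[p]) - 1

variable (ψ : G →* ℤ_[p]ˣ) (χ : G → ZMod p) (D : Subgroup G) {ι : Type} (I E : ι → Subgroup G)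

/-- the locally trivial cocycles on the kernel of `χ`, normalised to be zero on `D` -/
def M : Submodule ℤ_[p] (G → ℤ_[p]) where
  carrier := {c | Continuous c ∧ (∀ g h, χ g = 0 → χ h = 0 → c (g * h) = c g + ψ g * c h) ∧
    (∀ g, χ g ≠ 0 → c g = 0) ∧ (∀ g ∈ D, χ g = 0 → c g = 0) ∧ ∀ i, ∀ x ∈ I i, χ x = 0 → c x = 0}
  add_mem' := by
    rintro a b ⟨ha1, ha2, ha3, ha4, ha5⟩ ⟨hb1, hb2, hb3, hb4, hb5⟩
    refine ⟨ha1.add hb1, fun g h hg hh => ?_, fun g hg => ?_, fun g hg hx => ?_, fun i x hx h => ?_⟩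
    · simp only [Pi.add_apply]; rw [ha2 g h hg hh, hb2 g h hg hh]; ring
    · simp only [Pi.add_apply]; rw [ha3 g hg, hb3 g hg, add_zero]
    · simp only [Pi.add_apply]; rw [ha4 g hg hx, hb4 g hg hx, add_zero]
    · simp only [Pi.add_apply]; rw [ha5 i x hx h, hb5 i x hx h, add_zero]
  zero_mem' := ⟨continuous_const, fun _ _ _ _ => by simp, fun _ _ => rfl, fun _ _ _ => rfl,
    fun _ _ _ _ => rfl⟩
  smul_mem' := by
    rintro r a ⟨ha1, ha2, ha3, ha4, ha5⟩
    refine ⟨ha1.const_smul r, fun g h hg hh => ?_, fun g hg => ?_, fun g hg hx => ?_,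
      fun i x hx h => ?_⟩
    · simp only [Pi.smul_apply, smul_eq_mul]; rw [ha2 g h hg hh]; ring
    · simp only [Pi.smul_apply, smul_eq_mul]; rw [ha3 g hg, mul_zero]
    · simp only [Pi.smul_apply, smul_eq_mul]; rw [ha4 g hg hx, mul_zero]
    · simp only [Pi.smul_apply, smul_eq_mul]; rw [ha5 i x hx h, mul_zero]

variable {ψ χ D I E}

omit [IsTopologicalGroup G] in
theorem mem_M {c : G → ℤ_[p]} : c ∈ M ψ χ D I ↔ Continuous c ∧
    (∀ g h, χ g = 0 → χ h = 0 → c (g * h) = c g + ψ g * c h) ∧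
    (∀ g, χ g ≠ 0 → c g = 0) ∧ (∀ g ∈ D, χ g = 0 → c g = 0) ∧
    ∀ i, ∀ x ∈ I i, χ x = 0 → c x = 0 := Iff.rfl

theorem p_ne : (p : ℤ_[p]) ≠ 0 := by exact_mod_cast hp.out.ne_zero

omit [IsTopologicalGroup G] in
/-- saturation -/
theorem sat {c : G → ℤ_[p]} (hc : c ∈ M ψ χ D I) (h : ∀ g, (p : ℤ_[p]) ∣ c g) :
    ∃ d ∈ M ψ χ D I, c = (p : ℤ_[p]) • d := by
  choose d hd using h
  have hp0 : (p : ℤ_[p]) ≠ 0 := p_ne
  obtain ⟨h1, h2, h3, h4, h5⟩ := hc
  refine ⟨d, ⟨?_, ?_, ?_, ?_, ?_⟩, ?_⟩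
  · have e : ∀ g, ((d g : ℤ_[p]) : ℚ_[p]) = ((c g : ℤ_[p]) : ℚ_[p]) / (p : ℚ_[p]) := by
      intro g
      have hp1 : (p : ℚ_[p]) ≠ 0 := by exact_mod_cast hp.out.ne_zero
      rw [eq_div_iff hp1, hd g]
      push_cast
      exact mul_comm _ _
    have e2 : d = fun g => (⟨((c g : ℤ_[p]) : ℚ_[p]) / (p : ℚ_[p]), by
        rw [← e g]; exact (d g).2⟩ : ℤ_[p]) := by
      funext g
      exact Subtype.ext (e g)
    rw [e2]
    exact Continuous.subtype_mk ((continuous_subtype_val.comp h1).div_const _) _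
  · intro g h hg hh
    apply mul_left_cancel₀ hp0
    rw [← hd, h2 g h hg hh, hd g, hd h]
    ring
  · intro g hg
    apply mul_left_cancel₀ hp0
    rw [← hd, h3 g hg, mul_zero]
  · intro g hg hx
    apply mul_left_cancel₀ hp0
    rw [← hd, h4 g hg hx, mul_zero]
  · intro i x hx h
    apply mul_left_cancel₀ hp0
    rw [← hd, h5 i x hx h, mul_zero]
  · funext g
    simp only [Pi.smul_apply, smul_eq_mul]
    exact hd g

omit [TopologicalSpace G] [IsTopologicalGroup G] [Group G] in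
/-- an element which is divisible by all powers of `p` is zero -/
theorem div_zero {M : Submodule ℤ_[p] (G → ℤ_[p])} (h : ∀ c ∈ M, ∃ d ∈ M, c = (p : ℤ_[p]) • d)
    {c : G → ℤ_[p]} (hc : c ∈ M) : c = 0 := by
  have h1 : ∀ n : ℕ, ∀ c ∈ M, ∃ d ∈ M, c = (p : ℤ_[p]) ^ n • d := by
    intro n
    induction n with
    | zero => intro c hc; exact ⟨c, hc, by simp⟩
    | succ n ih =>
      intro c hc
      obtain ⟨d, hd, rfl⟩ := ih c hc
      obtain ⟨e, he, rfl⟩ := h d hd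
      exact ⟨e, he, by rw [pow_succ, mul_smul]⟩
  funext g
  by_contra hg
  obtain ⟨d, -, hd⟩ := h1 ((c g).valuation + 1) c hc
  have h2 : c g = (p : ℤ_[p]) ^ ((c g).valuation + 1) * d g := congrFun hd g
  have h3 : d g ≠ 0 := by
    intro h0
    rw [h0, mul_zero] at h2
    exact hg h2
  have h4 := congrArg PadicInt.valuation h2
  rw [PadicInt.valuation_mul (pow_ne_zero _ p_ne) h3, PadicInt.valuation_pow,
    PadicInt.valuation_p] at h4
  omega

end Pool.Agent.NH7.Abs
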