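import Pool.Agent.NH7.Sch.Abs

/-!
# The action on the locally trivial cocycles
-/

set_option autoImplicit false

namespace Pool.Agent.NH7.Abs

open scoped Classical

variable {G : Type} [Group G] [TopologicalSpace G] [IsTopologicalGroup G]
variable {p : ℕ} [hp : Fact p.Prime]
variable {ψ : G →* ℤ_[p]ˣ} {χ : G → ZMod p} {D : Subgroup G} {ι : Type} {I E : ι → Subgroup G}

/-- the operator `c ↦ ψ(σ) c(σ⁻¹ g σ)` -/
noncomputable def sAct (ψ : G →* ℤ_[p]ˣ) (σ : G) : (G → ℤ_[p]) →ₗ[ℤ_[p]] (G → ℤ_[p]) where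
  toFun c := fun g => (ψ σ : ℤ_[p]) * c (σ⁻¹ * g * σ)
  map_add' a b := by
    funext g
    simp only [Pi.add_apply]
    ring
  map_smul' r a := by
    funext g
    simp only [Pi.smul_apply, smul_eq_mul, RingHom.id_apply]
    ring

omit [TopologicalSpace G] [IsTopologicalGroup G] in
theorem sAct_apply (σ : G) (c : G → ℤ_[p]) (g : G) :
    sAct ψ σ c g = (ψ σ : ℤ_[p]) * c (σ⁻¹ * g * σ) := rfl

theorem s_mem (S : Setup ψ χ D I E) {σ : G} (hσ : σ ∈ D) {c : G → ℤ_[p]} (hc : c ∈ M ψ χ D I) :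
    sAct ψ σ c ∈ M ψ χ D I := by
  obtain ⟨h1, h2, h3, h4, h5⟩ := hc
  refine ⟨?_, ?_, ?_, ?_, ?_⟩
  · have h6 : Continuous fun g : G => σ⁻¹ * g * σ := by fun_prop
    exact continuous_const.mul (h1.comp h6)
  · intro g h hg hh
    simp only [sAct_apply]
    have e : σ⁻¹ * (g * h) * σ = (σ⁻¹ * g * σ) * (σ⁻¹ * h * σ) := by group
    rw [e, h2 _ _ (by rw [χ_conj' S.χmul, hg]) (by rw [χ_conj' S.χmul, hh])]
    have e2 : ψ (σ⁻¹ * g * σ) = ψ g := by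
      rw [map_mul, map_mul, map_inv, mul_comm, ← mul_assoc, mul_inv_cancel, one_mul]
    rw [e2]
    ring
  · intro g hg
    rw [sAct_apply, h3 _ (by rw [χ_conj' S.χmul]; exact hg), mul_zero]
  · intro g hg hx
    rw [sAct_apply, h4 _ (D.mul_mem (D.mul_mem (D.inv_mem hσ) hg) hσ)
      (by rw [χ_conj' S.χmul, hx]), mul_zero]
  · intro i x hx h
    obtain ⟨j, hj⟩ := S.conj i σ⁻¹ x hx
    rw [inv_inv] at hj
    rw [sAct_apply, h5 j _ hj (by rw [χ_conj' S.χmul, h]), mul_zero]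

/-- the operator on `M` -/
noncomputable def T (S : Setup ψ χ D I E) {σ : G} (hσ : σ ∈ D) :
    Module.End ℤ_[p] (M ψ χ D I) :=
  (sAct ψ σ).restrict fun _ hc => s_mem S hσ hc

theorem T_apply (S : Setup ψ χ D I E) {σ : G} (hσ : σ ∈ D) (c : M ψ χ D I) (g : G) :
    (T S hσ c : G → ℤ_[p]) g = (ψ σ : ℤ_[p]) * (c : G → ℤ_[p]) (σ⁻¹ * g * σ) := rfl

theorem T_pow (S : Setup ψ χ D I E) {σ : G} (hσ : σ ∈ D) (n : ℕ) (c : M ψ χ D I) (g : G) :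
    ((T S hσ ^ n) c : G → ℤ_[p]) g =
      ((ψ σ : ℤ_[p]ˣ) : ℤ_[p]) ^ n * (c : G → ℤ_[p]) ((σ ^ n)⁻¹ * g * σ ^ n) := by
  induction n generalizing g with
  | zero => simp
  | succ n ih =>
    rw [pow_succ', Module.End.mul_apply, T_apply, ih]
    have e : (σ ^ n)⁻¹ * (σ⁻¹ * g * σ) * σ ^ n = (σ ^ (n + 1))⁻¹ * g * σ ^ (n + 1) := by
      rw [pow_succ]
      group
    have e' : (σ ^ n)⁻¹ * (σ⁻¹ * g * σ) * σ ^ n = (σ ^ (n + 1))⁻¹ * g * σ ^ (n + 1) := by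
      rw [pow_succ']
      group
    rw [e']
    ring

omit [TopologicalSpace G] [IsTopologicalGroup G] in
theorem coc_one {R : Type} [CommRing R] {f : G →* Rˣ} {c : G → R}
    (h1 : c (1 * 1) = c 1 + f 1 * c 1) : c 1 = 0 := by
  rw [mul_one, map_one, Units.val_one, one_mul] at h1
  exact left_eq_add.1 h1

theorem M_one (S : Setup ψ χ D I E) {c : G → ℤ_[p]} (hc : c ∈ M ψ χ D I) : c 1 = 0 :=
  coc_one (hc.2.1 1 1 (χ_one S.χmul) (χ_one S.χmul))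

theorem M_inv (S : Setup ψ χ D I E) {c : G → ℤ_[p]} (hc : c ∈ M ψ χ D I) {g : G} (hg : χ g = 0) :
    c g⁻¹ = - (((ψ g)⁻¹ : ℤ_[p]ˣ) : ℤ_[p]) * c g := by
  have h := hc.2.1 g⁻¹ g (by rw [χ_inv S.χmul, hg, neg_zero]) hg
  rw [inv_mul_cancel, M_one S hc, map_inv] at h
  linear_combination -h

/-- conjugation by an element of the kernel -/
theorem M_conj (S : Setup ψ χ D I E) {c : G → ℤ_[p]} (hc : c ∈ M ψ χ D I) {g h : G}
    (hg : χ g = 0) (hh : χ h = 0) :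
    c (h⁻¹ * g * h) = (((ψ h)⁻¹ : ℤ_[p]ˣ) : ℤ_[p]) * (c g + (((ψ g : ℤ_[p]ˣ) : ℤ_[p]) - 1) * c h) := by
  have hi : χ h⁻¹ = 0 := by rw [χ_inv S.χmul, hh, neg_zero]
  rw [hc.2.1 _ _ (by rw [S.χmul, hi, hg, add_zero]) hh, hc.2.1 _ _ hi hg, M_inv S hc hh, map_mul,
    map_inv]
  push_cast
  ring

theorem T_pow_p (S : Setup ψ χ D I E) {σ : G} (hσ : σ ∈ D) : T S hσ ^ p = 1 := by
  ext c g
  rw [T_pow, Module.End.one_apply]
  have hχ : χ (σ ^ p) = 0 := by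
    rw [χ_pow S.χmul, CharP.cast_eq_zero, zero_mul]
  by_cases hg : χ g = 0
  · rw [M_conj S c.2 hg hχ, c.2.2.2.2.1 _ (D.pow_mem hσ p) hχ, mul_zero, add_zero, map_pow,
      ← mul_assoc]
    have e : (((ψ σ : ℤ_[p]ˣ) : ℤ_[p])) ^ p * (((ψ σ ^ p)⁻¹ : ℤ_[p]ˣ) : ℤ_[p]) = 1 := by
      rw [← Units.val_pow_eq_pow_val, Units.mul_inv]
    rw [e, one_mul]
  · rw [c.2.2.2.1 g hg, c.2.2.2.1 _ (by rw [χ_conj' S.χmul]; exact hg), mul_zero]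

/-- the basic identity at a ramified prime -/
theorem star (S : Setup ψ χ D I E) {σ : G} (hσ : σ ∈ D) (hσ0 : χ σ ≠ 0) {i : ι}
    (hi : ∃ x ∈ I i, χ x ≠ 0) (y : M ψ χ D I) {g : G} (hg : g ∈ E i) (hg0 : χ g = 0) :
    ∃ z : ℤ_[p], (T S hσ y : G → ℤ_[p]) g - (y : G → ℤ_[p]) g = (((ψ g : ℤ_[p]ˣ) : ℤ_[p]) - 1) * z := by
  obtain ⟨x, hx, hx0⟩ := hi
  set m : ℕ := (χ σ * (χ x)⁻¹).val with hm
  set τ : G := x ^ m with hτ
  have hτI : τ ∈ I i := (I i).pow_mem hx m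
  have hχτ : χ τ = χ σ := by
    rw [hτ, χ_pow S.χmul, hm]
    simp only [ZMod.natCast_val, ZMod.cast_id', id_eq]
    rw [mul_assoc, inv_mul_cancel₀ hx0, mul_one]
  set h : G := σ⁻¹ * τ with hh
  have hχh : χ h = 0 := by rw [hh, S.χmul, χ_inv S.χmul, hχτ, neg_add_cancel]
  have hστ : τ = σ * h := by rw [hh]; group
  -- `y (τ⁻¹ g τ) = y g`
  have h1 : (y : G → ℤ_[p]) (τ⁻¹ * g * τ) = (y : G → ℤ_[p]) g := by
    have hu : g⁻¹ * τ⁻¹ * g * τ ∈ I i := by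
      have h2 := S.norm i g⁻¹ ((E i).inv_mem hg) τ⁻¹ ((I i).inv_mem hτI)
      rw [inv_inv] at h2
      exact (I i).mul_mem h2 hτI
    have hu0 : χ (g⁻¹ * τ⁻¹ * g * τ) = 0 := by
      rw [S.χmul, S.χmul, S.χmul, χ_inv S.χmul, χ_inv S.χmul]
      ring
    have e : τ⁻¹ * g * τ = g * (g⁻¹ * τ⁻¹ * g * τ) := by group
    rw [e, y.2.2.1 _ _ hg0 hu0, y.2.2.2.2.2 i _ hu hu0, mul_zero, add_zero]
  have hg' : χ (σ⁻¹ * g * σ) = 0 := by rw [χ_conj' S.χmul, hg0]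
  have e1 : τ⁻¹ * g * τ = h⁻¹ * (σ⁻¹ * g * σ) * h := by
    rw [hστ]
    group
  rw [e1, M_conj S y.2 hg' hχh] at h1
  have e2 : ψ (σ⁻¹ * g * σ) = ψ g := by
    rw [map_mul, map_mul, map_inv, mul_comm, ← mul_assoc, mul_inv_cancel, one_mul]
  rw [e2] at h1
  have e3 : ψ σ = (ψ h)⁻¹ := by
    rw [eq_inv_iff_mul_eq_one, ← map_mul, ← hστ]
    exact S.ψI i τ hτI
  rw [T_apply, ← h1, e3]
  exact ⟨-((((ψ h)⁻¹ : ℤ_[p]ˣ) : ℤ_[p]) * (y : G → ℤ_[p]) h), by ring⟩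

end Pool.Agent.NH7.Abs
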