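import Pool.Agent.NH7.Sch.Abs2

/-!
# The abstract criterion
-/

set_option autoImplicit false
set_option linter.unusedSectionVars false

namespace Pool.Agent.NH7.Abs

open scoped Classical

variable {G : Type} [Group G] [TopologicalSpace G] [IsTopologicalGroup G]
variable {p : ℕ} [hp : Fact p.Prime]
variable {ψ : G →* ℤ_[p]ˣ} {χ : G → ZMod p} {D : Subgroup G} {ι : Type} {I E : ι → Subgroup G}

theorem toZMod_eq_zero {x : ℤ_[p]} : PadicInt.toZMod x = 0 ↔ (p : ℤ_[p]) ∣ x := by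
  rw [← RingHom.mem_ker, PadicInt.ker_toZMod, PadicInt.maximalIdeal_eq_span_p,
    Ideal.mem_span_singleton]

theorem toZMod_eq {x y : ℤ_[p]} : PadicInt.toZMod x = PadicInt.toZMod y ↔ (p : ℤ_[p]) ∣ x - y := by
  rw [← toZMod_eq_zero, map_sub, sub_eq_zero]

theorem continuous_toZMod : Continuous (PadicInt.toZMod : ℤ_[p] →+* ZMod p) := by
  rw [continuous_discrete_rng]
  intro b
  rw [Metric.isOpen_iff]
  intro x hx
  refine ⟨1, one_pos, fun y hy => ?_⟩
  rw [Metric.mem_ball, dist_eq_norm] at hy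
  rw [Set.mem_preimage, Set.mem_singleton_iff] at hx ⊢
  rw [← hx, toZMod_eq, ← PadicInt.norm_lt_one_iff_dvd]
  exact hy

/-- the reduction of `ψ` -/
noncomputable def ψr (ψ : G →* ℤ_[p]ˣ) : G →* (ZMod p)ˣ :=
  (Units.map (PadicInt.toZMod : ℤ_[p] →+* ZMod p).toMonoidHom).comp ψ

theorem ψr_apply (ψ : G →* ℤ_[p]ˣ) (g : G) :
    ((ψr ψ g : (ZMod p)ˣ) : ZMod p) = PadicInt.toZMod ((ψ g : ℤ_[p]ˣ) : ℤ_[p]) := rfl

/-- the condition on `ψ` and `χ` -/
def Cond (ψ : G →* ℤ_[p]ˣ) (χ : G → ZMod p) (D : Subgroup G) {ι : Type}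
    (I E : ι → Subgroup G) : Prop :=
  ∀ X : G → ZMod p, Continuous X →
    (∀ g h, X (g * h) = X g + PadicInt.toZMod ((ψ g : ℤ_[p]ˣ) : ℤ_[p]) * X h) →
    (∀ g ∈ D, X g = 0) → (∀ i, (∀ x ∈ I i, χ x = 0) → ∀ x ∈ I i, X x = 0) →
    (∀ i, (∃ x ∈ I i, χ x ≠ 0) → ∃ a : ZMod p, ∀ g ∈ E i, X g = a * χ g) →
    ∀ g, χ g = 0 → X g = 0

/-- the vanishing over the base -/
def Base (ψ : G →* ℤ_[p]ˣ) (D : Subgroup G) {ι : Type} (I : ι → Subgroup G) : Prop :=
  ∀ c : G → ℤ_[p], Continuous c → (∀ g h, c (g * h) = c g + ψ g * c h) → (∀ g ∈ D, c g = 0) →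
    (∀ i, ∀ x ∈ I i, c x = 0) → c = 0

theorem fixed_zero (S : Setup ψ χ D I E) {σ : G} (hσ : σ ∈ D) (hσ0 : χ σ ≠ 0) (hG : Base ψ D I)
    (c : M ψ χ D I) (hc : T S hσ c = c) : c = 0 := by
  obtain ⟨c', h1, h2, h3, h4⟩ := extend S.cχ S.χmul (R := ℤ_[p]) ψ hσ hσ0 c.2.1 c.2.2.1 c.2.2.2.2.1
    (fun g _ => by
      have h1 : (T S hσ c : G → ℤ_[p]) (σ * g * σ⁻¹) = (c : G → ℤ_[p]) (σ * g * σ⁻¹) := by rw [hc]
      rw [T_apply] at h1
      rw [← h1]
      congr 2
      group)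
  have h5 : c' = 0 := by
    refine hG c' h1 h2 h3 fun i x hx => ?_
    have h6 : ∀ n : ℕ, c' (x ^ n) = n * c' x := by
      intro n
      induction n with
      | zero => rw [pow_zero, Nat.cast_zero, zero_mul]; exact coc_one (h2 1 1)
      | succ n ih =>
        rw [pow_succ, h2, ih, map_pow, S.ψI i x hx, one_pow, Units.val_one]
        push_cast
        ring
    have h7 : χ (x ^ p) = 0 := by rw [χ_pow S.χmul, CharP.cast_eq_zero, zero_mul]
    have h8 : c' (x ^ p) = 0 := by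
      rw [h4 _ h7]
      exact c.2.2.2.2.2 i _ ((I i).pow_mem hx p) h7
    rw [h6] at h8
    exact (mul_eq_zero.1 h8).resolve_left p_ne
  apply Subtype.ext
  funext g
  by_cases hg : χ g = 0
  · rw [← h4 g hg, h5]
    rfl
  · exact c.2.2.2.1 g hg

theorem final_step (S : Setup ψ χ D I E) {σ : G} (hσ : σ ∈ D) (hσ0 : χ σ ≠ 0)
    (hC : Cond ψ χ D I E) (b : M ψ χ D I)
    (hb : ∀ g, (p : ℤ_[p]) ∣ (T S hσ b : G → ℤ_[p]) g - (b : G → ℤ_[p]) g)
    (hE : ∀ i, (∃ x ∈ I i, χ x ≠ 0) → ∀ g ∈ E i, χ g = 0 → (p : ℤ_[p]) ∣ (b : G → ℤ_[p]) g)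
    (g : G) : (p : ℤ_[p]) ∣ (b : G → ℤ_[p]) g := by
  obtain ⟨X, h1, h2, h3, h4⟩ := extend S.cχ S.χmul (R := ZMod p) (ψr ψ) hσ hσ0
    (c := fun g => PadicInt.toZMod ((b : G → ℤ_[p]) g)) (continuous_toZMod.comp b.2.1)
    (fun g h hg hh => by
      simp only [ψr_apply]
      rw [← map_mul, ← map_add, b.2.2.1 g h hg hh])
    (fun g hg hx => by
      show PadicInt.toZMod ((b : G → ℤ_[p]) g) = 0
      rw [b.2.2.2.2.1 g hg hx, map_zero])
    (fun g _ => by
      simp only [ψr_apply]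
      rw [← map_mul, eq_comm, toZMod_eq]
      have h1 := hb (σ * g * σ⁻¹)
      rw [T_apply] at h1
      have e : σ⁻¹ * (σ * g * σ⁻¹) * σ = g := by group
      rwa [e] at h1)
  have key : ∀ g, χ g = 0 → X g = 0 := by
    refine hC X h1 h2 h3 ?_ ?_
    · intro i hi x hx
      rw [h4 x (hi x hx)]
      show PadicInt.toZMod ((b : G → ℤ_[p]) x) = 0
      rw [b.2.2.2.2.2 i x hx (hi x hx), map_zero]
    · intro i hi
      have hE' := hE i hi
      have hψ : ∀ g ∈ E i, PadicInt.toZMod ((ψ g : ℤ_[p]ˣ) : ℤ_[p]) = 1 := by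
        intro g hg
        rw [← map_one (PadicInt.toZMod : ℤ_[p] →+* ZMod p), toZMod_eq]
        exact S.ψE i hi g hg
      obtain ⟨x, hx, hx0⟩ := hi
      have hxE : x ∈ E i := S.hIE i hx
      have hXpow : ∀ n : ℕ, X (x ^ n) = n * X x := by
        intro n
        induction n with
        | zero =>
          rw [pow_zero, Nat.cast_zero, zero_mul]
          have := h2 1 1
          rw [mul_one, map_one, Units.val_one, one_mul] at this
          exact left_eq_add.1 this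
        | succ n ih =>
          rw [pow_succ, h2, ih, ψr_apply, hψ _ ((E i).pow_mem hxE n)]
          push_cast
          ring
      refine ⟨X x * (χ x)⁻¹, fun g hg => ?_⟩
      set k : ℕ := (χ g * (χ x)⁻¹).val with hk
      have hk' : (k : ZMod p) = χ g * (χ x)⁻¹ := by
        rw [hk]
        simp
      set w : G := g * (x ^ k)⁻¹ with hw
      have hwE : w ∈ E i := (E i).mul_mem hg ((E i).inv_mem ((E i).pow_mem hxE k))
      have hw0 : χ w = 0 := by
        rw [hw, S.χmul, χ_inv S.χmul, χ_pow S.χmul, hk', mul_assoc, inv_mul_cancel₀ hx0, mul_one,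
          add_neg_cancel]
      have hXw : X w = 0 := by
        rw [h4 w hw0]
        exact toZMod_eq_zero.2 (hE' w hwE hw0)
      have e : g = w * x ^ k := by rw [hw]; group
      calc X g = X (w * x ^ k) := by rw [← e]
        _ = k * X x := by rw [h2, hXw, ψr_apply, hψ w hwE, one_mul, zero_add, hXpow]
        _ = X x * (χ x)⁻¹ * χ g := by rw [hk']; ring
  by_cases hg : χ g = 0
  · rw [← toZMod_eq_zero, ← h4 g hg]
    exact key g hg
  · rw [b.2.2.2.1 g hg]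
    exact dvd_zero _

end Pool.Agent.NH7.Abs
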