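import Pool.Agent.NH7.Sch.Abs3

/-!
# The abstract criterion: the main theorem
-/

set_option autoImplicit false
set_option linter.unusedSectionVars false

namespace Pool.Agent.NH7.Abs

open scoped Classical

variable {G : Type} [Group G] [TopologicalSpace G] [IsTopologicalGroup G]
variable {p : ℕ} [hp : Fact p.Prime]
variable {ψ : G →* ℤ_[p]ˣ} {χ : G → ZMod p} {D : Subgroup G} {ι : Type} {I E : ι → Subgroup G}

/-- all values are divisible by `p` -/
def PDiv (c : M ψ χ D I) : Prop := ∀ g, (p : ℤ_[p]) ∣ (c : G → ℤ_[p]) g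

theorem pDiv_smul (c : M ψ χ D I) : PDiv ((p : ℤ_[p]) • c) := fun g => by
  show (p : ℤ_[p]) ∣ ((p : ℤ_[p]) • (c : G → ℤ_[p])) g
  rw [Pi.smul_apply, smul_eq_mul]
  exact dvd_mul_right _ _

theorem exists_of_pDiv {c : M ψ χ D I} (h : PDiv c) : ∃ d : M ψ χ D I, c = (p : ℤ_[p]) • d := by
  obtain ⟨d, hd, he⟩ := sat c.2 h
  exact ⟨⟨d, hd⟩, Subtype.ext he⟩

theorem pDiv_iff {c : M ψ χ D I} : PDiv c ↔ ∃ d : M ψ χ D I, c = (p : ℤ_[p]) • d :=
  ⟨exists_of_pDiv, by rintro ⟨d, rfl⟩; exact pDiv_smul d⟩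

theorem smul_inj {c d : M ψ χ D I} (h : (p : ℤ_[p]) • c = (p : ℤ_[p]) • d) : c = d := by
  apply Subtype.ext
  funext g
  have h1 := congrArg (fun y : M ψ χ D I => (y : G → ℤ_[p]) g) h
  exact mul_left_cancel₀ p_ne h1

theorem all_zero_of_pDiv (h : ∀ c : M ψ χ D I, PDiv c) (c : M ψ χ D I) : c = 0 := by
  apply Subtype.ext
  refine div_zero (M := M ψ χ D I) (fun c hc => ?_) c.2
  obtain ⟨d, hd⟩ := exists_of_pDiv (h ⟨c, hc⟩)
  exact ⟨d, d.2, congrArg Subtype.val hd⟩

/-- the norm kills everything -/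
theorem norm_zero (S : Setup ψ χ D I E) {σ : G} (hσ : σ ∈ D) (hσ0 : χ σ ≠ 0) (hG : Base ψ D I)
    (c : M ψ χ D I) : ∑ i ∈ Finset.range p, (T S hσ ^ i) c = 0 := by
  refine fixed_zero S hσ hσ0 hG _ ?_
  rw [map_sum]
  have h1 : ∀ i ∈ Finset.range p, T S hσ ((T S hσ ^ i) c) = (T S hσ ^ (i + 1)) c := by
    intro i _
    rw [pow_succ', Module.End.mul_apply]
  rw [Finset.sum_congr rfl h1]
  have h2 := Finset.sum_range_succ (fun i => (T S hσ ^ i) c) p
  have h3 := Finset.sum_range_succ' (fun i => (T S hσ ^ i) c) p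
  rw [h2] at h3
  simp only [T_pow_p, pow_zero] at h3
  exact (add_right_cancel h3).symm

theorem poly1 (p : ℕ) (hp : p.Prime) : ∃ r : Polynomial ℤ,
    (Polynomial.X - 1 : Polynomial ℤ) ^ p = Polynomial.X ^ p - 1 - (p : Polynomial ℤ) * r := by
  obtain ⟨r, hr⟩ := exists_add_pow_prime_eq hp (Polynomial.X - 1 : Polynomial ℤ) 1
  refine ⟨(Polynomial.X - 1) * 1 * r, ?_⟩
  rw [sub_add_cancel, one_pow] at hr
  rw [hr]
  ring

theorem poly2a (p i : ℕ) : ∃ r : Polynomial ℤ,
    (1 + (p : Polynomial ℤ) * Polynomial.X) ^ i =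
      1 + (i : Polynomial ℤ) * ((p : Polynomial ℤ) * Polynomial.X) + (p : Polynomial ℤ) ^ 2 * r := by
  induction i with
  | zero => exact ⟨0, by simp⟩
  | succ i ih =>
    obtain ⟨r, hr⟩ := ih
    refine ⟨(i : Polynomial ℤ) * Polynomial.X ^ 2 + r * (1 + (p : Polynomial ℤ) * Polynomial.X), ?_⟩
    rw [pow_succ, hr]
    push_cast
    ring

theorem poly2 (p : ℕ) (hp2 : Odd p) : ∃ W : Polynomial ℤ,
    ∑ i ∈ Finset.range p, (1 + (p : Polynomial ℤ) * Polynomial.X) ^ i =
      (p : Polynomial ℤ) * (1 + (p : Polynomial ℤ) * W) := by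
  choose r hr using poly2a p
  obtain ⟨k, hk⟩ := hp2
  refine ⟨(k : Polynomial ℤ) * Polynomial.X + ∑ i ∈ Finset.range p, r i, ?_⟩
  rw [Finset.sum_congr rfl fun i _ => hr i, Finset.sum_add_distrib, Finset.sum_add_distrib,
    ← Finset.sum_mul, ← Finset.mul_sum]
  have h1 : ∑ i ∈ Finset.range p, i = p * k := by
    have h := Finset.sum_range_id_mul_two p
    have h2 : p - 1 = 2 * k := by omega
    rw [h2] at h
    nlinarith
  have h2 : ∑ i ∈ Finset.range p, (i : Polynomial ℤ) = p * k := by
    rw [← Nat.cast_sum, h1]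
    push_cast
    ring
  rw [h2]
  simp only [Finset.sum_const, Finset.card_range, nsmul_eq_mul, mul_one]
  ring

open Polynomial in
/-- the main abstract theorem -/
theorem main (S : Setup ψ χ D I E) {σ : G} (hσ : σ ∈ D) (hσ0 : χ σ ≠ 0) (hG : Base ψ D I)
    (hC : Cond ψ χ D I E) (c : M ψ χ D I) : c = 0 := by
  revert c
  refine all_zero_of_pDiv (fun c => ?_)
  rcases hp.out.eq_two_or_odd' with h2 | hodd
  · -- `p = 2`
    have hN := norm_zero S hσ hσ0 hG c
    subst h2
    rw [Finset.sum_range_succ, Finset.sum_range_one, pow_zero, pow_one, Module.End.one_apply] at hN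
    have hT : T S hσ c = - c := eq_neg_of_add_eq_zero_right hN
    have hTg : ∀ g, (T S hσ c : G → ℤ_[2]) g - (c : G → ℤ_[2]) g = 2 * (-(c : G → ℤ_[2]) g) := by
      intro g
      rw [hT]
      show -(c : G → ℤ_[2]) g - (c : G → ℤ_[2]) g = _
      ring
    refine final_step S hσ hσ0 hC c (fun g => ?_) (fun i hi g hg hg0 => ?_)
    · rw [hTg]
      exact_mod_cast dvd_mul_right _ _
    · obtain ⟨z, hz⟩ := star S hσ hσ0 hi c hg hg0
      rw [hTg] at hz
      obtain ⟨w, hw⟩ := S.ψE2 rfl i hi g hg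
      rw [hw] at hz
      have h3 : (2 : ℤ_[2]) ≠ 0 := by exact_mod_cast (p_ne (p := 2))
      refine ⟨-(w * z), ?_⟩
      apply mul_left_cancel₀ h3
      push_cast
      linear_combination -hz
  · by_cases hcase : ∀ c : M ψ χ D I, PDiv (T S hσ c - c)
    · -- `T = 1 + p u`
      have h1 : ∀ c : M ψ χ D I, ∃ d : M ψ χ D I, T S hσ c - c = (p : ℤ_[p]) • d := fun c =>
        exists_of_pDiv (hcase c)
      choose u hu using h1
      let U : Module.End ℤ_[p] (M ψ χ D I) :=
        { toFun := u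
          map_add' := fun a b => by
            apply smul_inj
            rw [smul_add, ← hu, ← hu, ← hu, map_add]
            abel
          map_smul' := fun r a => by
            apply smul_inj
            rw [RingHom.id_apply, smul_comm, ← hu, ← hu, map_smul, smul_sub] }
      have hTU : T S hσ = aeval U (1 + (p : ℤ[X]) * X) := by
        ext1 c
        rw [map_add, map_one, map_mul, map_natCast, aeval_X, LinearMap.add_apply,
          Module.End.one_apply, Module.End.mul_apply]
        have h2 : ((p : Module.End ℤ_[p] (M ψ χ D I)) (U c)) = (p : ℤ_[p]) • U c := by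
          rw [Module.End.natCast_apply, Nat.cast_smul_eq_nsmul]
        rw [h2]
        show T S hσ c = c + (p : ℤ_[p]) • u c
        rw [← hu]
        abel
      obtain ⟨W, hW⟩ := poly2 p hodd
      have hN := norm_zero S hσ hσ0 hG c
      have h3 : ∑ i ∈ Finset.range p, (T S hσ ^ i) c =
          (aeval U ((p : ℤ[X]) * (1 + (p : ℤ[X]) * W))) c := by
        rw [← hW, map_sum, LinearMap.sum_apply]
        refine Finset.sum_congr rfl fun i _ => ?_
        rw [map_pow, ← hTU]
      rw [h3, map_mul, map_add, map_mul, map_one, map_natCast, Module.End.mul_apply,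
        Module.End.natCast_apply, LinearMap.add_apply, Module.End.one_apply,
        Module.End.mul_apply, Module.End.natCast_apply, ← Nat.cast_smul_eq_nsmul ℤ_[p],
        ← Nat.cast_smul_eq_nsmul ℤ_[p]] at hN
      have h4 : c + (p : ℤ_[p]) • (aeval U W) c = 0 := by
        apply smul_inj
        rw [hN, smul_zero]
      rw [pDiv_iff]
      exact ⟨-((aeval U W) c), by rw [smul_neg]; exact eq_neg_of_add_eq_zero_left h4⟩
    · exfalso
      push Not at hcase
      obtain ⟨c, hc⟩ := hcase
      set A : Module.End ℤ_[p] (M ψ χ D I) := T S hσ - 1 with hA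
      have hAc : ∀ c, A c = T S hσ c - c := fun c => by
        rw [hA, LinearMap.sub_apply, Module.End.one_apply]
      have hAp : ∃ n, PDiv ((A ^ n) c) := by
        obtain ⟨r, hr⟩ := poly1 p hp.out
        refine ⟨p, ?_⟩
        have h5 := congrArg (aeval (T S hσ)) hr
        rw [map_pow, map_sub, map_sub, map_sub, map_pow, aeval_X, map_one, T_pow_p, sub_self,
          zero_sub, map_mul, map_natCast, ← hA] at h5
        rw [h5, pDiv_iff]
        refine ⟨-((aeval (T S hσ) r) c), ?_⟩
        rw [LinearMap.neg_apply, Module.End.mul_apply, Module.End.natCast_apply,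
          ← Nat.cast_smul_eq_nsmul ℤ_[p], smul_neg]
      have hstep : ∀ c, PDiv c → PDiv (A c) := by
        intro c hc
        obtain ⟨d, rfl⟩ := exists_of_pDiv hc
        rw [map_smul]
        exact pDiv_smul _
      set n := Nat.find hAp with hn
      have hn1 : PDiv ((A ^ n) c) := Nat.find_spec hAp
      have hn2 : ∀ k < n, ¬ PDiv ((A ^ k) c) := fun k hk => Nat.find_min hAp hk
      have hn0 : n ≠ 0 := by
        intro h0
        rw [h0, pow_zero, Module.End.one_apply] at hn1
        exact hc (by rw [← hAc]; exact hstep _ hn1)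
      have hn3 : n ≠ 1 := by
        intro h0
        rw [h0, pow_one, hAc] at hn1
        exact hc hn1
      obtain ⟨m, hm⟩ : ∃ m, n = m + 2 := ⟨n - 2, by omega⟩
      refine hn2 (m + 1) (by omega) ?_
      set y := (A ^ m) c with hy
      have hb : (A ^ (m + 1)) c = A y := by
        rw [pow_succ', Module.End.mul_apply]
      have hb2 : (A ^ (m + 2)) c = A (A y) := by
        rw [pow_succ', Module.End.mul_apply, hb]
      rw [hb]
      rw [hm, hb2] at hn1
      refine final_step S hσ hσ0 hC (A y) (fun g => ?_) (fun i hi g hg hg0 => ?_)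
      · have h6 := hn1 g
        rw [hAc (A y)] at h6
        exact h6
      · obtain ⟨z, hz⟩ := star S hσ hσ0 hi y hg hg0
        have h7 : (A y : G → ℤ_[p]) g = (T S hσ y : G → ℤ_[p]) g - (y : G → ℤ_[p]) g := by
          rw [hAc]
          rfl
        rw [h7, hz]
        exact (S.ψE i hi g hg).mul_right z

end Pool.Agent.NH7.Abs
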