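import Pool.Agent.NH7.Sch.Abs4

/-!
# The abstract criterion for cyclic groups of order `p ^ n`: preparations
-/

set_option autoImplicit false
set_option linter.unusedSectionVars false

namespace Pool.Agent.NH7.Abs

open scoped Classical

variable {G : Type} [Group G] [TopologicalSpace G] [IsTopologicalGroup G]
variable {p : ℕ} [hp : Fact p.Prime] {n : ℕ}

instance : NeZero (p ^ n) := ⟨pow_ne_zero _ hp.out.ne_zero⟩

/-- extension by zero from a clopen set -/
theorem continuous_ext {Y Z : Type} [TopologicalSpace Y] [TopologicalSpace Z] {s : Set Y}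
    (hs : IsClopen s) {f : Y → Z} {g : s → Z} (hg : Continuous g) {z : Z}
    (h1 : ∀ y (hy : y ∈ s), f y = g ⟨y, hy⟩) (h2 : ∀ y, y ∉ s → f y = z) : Continuous f := by
  have c1 : ContinuousOn f s := by
    rw [continuousOn_iff_continuous_domRestrict]
    have : s.domRestrict f = g := by
      funext y
      exact h1 y.1 y.2
    rw [this]
    exact hg
  have c2 : ContinuousOn f sᶜ := by
    refine (continuousOn_const (c := z)).congr fun y hy => h2 y hy
  rw [← continuousOn_univ, ← Set.union_compl_self s]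
  exact c1.union_of_isOpen c2 hs.isOpen hs.compl.isOpen

section val

/-- reduction modulo `p ^ k` -/
theorem red_add {k : ℕ} (hk : k ≤ n) (x y : ZMod (p ^ n)) :
    (((x + y).val : ℕ) : ZMod (p ^ k)) = (x.val : ZMod (p ^ k)) + (y.val : ZMod (p ^ k)) := by
  rw [ZMod.natCast_val, ZMod.natCast_val, ZMod.natCast_val]
  exact map_add (ZMod.castHom (pow_dvd_pow p hk) (ZMod (p ^ k))) x y

theorem red_neg {k : ℕ} (hk : k ≤ n) (x : ZMod (p ^ n)) :
    (((-x).val : ℕ) : ZMod (p ^ k)) = -(x.val : ZMod (p ^ k)) := by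
  rw [ZMod.natCast_val, ZMod.natCast_val]
  exact map_neg (ZMod.castHom (pow_dvd_pow p hk) (ZMod (p ^ k))) x

theorem red_cast {k : ℕ} (hk : k ≤ n) (u : ℕ) :
    ((((u : ZMod (p ^ n)).val : ℕ)) : ZMod (p ^ k)) = u := by
  rw [ZMod.natCast_val]
  exact map_natCast (ZMod.castHom (pow_dvd_pow p hk) (ZMod (p ^ k))) u

theorem dv {k : ℕ} (hk : k < n) (u : ℕ) :
    ((((((p ^ k * u : ℕ) : ZMod (p ^ n)).val / p ^ k : ℕ)) : ZMod p)) = u := by
  have e : p ^ n = p ^ k * p ^ (n - k) := by rw [← pow_add]; congr 1; omega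
  rw [ZMod.val_natCast, e, Nat.mul_mod_mul_left, Nat.mul_div_cancel_left _ (pow_pos hp.out.pos k)]
  rw [ZMod.natCast_eq_natCast_iff]
  exact (Nat.mod_modEq u _).of_dvd (dvd_pow_self p (by omega))

theorem red_zero_iff {k : ℕ} (hk : k ≤ n) (x : ZMod (p ^ n)) :
    (x.val : ZMod (p ^ k)) = 0 ↔ ∃ u : ℕ, x = ((p ^ k * u : ℕ) : ZMod (p ^ n)) := by
  constructor
  · intro h
    rw [ZMod.natCast_eq_zero_iff] at h
    obtain ⟨u, hu⟩ := h
    refine ⟨u, ?_⟩
    rw [← hu, ZMod.natCast_zmod_val]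
  · rintro ⟨u, rfl⟩
    rw [red_cast hk]
    push_cast
    have : ((p : ZMod (p ^ k)) ^ k) = 0 := by
      have := CharP.cast_eq_zero (ZMod (p ^ k)) (p ^ k)
      push_cast at this
      exact this
    rw [this, zero_mul]

end val

variable {χ : G → ZMod (p ^ n)} (χmul : ∀ g h, χ (g * h) = χ g + χ h)

include χmul in
omit [TopologicalSpace G] [IsTopologicalGroup G] in
theorem x_one : χ 1 = 0 := by
  have h := χmul 1 1
  rw [mul_one] at h
  exact left_eq_add.1 h

include χmul in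
omit [TopologicalSpace G] [IsTopologicalGroup G] in
theorem x_inv (g : G) : χ g⁻¹ = - χ g := by
  have h := χmul g⁻¹ g
  rw [inv_mul_cancel, x_one χmul] at h
  exact eq_neg_of_add_eq_zero_left h.symm

include χmul in
omit [TopologicalSpace G] [IsTopologicalGroup G] in
theorem x_pow (g : G) (m : ℕ) : χ (g ^ m) = m * χ g := by
  induction m with
  | zero => rw [pow_zero, x_one χmul, Nat.cast_zero, zero_mul]
  | succ m ih => rw [pow_succ, χmul, ih, Nat.cast_succ, add_mul, one_mul]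

include χmul in
omit [TopologicalSpace G] [IsTopologicalGroup G] in
theorem x_conj (g x : G) : χ (g * x * g⁻¹) = χ x := by
  rw [χmul, χmul, x_inv χmul]
  ring

/-- the subgroups -/
def H (χmul : ∀ g h, χ (g * h) = χ g + χ h) (k : ℕ) (hk : k ≤ n) : Subgroup G where
  carrier := {g | ((χ g).val : ZMod (p ^ k)) = 0}
  mul_mem' := fun {a b} ha hb => by
    rw [Set.mem_ofPred_eq] at ha hb ⊢
    rw [χmul, red_add hk, ha, hb, add_zero]
  one_mem' := by
    rw [Set.mem_ofPred_eq, x_one χmul, ZMod.val_zero, Nat.cast_zero]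
  inv_mem' := fun {a} ha => by
    rw [Set.mem_ofPred_eq] at ha ⊢
    rw [x_inv χmul, red_neg hk, ha, neg_zero]

omit [TopologicalSpace G] [IsTopologicalGroup G] in
theorem mem_H {k : ℕ} {hk : k ≤ n} {g : G} : g ∈ H χmul k hk ↔ ((χ g).val : ZMod (p ^ k)) = 0 :=
  Iff.rfl

omit [TopologicalSpace G] [IsTopologicalGroup G] in
theorem mem_H' {k : ℕ} {hk : k ≤ n} {g : G} :
    g ∈ H χmul k hk ↔ ∃ u : ℕ, χ g = ((p ^ k * u : ℕ) : ZMod (p ^ n)) := by
  rw [mem_H, red_zero_iff hk]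

omit [TopologicalSpace G] [IsTopologicalGroup G] in
theorem H_conj {k : ℕ} {hk : k ≤ n} {g : G} (hg : g ∈ H χmul k hk) (x : G) :
    x * g * x⁻¹ ∈ H χmul k hk := by
  rw [mem_H, x_conj χmul]
  exact hg

omit [IsTopologicalGroup G] in
theorem H_clopen (cχ : Continuous χ) (k : ℕ) (hk : k ≤ n) : IsClopen (H χmul k hk : Set G) := by
  have h1 : Continuous fun g => ((χ g).val : ZMod (p ^ k)) :=
    (continuous_of_discreteTopology (f := fun x : ZMod (p ^ n) => (x.val : ZMod (p ^ k)))).comp cχ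
  exact (isClopen_discrete {(0 : ZMod (p ^ k))}).preimage h1

/-- the character of `H k` with kernel `H (k + 1)` -/
def ch (χmul : ∀ g h, χ (g * h) = χ g + χ h) (k : ℕ) (hk : k ≤ n) : H χmul k hk → ZMod p :=
  fun h => ((χ (h : G)).val / p ^ k : ℕ)

omit [TopologicalSpace G] [IsTopologicalGroup G] in
theorem ch_spec {k : ℕ} (hk : k < n) {h : H χmul k hk.le} {u : ℕ}
    (hu : χ (h : G) = ((p ^ k * u : ℕ) : ZMod (p ^ n))) : ch χmul k hk.le h = u := by
  unfold ch
  rw [hu, dv hk]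

omit [TopologicalSpace G] [IsTopologicalGroup G] in
theorem ch_mul {k : ℕ} (hk : k < n) (g h : H χmul k hk.le) :
    ch χmul k hk.le (g * h) = ch χmul k hk.le g + ch χmul k hk.le h := by
  obtain ⟨u, hu⟩ := (mem_H' χmul).1 g.2
  obtain ⟨w, hw⟩ := (mem_H' χmul).1 h.2
  rw [ch_spec χmul hk hu, ch_spec χmul hk hw, ch_spec χmul hk (u := u + w)]
  · push_cast
    rfl
  · rw [Subgroup.coe_mul, χmul, hu, hw]
    push_cast
    ring

omit [TopologicalSpace G] [IsTopologicalGroup G] in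
theorem ch_zero_iff {k : ℕ} (hk : k < n) (h : H χmul k hk.le) :
    ch χmul k hk.le h = 0 ↔ (h : G) ∈ H χmul (k + 1) hk := by
  obtain ⟨u, hu⟩ := (mem_H' χmul).1 h.2
  rw [ch_spec χmul hk hu, mem_H' χmul, ZMod.natCast_eq_zero_iff]
  constructor
  · rintro ⟨w, rfl⟩
    refine ⟨w, ?_⟩
    rw [hu, pow_succ, mul_assoc]
  · rintro ⟨w, hw⟩
    rw [hw] at hu
    rw [ZMod.natCast_eq_natCast_iff] at hu
    have e : p ^ n = p ^ (k + 1) * p ^ (n - k - 1) := by rw [← pow_add]; congr 1; omega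
    have h1 : p ^ (k + 1) * w ≡ p ^ k * u [MOD p ^ (k + 1)] :=
      hu.of_dvd (by rw [e]; exact dvd_mul_right _ _)
    have h2 : p ^ (k + 1) ∣ p ^ k * u := by
      have h3 : p ^ (k + 1) * w ≡ 0 [MOD p ^ (k + 1)] := (Nat.modEq_zero_iff_dvd).2 (dvd_mul_right _ _)
      exact (Nat.modEq_zero_iff_dvd).1 (h1.symm.trans h3)
    rw [pow_succ] at h2
    exact Nat.dvd_of_mul_dvd_mul_left (pow_pos hp.out.pos k) h2

theorem ch_cont (cχ : Continuous χ) (k : ℕ) (hk : k ≤ n) : Continuous (ch χmul k hk) :=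
  (continuous_of_discreteTopology (f := fun x : ZMod (p ^ n) => ((x.val / p ^ k : ℕ) : ZMod p))).comp
    (cχ.comp continuous_subtype_val)

/-- extension of invariant homomorphisms -/
theorem extendN (cχ : Continuous χ) (k : ℕ) (hk : k ≤ n) {D : Subgroup G} {σ : G} (hσD : σ ∈ D)
    (hσ : χ σ = 1) {c : H χmul k hk → ZMod p} (hc : Continuous c)
    (hmul : ∀ g h, c (g * h) = c g + c h) (hD : ∀ g : H χmul k hk, (g : G) ∈ D → c g = 0)
    (hinv : ∀ g : H χmul k hk, ∀ g' : H χmul k hk, (g' : G) = σ * g * σ⁻¹ → c g' = c g) :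
    ∃ c' : G → ZMod p, Continuous c' ∧ (∀ g h, c' (g * h) = c' g + c' h) ∧
      (∀ g ∈ D, c' g = 0) ∧ ∀ g : H χmul k hk, c' g = c g := by
  have hσn : ∀ j : ZMod (p ^ n), χ (σ ^ j.val) = j := by
    intro j
    rw [x_pow χmul, hσ, mul_one, ZMod.natCast_zmod_val]
  have hk0 : ∀ g, g * (σ ^ (χ g).val)⁻¹ ∈ H χmul k hk := by
    intro g
    rw [mem_H, χmul, x_inv χmul, hσn, add_neg_cancel, ZMod.val_zero, Nat.cast_zero]
  have hinvn : ∀ (m : ℕ) (g g' : H χmul k hk), (g' : G) = σ ^ m * g * (σ ^ m)⁻¹ → c g' = c g := by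
    intro m
    induction m with
    | zero =>
      intro g g' h
      congr 1
      apply Subtype.ext
      rw [h]
      simp
    | succ m ih =>
      intro g g' h
      have h1 := H_conj χmul g.2 (σ ^ m)
      rw [← ih g ⟨_, h1⟩ rfl]
      refine hinv _ _ ?_
      rw [h, pow_succ']
      group
  refine ⟨fun g => c ⟨_, hk0 g⟩, ?_, ?_, ?_, ?_⟩
  · refine hc.comp ?_
    rw [continuous_induced_rng]
    have h1 : Continuous fun z : ZMod (p ^ n) => (σ ^ z.val)⁻¹ := continuous_of_discreteTopology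
    exact continuous_id.mul (h1.comp cχ)
  · intro g h
    -- the defect is in `D`
    have h1 := H_conj χmul (hk0 h) (σ ^ (χ g).val)
    set d : G := σ ^ (χ g).val * σ ^ (χ h).val * (σ ^ (χ (g * h)).val)⁻¹ with hd
    have hdD : d ∈ D := D.mul_mem (D.mul_mem (D.pow_mem hσD _) (D.pow_mem hσD _))
      (D.inv_mem (D.pow_mem hσD _))
    have hdH : d ∈ H χmul k hk := by
      rw [mem_H, hd, χmul, χmul, x_inv χmul, hσn, hσn, hσn, χmul, add_neg_cancel, ZMod.val_zero,
        Nat.cast_zero]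
    have e : (⟨_, hk0 (g * h)⟩ : H χmul k hk) = ⟨_, hk0 g⟩ * ⟨_, h1⟩ * ⟨d, hdH⟩ := by
      apply Subtype.ext
      show g * h * (σ ^ (χ (g * h)).val)⁻¹ = g * (σ ^ (χ g).val)⁻¹ *
        (σ ^ (χ g).val * (h * (σ ^ (χ h).val)⁻¹) * (σ ^ (χ g).val)⁻¹) * d
      rw [hd]
      group
    show c ⟨_, hk0 (g * h)⟩ = c ⟨_, hk0 g⟩ + c ⟨_, hk0 h⟩
    rw [e, hmul, hmul, hD ⟨d, hdH⟩ hdD, add_zero, hinvn _ ⟨_, hk0 h⟩ ⟨_, h1⟩ rfl]
  · intro g hg
    exact hD _ (D.mul_mem hg (D.inv_mem (D.pow_mem hσD _)))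
  · intro g
    have h1 : σ ^ (χ (g : G)).val ∈ H χmul k hk := by
      rw [mem_H, hσn]
      exact g.2
    have e : (⟨_, hk0 g⟩ : H χmul k hk) = g * (⟨_, h1⟩ : H χmul k hk)⁻¹ := rfl
    show c ⟨_, hk0 g⟩ = c g
    have h2 : c 1 = 0 := by
      have := hmul 1 1
      rw [mul_one] at this
      exact left_eq_add.1 this
    have h3 : c ((⟨_, h1⟩ : H χmul k hk)⁻¹) = 0 := by
      refine hD _ ?_
      exact D.inv_mem (D.pow_mem hσD _)
    rw [e, hmul, h3, add_zero]

end Pool.Agent.NH7.Abs
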