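import Pool.Agent.NH7.Sch.Abs5

/-!
# The abstract criterion for cyclic groups of order `p ^ n`
-/

set_option autoImplicit false
set_option linter.unusedSectionVars false

namespace Pool.Agent.NH7.Abs

open scoped Classical

variable {G : Type} [Group G] [TopologicalSpace G] [IsTopologicalGroup G]
variable {p : ℕ} [hp : Fact p.Prime] {n : ℕ}

/-- the hypotheses -/
structure SetupN (ψ : G →* ℤ_[p]ˣ) (χ : G → ZMod (p ^ n)) (D : Subgroup G) {ι : Type}
    (I E : ι → Subgroup G) : Prop where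
  cχ : Continuous χ
  χmul : ∀ g h, χ (g * h) = χ g + χ h
  hIE : ∀ i, I i ≤ E i
  norm : ∀ i, ∀ g ∈ E i, ∀ x ∈ I i, g * x * g⁻¹ ∈ I i
  conj : ∀ i g, ∃ j, ∀ x, (x ∈ I i ↔ g * x * g⁻¹ ∈ I j) ∧ (x ∈ E i ↔ g * x * g⁻¹ ∈ E j)
  ψI : ∀ i, ∀ x ∈ I i, ψ x = 1
  ψp : ∀ g, (p : ℤ_[p]) ∣ (ψ g : ℤ_[p]) - 1
  ψ2 : p = 2 → ∀ g, (4 : ℤ_[p]) ∣ (ψ g : ℤ_[p]) - 1
  di : ∀ i, (∀ x ∈ I i, χ x = 0) ∨ ∃ x ∈ I i, IsUnit (χ x)

/-- reduction modulo `p` -/
def c1 (hn : 0 < n) : ZMod (p ^ n) →+* ZMod p := ZMod.castHom (dvd_pow_self p hn.ne') (ZMod p)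

theorem c1_val (hn : 0 < n) (x : ZMod (p ^ n)) : ((x.val : ℕ) : ZMod p) = c1 hn x := by
  rw [ZMod.natCast_val]
  rfl

variable {ψ : G →* ℤ_[p]ˣ} {χ : G → ZMod (p ^ n)} {D : Subgroup G} {ι : Type}
  {I E : ι → Subgroup G}

/-- the space of homomorphisms at level `k` -/
def Y (S : SetupN ψ χ D I E) (k : ℕ) (hk : k ≤ n) :
    Submodule (ZMod p) (H S.χmul k hk → ZMod p) where
  carrier := {X | Continuous X ∧ (∀ g h, X (g * h) = X g + X h) ∧
    (∀ g : H S.χmul k hk, (g : G) ∈ D → X g = 0) ∧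
    (∀ i, (∀ x ∈ I i, χ x = 0) → ∀ x : H S.χmul k hk, (x : G) ∈ I i → X x = 0) ∧
    ∀ i, (∃ x ∈ I i, IsUnit (χ x)) → ∃ a : ZMod p, ∀ g : H S.χmul k hk, (g : G) ∈ E i →
      X g = a * ch S.χmul k hk g}
  add_mem' := by
    rintro A B ⟨h1, h2, h3, h4, h5⟩ ⟨h1', h2', h3', h4', h5'⟩
    refine ⟨h1.add h1', fun g h => ?_, fun g hg => ?_, fun i hi x hx => ?_, fun i hi => ?_⟩
    · simp only [Pi.add_apply]; rw [h2, h2']; ring
    · simp only [Pi.add_apply]; rw [h3 g hg, h3' g hg, add_zero]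
    · simp only [Pi.add_apply]; rw [h4 i hi x hx, h4' i hi x hx, add_zero]
    · obtain ⟨a, ha⟩ := h5 i hi
      obtain ⟨b, hb⟩ := h5' i hi
      exact ⟨a + b, fun g hg => by simp only [Pi.add_apply]; rw [ha g hg, hb g hg]; ring⟩
  zero_mem' := ⟨continuous_const, fun _ _ => by simp, fun _ _ => rfl, fun _ _ _ _ => rfl,
    fun _ _ => ⟨0, fun _ _ => by simp⟩⟩
  smul_mem' := by
    rintro r A ⟨h1, h2, h3, h4, h5⟩
    refine ⟨h1.const_smul r, fun g h => ?_, fun g hg => ?_, fun i hi x hx => ?_, fun i hi => ?_⟩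
    · simp only [Pi.smul_apply, smul_eq_mul]; rw [h2]; ring
    · simp only [Pi.smul_apply, smul_eq_mul]; rw [h3 g hg, mul_zero]
    · simp only [Pi.smul_apply, smul_eq_mul]; rw [h4 i hi x hx, mul_zero]
    · obtain ⟨a, ha⟩ := h5 i hi
      exact ⟨r * a, fun g hg => by simp only [Pi.smul_apply, smul_eq_mul]; rw [ha g hg]; ring⟩

/-- conjugation on `H k` -/
def cj (S : SetupN ψ χ D I E) (k : ℕ) (hk : k ≤ n) (τ : G) (h : H S.χmul k hk) :
    H S.χmul k hk := ⟨τ * h * τ⁻¹, H_conj S.χmul h.2 τ⟩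

theorem cj_mul (S : SetupN ψ χ D I E) (k : ℕ) (hk : k ≤ n) (τ : G) (g h : H S.χmul k hk) :
    cj S k hk τ (g * h) = cj S k hk τ g * cj S k hk τ h := by
  apply Subtype.ext
  show τ * ((g : G) * h) * τ⁻¹ = τ * g * τ⁻¹ * (τ * h * τ⁻¹)
  group

theorem cj_cj (S : SetupN ψ χ D I E) (k : ℕ) (hk : k ≤ n) (τ τ' : G) (g : H S.χmul k hk) :
    cj S k hk τ (cj S k hk τ' g) = cj S k hk (τ * τ') g := by
  apply Subtype.ext
  show τ * (τ' * g * τ'⁻¹) * τ⁻¹ = τ * τ' * g * (τ * τ')⁻¹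
  group

theorem ch_cj (S : SetupN ψ χ D I E) {k : ℕ} (hk : k < n) (τ : G) (g : H S.χmul k hk.le) :
    ch S.χmul k hk.le (cj S k hk.le τ g) = ch S.χmul k hk.le g := by
  unfold ch
  have : χ ((cj S k hk.le τ g : H S.χmul k hk.le) : G) = χ (g : G) := x_conj S.χmul τ g
  rw [this]

/-- the action of `σ` on the functions -/
def TT (S : SetupN ψ χ D I E) (k : ℕ) (hk : k ≤ n) (σ : G) :
    Module.End (ZMod p) (H S.χmul k hk → ZMod p) where
  toFun X := fun h => X (cj S k hk σ⁻¹ h)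
  map_add' _ _ := rfl
  map_smul' _ _ := rfl

theorem TT_pow (S : SetupN ψ χ D I E) (k : ℕ) (hk : k ≤ n) (σ : G) (m : ℕ)
    (X : H S.χmul k hk → ZMod p) (h : H S.χmul k hk) :
    (TT S k hk σ ^ m) X h = X (cj S k hk (σ ^ m)⁻¹ h) := by
  induction m generalizing h with
  | zero =>
    rw [pow_zero, Module.End.one_apply, pow_zero, inv_one]
    congr 1
    apply Subtype.ext
    show (h : G) = 1 * h * 1⁻¹
    group
  | succ m ih =>
    rw [pow_succ', Module.End.mul_apply]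
    show (TT S k hk σ ^ m) X (cj S k hk σ⁻¹ h) = _
    rw [ih, cj_cj, ← mul_inv_rev, ← pow_succ']

theorem TT_mem (S : SetupN ψ χ D I E) {k : ℕ} (hk : k < n) {σ : G} (hσ : σ ∈ D)
    {X : H S.χmul k hk.le → ZMod p} (hX : X ∈ Y S k hk.le) : TT S k hk.le σ X ∈ Y S k hk.le := by
  obtain ⟨h1, h2, h3, h4, h5⟩ := hX
  have hcoe : ∀ g : H S.χmul k hk.le, ((cj S k hk.le σ⁻¹ g : H S.χmul k hk.le) : G) =
      σ⁻¹ * g * σ⁻¹⁻¹ := fun _ => rfl
  refine ⟨?_, fun g h => ?_, fun g hg => ?_, fun i hi x hx => ?_, fun i hi => ?_⟩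
  · refine h1.comp ?_
    rw [continuous_induced_rng]
    have : Continuous fun g : G => σ⁻¹ * g * σ⁻¹⁻¹ := by fun_prop
    exact this.comp continuous_subtype_val
  · show X (cj S k hk.le σ⁻¹ (g * h)) = _
    rw [cj_mul, h2]
    rfl
  · refine h3 _ ?_
    rw [hcoe]
    exact D.mul_mem (D.mul_mem (D.inv_mem hσ) hg) (D.inv_mem (D.inv_mem hσ))
  · obtain ⟨j, hj⟩ := S.conj i σ⁻¹
    refine h4 j ?_ _ ((hj x).1.1 hx)
    intro y hy
    have h6 : σ⁻¹ * (σ * y * σ⁻¹) * σ⁻¹⁻¹ = y := by group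
    have h7 : σ * y * σ⁻¹ ∈ I i := (hj _).1.2 (by rw [h6]; exact hy)
    rw [← x_conj S.χmul σ y]
    exact hi _ h7
  · obtain ⟨j, hj⟩ := S.conj i σ⁻¹
    obtain ⟨x, hx, hxu⟩ := hi
    obtain ⟨a, ha⟩ := h5 j ⟨_, (hj x).1.1 hx, by rw [x_conj S.χmul]; exact hxu⟩
    refine ⟨a, fun g hg => ?_⟩
    have h6 := ha (cj S k hk.le σ⁻¹ g) ((hj g).2.1 hg)
    rw [ch_cj S hk] at h6
    exact h6

theorem TT_pow_one (S : SetupN ψ χ D I E) {k : ℕ} (hk : k < n) {σ : G} (hσ : χ σ = 1)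
    {X : H S.χmul k hk.le → ZMod p} (hX : X ∈ Y S k hk.le) :
    (TT S k hk.le σ ^ p ^ k) X = X := by
  funext h
  rw [TT_pow]
  have hd : (σ ^ p ^ k) ∈ H S.χmul k hk.le := by
    rw [mem_H' S.χmul]
    exact ⟨1, by rw [x_pow S.χmul, hσ, mul_one, mul_one]⟩
  have e : cj S k hk.le (σ ^ p ^ k)⁻¹ h = (⟨_, hd⟩ : H S.χmul k hk.le)⁻¹ * h * ⟨_, hd⟩ := by
    apply Subtype.ext
    show (σ ^ p ^ k)⁻¹ * h * (σ ^ p ^ k)⁻¹⁻¹ = (σ ^ p ^ k)⁻¹ * h * (σ ^ p ^ k)
    rw [inv_inv]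
  have h2 := hX.2.1
  have h3 : X 1 = 0 := by
    have := h2 1 1
    rw [mul_one] at this
    exact left_eq_add.1 this
  have h4 : ∀ g, X g⁻¹ = - X g := by
    intro g
    have := h2 g⁻¹ g
    rw [inv_mul_cancel, h3] at this
    exact eq_neg_of_add_eq_zero_left this.symm
  rw [e, h2, h2, h4]
  ring

/-- the invariant homomorphisms -/
theorem fixed (hn : 0 < n) (S : SetupN ψ χ D I E) {σ : G} (hσD : σ ∈ D) (hσ : χ σ = 1)
    (hC : Cond ψ (fun g => c1 hn (χ g)) D I E) {k : ℕ} (hk : k < n)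
    {X : H S.χmul k hk.le → ZMod p} (hX : X ∈ Y S k hk.le) (hT : TT S k hk.le σ X = X) :
    (∀ h, ch S.χmul k hk.le h = 0 → X h = 0) ∧ (0 < k → ∀ h, X h = 0) := by
  obtain ⟨h1, h2, h3, h4, h5⟩ := hX
  obtain ⟨X', e1, e2, e3, e4⟩ := extendN S.χmul S.cχ k hk.le hσD hσ h1 h2 h3 (by
    intro g g' hg'
    have h6 := congrFun hT g'
    rw [← h6]
    show X (cj S k hk.le σ⁻¹ g') = X g
    congr 1
    apply Subtype.ext
    show σ⁻¹ * g' * σ⁻¹⁻¹ = g
    rw [hg']
    group)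
  have eX : ∀ (g : G) (hg : g ∈ H S.χmul k hk.le), X' g = X ⟨g, hg⟩ := fun g hg => e4 ⟨g, hg⟩
  have e5 : X' 1 = 0 := by
    have := e2 1 1
    rw [mul_one] at this
    exact left_eq_add.1 this
  have e6 : ∀ g (m : ℕ), X' (g ^ m) = m * X' g := by
    intro g m
    induction m with
    | zero => rw [pow_zero, e5, Nat.cast_zero, zero_mul]
    | succ m ih => rw [pow_succ, e2, ih]; push_cast; ring
  have hH0 : ∀ g : G, χ g = 0 → g ∈ H S.χmul k hk.le := by
    intro g hg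
    rw [mem_H, hg, ZMod.val_zero, Nat.cast_zero]
  have key : ∀ g, c1 hn (χ g) = 0 → X' g = 0 := by
    refine hC X' e1 ?_ e3 ?_ ?_
    · intro g h
      have h7 : PadicInt.toZMod ((ψ g : ℤ_[p]ˣ) : ℤ_[p]) = 1 := by
        rw [← map_one (PadicInt.toZMod : ℤ_[p] →+* ZMod p), toZMod_eq]
        exact S.ψp g
      rw [h7, one_mul, e2]
    · intro i hi x hx
      rcases S.di i with h7 | ⟨y, hy, hyu⟩
      · rw [eX x (hH0 x (h7 x hx))]
        exact h4 i h7 _ hx
      · exact absurd (hi y hy) (hyu.map (c1 hn)).ne_zero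
    · rintro i ⟨y, hy, hy0⟩
      rcases S.di i with h7 | ⟨x, hx, hxu⟩
      · simp only [h7 y hy, map_zero, ne_eq, not_true_eq_false] at hy0
      · obtain ⟨a, ha⟩ := h5 i ⟨x, hx, hxu⟩
        rcases Nat.eq_zero_or_pos k with hk0 | hk0
        · subst hk0
          refine ⟨a, fun g hg => ?_⟩
          have hg0 : g ∈ H S.χmul 0 hk.le := by
            rw [mem_H' S.χmul]
            exact ⟨(χ g).val, by rw [pow_zero, one_mul, ZMod.natCast_zmod_val]⟩
          rw [eX g hg0, ha ⟨g, hg0⟩ hg]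
          congr 1
          show ((((χ g).val / p ^ 0 : ℕ)) : ZMod p) = _
          rw [pow_zero, Nat.div_one, c1_val hn]
        · have hxp : χ (x ^ p ^ k) = ((p ^ k * (χ x).val : ℕ) : ZMod (p ^ n)) := by
            rw [x_pow S.χmul]
            push_cast
            rw [ZMod.natCast_zmod_val]
          have hxH : x ^ p ^ k ∈ H S.χmul k hk.le := (mem_H' S.χmul).2 ⟨_, hxp⟩
          have h8 := eX _ hxH
          rw [ha ⟨_, hxH⟩ ((E i).pow_mem (S.hIE i hx) _), ch_spec S.χmul hk hxp, c1_val hn, e6]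
            at h8
          push_cast at h8
          rw [CharP.cast_eq_zero, zero_pow hk0.ne', zero_mul] at h8
          have ha0 : a = 0 := (mul_eq_zero.1 h8.symm).resolve_right (hxu.map (c1 hn)).ne_zero
          refine ⟨X' x * (c1 hn (χ x))⁻¹, fun g hg => ?_⟩
          obtain ⟨y, hy⟩ := hxu
          set j : ℕ := (χ g * (y⁻¹ : (ZMod (p ^ n))ˣ)).val with hj
          have hjc : ((j : ℕ) : ZMod (p ^ n)) * χ x = χ g := by
            rw [hj, ZMod.natCast_zmod_val, ← hy, mul_assoc, Units.inv_mul, mul_one]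
          have hw : χ (g * (x ^ j)⁻¹) = 0 := by
            rw [S.χmul, x_inv S.χmul, x_pow S.χmul, hjc, add_neg_cancel]
          have h9 := eX _ (hH0 _ hw)
          rw [ha _ ((E i).mul_mem hg ((E i).inv_mem ((E i).pow_mem (S.hIE i hx) _))), ha0,
            zero_mul] at h9
          have h10 : X' g = j * X' x := by
            have h11 := e2 (g * (x ^ j)⁻¹) (x ^ j)
            rw [inv_mul_cancel_right, h9, zero_add, e6] at h11
            exact h11
          have h12 : c1 hn (χ x) ≠ 0 := by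
            rw [← hy]
            exact (y.isUnit.map (c1 hn)).ne_zero
          show _ = X' x * (c1 hn (χ x))⁻¹ * c1 hn (χ g)
          rw [h10, ← hjc, map_mul, map_natCast]
          field_simp
  refine ⟨fun h hh => ?_, fun hk0 h => ?_⟩
  · rw [← e4]
    apply key
    rw [ch_zero_iff S.χmul hk, mem_H' S.χmul] at hh
    obtain ⟨u, hu⟩ := hh
    rw [hu, map_natCast]
    push_cast
    rw [CharP.cast_eq_zero, zero_pow (Nat.succ_ne_zero k), zero_mul]
  · rw [← e4]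
    apply key
    obtain ⟨u, hu⟩ := (mem_H' S.χmul).1 h.2
    rw [hu, map_natCast]
    push_cast
    rw [CharP.cast_eq_zero, zero_pow hk0.ne', zero_mul]

open Polynomial in
theorem Y_zero (hn : 0 < n) (S : SetupN ψ χ D I E) {σ : G} (hσD : σ ∈ D) (hσ : χ σ = 1)
    (hC : Cond ψ (fun g => c1 hn (χ g)) D I E) {k : ℕ} (hk : k < n) (hk0 : 0 < k)
    {X : H S.χmul k hk.le → ZMod p} (hX : X ∈ Y S k hk.le) : X = 0 := by
  by_contra hne
  set A : Module.End (ZMod p) (H S.χmul k hk.le → ZMod p) := TT S k hk.le σ - 1 with hA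
  have hAX : ∀ Z, A Z = TT S k hk.le σ Z - Z := fun Z => by
    rw [hA, LinearMap.sub_apply, Module.End.one_apply]
  have hmem : ∀ m, (A ^ m) X ∈ Y S k hk.le := by
    intro m
    induction m with
    | zero => rw [pow_zero, Module.End.one_apply]; exact hX
    | succ m ih =>
      rw [pow_succ', Module.End.mul_apply, hAX]
      exact (Y S k hk.le).sub_mem (TT_mem S hk hσD ih) ih
  have hnil : ∃ m, (A ^ m) X = 0 := by
    refine ⟨p ^ k, ?_⟩
    have h1 : (Polynomial.X - 1 : (ZMod p)[X]) ^ p ^ k = Polynomial.X ^ p ^ k - 1 := by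
      rw [sub_pow_char_pow, one_pow]
    have h2 := congrArg (aeval (TT S k hk.le σ)) h1
    rw [map_pow, map_sub, map_sub, map_pow, aeval_X, map_one, ← hA] at h2
    rw [h2, LinearMap.sub_apply, Module.End.one_apply, TT_pow_one S hk hσ hX, sub_self]
  set m := Nat.find hnil with hm
  have hm1 : (A ^ m) X = 0 := Nat.find_spec hnil
  have hm2 : ∀ i < m, (A ^ i) X ≠ 0 := fun i hi => Nat.find_min hnil hi
  have hm0 : m ≠ 0 := by
    intro h0
    rw [h0, pow_zero, Module.End.one_apply] at hm1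
    exact hne hm1
  obtain ⟨i, hi⟩ : ∃ i, m = i + 1 := ⟨m - 1, by omega⟩
  apply hm2 i (by omega)
  funext h
  refine (fixed hn S hσD hσ hC hk (hmem i) ?_).2 hk0 h
  rw [hi, pow_succ', Module.End.mul_apply, hAX, sub_eq_zero] at hm1
  exact hm1

/-- the main theorem at all levels -/
theorem mainN_aux (hn : 0 < n) (S : SetupN ψ χ D I E) {σ : G} (hσD : σ ∈ D) (hσ : χ σ = 1)
    (hG : Base ψ D I) (hC : Cond ψ (fun g => c1 hn (χ g)) D I E) (k : ℕ) (hk : k ≤ n) :
    Base (ψ.comp (H S.χmul k hk).subtype) (D.subgroupOf (H S.χmul k hk))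
      (fun i => (I i).subgroupOf (H S.χmul k hk)) := by
  induction k with
  | zero =>
    intro c h1 h2 h3 h4
    have hall : ∀ g : G, g ∈ H S.χmul 0 hk := by
      intro g
      rw [mem_H' S.χmul]
      exact ⟨(χ g).val, by rw [pow_zero, one_mul, ZMod.natCast_zmod_val]⟩
    have h5 := hG (fun g => c ⟨g, hall g⟩) (h1.comp (by
      rw [continuous_induced_rng]
      exact continuous_id)) (fun g h => h2 ⟨g, hall g⟩ ⟨h, hall h⟩)
      (fun g hg => h3 ⟨g, hall g⟩ hg) (fun i x hx => h4 i ⟨x, hall x⟩ hx)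
    funext g
    exact congrFun h5 (g : G)
  | succ k ih =>
    have hk' : k < n := hk
    intro c h1 h2 h3 h4
    -- the extension by zero
    let c' : H S.χmul k hk'.le → ℤ_[p] := fun h =>
      if hh : (h : G) ∈ H S.χmul (k + 1) hk then c ⟨h, hh⟩ else 0
    have hc1 : ∀ (h : H S.χmul k hk'.le) (hh : (h : G) ∈ H S.χmul (k + 1) hk),
        c' h = c ⟨h, hh⟩ := fun h hh => dif_pos hh
    have hc2 : ∀ (h : H S.χmul k hk'.le), (h : G) ∉ H S.χmul (k + 1) hk → c' h = 0 :=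
      fun h hh => dif_neg hh
    have hsetup : Setup (ψ.comp (H S.χmul k hk'.le).subtype) (ch S.χmul k hk'.le)
        (D.subgroupOf (H S.χmul k hk'.le)) (fun i => (I i).subgroupOf (H S.χmul k hk'.le))
        (fun i => (E i).subgroupOf (H S.χmul k hk'.le)) :=
      { cχ := ch_cont S.χmul S.cχ k hk'.le
        χmul := ch_mul S.χmul hk'
        hIE := fun i x hx => S.hIE i hx
        norm := fun i g hg x hx => S.norm i g hg x hx
        conj := fun i g x hx => by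
          obtain ⟨j, hj⟩ := S.conj i (g : G)
          exact ⟨j, (hj x).1.1 hx⟩
        ψI := fun i x hx => S.ψI i x hx
        ψE := fun i _ g _ => S.ψp g
        ψE2 := fun h i _ g _ => S.ψ2 h g }
    have hc'M : c' ∈ M (ψ.comp (H S.χmul k hk'.le).subtype) (ch S.χmul k hk'.le)
        (D.subgroupOf (H S.χmul k hk'.le)) (fun i => (I i).subgroupOf (H S.χmul k hk'.le)) := by
      refine ⟨?_, ?_, ?_, ?_, ?_⟩
      · refine continuous_ext (s := {h : H S.χmul k hk'.le | (h : G) ∈ H S.χmul (k + 1) hk})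
          ((H_clopen S.χmul S.cχ (k + 1) hk).preimage continuous_subtype_val)
          (g := fun h => c ⟨h.1.1, h.2⟩) (z := 0) ?_ (fun y hy => hc1 y hy) (fun y hy => hc2 y hy)
        exact h1.comp (Continuous.subtype_mk
          (continuous_subtype_val.comp continuous_subtype_val) _)
      · intro g h hg hh
        rw [ch_zero_iff S.χmul hk'] at hg hh
        have hgh : ((g * h : H S.χmul k hk'.le) : G) ∈ H S.χmul (k + 1) hk :=
          (H S.χmul (k + 1) hk).mul_mem hg hh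
        rw [hc1 g hg, hc1 h hh, hc1 _ hgh]
        exact h2 ⟨g, hg⟩ ⟨h, hh⟩
      · intro g hg
        rw [Ne, ch_zero_iff S.χmul hk'] at hg
        exact hc2 g hg
      · intro g hgD hg
        rw [ch_zero_iff S.χmul hk'] at hg
        rw [hc1 g hg]
        exact h3 ⟨g, hg⟩ hgD
      · intro i x hx hx0
        rw [ch_zero_iff S.χmul hk'] at hx0
        rw [hc1 x hx0]
        exact h4 i ⟨x, hx0⟩ hx
    have hσk : σ ^ p ^ k ∈ H S.χmul k hk'.le := by
      rw [mem_H' S.χmul]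
      exact ⟨1, by rw [x_pow S.χmul, hσ, mul_one, mul_one]⟩
    have hchσ : ch S.χmul k hk'.le ⟨_, hσk⟩ = 1 := by
      rw [ch_spec S.χmul hk' (u := 1) (by
        show χ (σ ^ p ^ k) = _
        rw [x_pow S.χmul, hσ, mul_one, mul_one]), Nat.cast_one]
    have hcond : Cond (ψ.comp (H S.χmul k hk'.le).subtype) (ch S.χmul k hk'.le)
        (D.subgroupOf (H S.χmul k hk'.le)) (fun i => (I i).subgroupOf (H S.χmul k hk'.le))
        (fun i => (E i).subgroupOf (H S.χmul k hk'.le)) := by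
      intro X x1 x2 x3 x4 x5
      have x2' : ∀ g h, X (g * h) = X g + X h := by
        intro g h
        rw [x2]
        have h7 : PadicInt.toZMod (((ψ.comp (H S.χmul k hk'.le).subtype) g : ℤ_[p]ˣ) : ℤ_[p]) =
            1 := by
          rw [← map_one (PadicInt.toZMod : ℤ_[p] →+* ZMod p), toZMod_eq]
          exact S.ψp g
        rw [h7, one_mul]
      have hXY : X ∈ Y S k hk'.le := by
        refine ⟨x1, x2', fun g hg => x3 g hg, fun i hi x hx => ?_, fun i hi => ?_⟩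
        · refine x4 i (fun y hy => ?_) x hx
          rw [ch_zero_iff S.χmul hk', mem_H, hi y hy, ZMod.val_zero, Nat.cast_zero]
        · obtain ⟨x, hx, hxu⟩ := hi
          have hxp : χ (x ^ p ^ k) = ((p ^ k * (χ x).val : ℕ) : ZMod (p ^ n)) := by
            rw [x_pow S.χmul]
            push_cast
            rw [ZMod.natCast_zmod_val]
          have hxH : x ^ p ^ k ∈ H S.χmul k hk'.le := (mem_H' S.χmul).2 ⟨_, hxp⟩
          refine x5 i ⟨⟨_, hxH⟩, (I i).pow_mem hx _, ?_⟩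
          rw [ch_spec S.χmul hk' hxp, c1_val hn]
          exact (hxu.map (c1 hn)).ne_zero
      intro h hh
      rcases Nat.eq_zero_or_pos k with hk0 | hk0
      · refine (fixed hn S hσD hσ hC hk' hXY ?_).1 h hh
        subst hk0
        have h6 := TT_pow_one S hk' hσ hXY
        rw [pow_zero, pow_one] at h6
        exact h6
      · rw [Y_zero hn S hσD hσ hC hk' hk0 hXY]
        rfl
    have h5 := main hsetup (σ := ⟨_, hσk⟩) (D.pow_mem hσD _) (by rw [hchσ]; exact one_ne_zero)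
      (ih hk'.le) hcond ⟨c', hc'M⟩
    funext g
    have hgk : (g : G) ∈ H S.χmul k hk'.le := by
      obtain ⟨u, hu⟩ := (mem_H' S.χmul).1 g.2
      rw [mem_H' S.χmul]
      exact ⟨p * u, by rw [hu, pow_succ, mul_assoc]⟩
    have h6 : c' ⟨g, hgk⟩ = 0 := by
      have := congrArg (fun y : M (ψ.comp (H S.χmul k hk'.le).subtype) (ch S.χmul k hk'.le)
        (D.subgroupOf (H S.χmul k hk'.le)) (fun i => (I i).subgroupOf (H S.χmul k hk'.le)) =>
        (y : H S.χmul k hk'.le → ℤ_[p]) ⟨g, hgk⟩) h5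
      exact this
    rw [hc1 ⟨g, hgk⟩ g.2] at h6
    exact h6

end Pool.Agent.NH7.Abs
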