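import Pool.Agent.NH7.Sch.Val

/-!
# Kummer classes which are trivial on a decomposition group are `p`-th powers locally
-/

set_option autoImplicit false
set_option linter.unusedSectionVars false

namespace Pool.Agent.NH7.Sch

open NumberField IsDedekindDomain Pool.Agent.W401.Cheb

variable {K : Type} [Field K] [NumberField K] {p : ℕ} [hp : Fact p.Prime]
  {ζ : K} (hζ : IsPrimitiveRoot ζ p)

/-- the field `M`, in which the decomposition group is trivial -/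
theorem approx_aux (M : IntermediateField K (AlgebraicClosure K)) [IsGalois K M]
    [hM : NumberField M] {v : HeightOneSpectrum (𝓞 K)} {Q : Ideal (OO K)} (hQ : Q.IsMaximal)
    (hQv : Q.comap (algebraMap (𝓞 K) (OO K)) = v.asIdeal)
    (htriv : ∀ σ ∈ Dec Q, ∀ x : M, σ (x : AlgebraicClosure K) = x) (B : 𝓞 M) (x : 𝓞 K) (n : ℕ)
    (hB : B ^ n = algebraMap (𝓞 K) (𝓞 M) x) (N : ℕ) : ∃ γ : 𝓞 K, γ ^ n - x ∈ v.asIdeal ^ N := by
  classical
  obtain ⟨w, hw, hval⟩ := exists_place M hQ hQv (fun σ hσ x => htriv σ (Inr_le Q hσ) x)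
  have hwm : w.asIdeal.IsMaximal := w.isMaximal
  -- the conjugate primes
  let f : (M ≃ₐ[K] M) → (𝓞 M →+* 𝓞 M) := fun τ => MulSemiringAction.toRingHom _ (𝓞 M) τ
  have hf : ∀ τ a, f τ a = τ • a := fun _ _ => rfl
  have hmax : ∀ τ, (w.asIdeal.comap (f τ)).IsMaximal := fun τ =>
    Ideal.comap_isMaximal_of_surjective _ fun a => ⟨τ⁻¹ • a, smul_inv_smul τ a⟩
  have hne : ∀ τ : M ≃ₐ[K] M, τ ≠ 1 → w.asIdeal ≠ w.asIdeal.comap (f τ) := by
    intro τ hτ heq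
    apply hτ
    obtain ⟨g, hg, hgτ⟩ := dec_lift M hQ τ (fun a => by
      have h1 : ∀ b : 𝓞 M, algebraMap (𝓞 M) (OO K) b ∈ Q ↔ b ∈ w.asIdeal := by
        intro b
        rw [hw]
        rfl
      rw [h1, h1, ← hf, ← Ideal.mem_comap, ← heq])
    ext y
    rw [← hgτ, htriv g hg]
    rfl
  have hcop : IsCoprime (w.asIdeal ^ N)
      (∏ τ ∈ Finset.univ.erase (1 : M ≃ₐ[K] M), (w.asIdeal.comap (f τ)) ^ N) := by
    apply IsCoprime.prod_right
    intro τ hτ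
    apply IsCoprime.pow
    rw [Ideal.isCoprime_iff_sup_eq]
    exact Ideal.IsMaximal.coprime_of_ne hwm (hmax τ) (hne τ (Finset.ne_of_mem_erase hτ))
  rw [Ideal.isCoprime_iff_exists] at hcop
  obtain ⟨i, hi, e, he, hie⟩ := hcop
  have heτ : ∀ τ : M ≃ₐ[K] M, τ ≠ 1 → τ • e ∈ w.asIdeal ^ N := by
    intro τ hτ
    have h1 : e ∈ (w.asIdeal.comap (f τ)) ^ N := by
      refine Ideal.prod_le_inf.trans ?_ he
      exact Finset.inf_le (f := fun τ => (w.asIdeal.comap (f τ)) ^ N)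
        (Finset.mem_erase.2 ⟨hτ, Finset.mem_univ τ⟩)
    exact Ideal.le_comap_pow (f τ) N h1
  -- the trace
  set y : 𝓞 M := ∑ τ : M ≃ₐ[K] M, τ • (e * B) with hy
  have hyB : y - B ∈ w.asIdeal ^ N := by
    rw [hy, ← Finset.add_sum_erase _ _ (Finset.mem_univ (1 : M ≃ₐ[K] M)), one_smul]
    have h1 : e * B + ∑ τ ∈ Finset.univ.erase (1 : M ≃ₐ[K] M), τ • (e * B) - B =
        -(i * B) + ∑ τ ∈ Finset.univ.erase (1 : M ≃ₐ[K] M), τ • (e * B) := by
      have : e = 1 - i := by rw [← hie]; ring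
      rw [this]
      ring
    rw [h1]
    refine Ideal.add_mem _ (neg_mem (Ideal.mul_mem_right _ _ hi)) ?_
    refine Ideal.sum_mem _ fun τ hτ => ?_
    rw [smul_mul']
    exact Ideal.mul_mem_right _ _ (heτ τ (Finset.ne_of_mem_erase hτ))
  have hG1 : IsGaloisGroup (M ≃ₐ[K] M) (𝓞 K) (𝓞 M) :=
    IsGaloisGroup.of_isFractionRing (M ≃ₐ[K] M) (𝓞 K) (𝓞 M) K M
  have hinv : Algebra.IsInvariant (𝓞 K) (𝓞 M) (M ≃ₐ[K] M) := hG1.isInvariant
  obtain ⟨γ, hγ⟩ := hinv.isInvariant y (by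
    intro g
    rw [hy, Finset.smul_sum]
    refine Fintype.sum_equiv (Equiv.mulLeft g) _ _ fun τ => ?_
    rw [smul_smul]
    rfl)
  refine ⟨γ, ?_⟩
  have h2 : algebraMap (𝓞 K) (𝓞 M) (γ ^ n - x) ∈ w.asIdeal ^ N := by
    rw [map_sub, map_pow, hγ, ← hB]
    obtain ⟨c, hc⟩ := sub_dvd_pow_sub_pow y B n
    rw [hc]
    exact Ideal.mul_mem_right _ _ hyB
  rw [← HeightOneSpectrum.intValuation_le_pow_iff_mem] at h2 ⊢
  rw [← HeightOneSpectrum.valuation_of_algebraMap (K := K), ← hval,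
    ← IsScalarTower.algebraMap_apply, IsScalarTower.algebraMap_apply (𝓞 K) (𝓞 M) M,
    HeightOneSpectrum.valuation_of_algebraMap]
  exact h2

theorem approx {v : HeightOneSpectrum (𝓞 K)} {Q : Ideal (OO K)} (hQ : Q.IsMaximal)
    (hQv : Q.comap (algebraMap (𝓞 K) (OO K)) = v.asIdeal) {κ : Kˣ} {x : 𝓞 K}
    (hx : algebraMap (𝓞 K) K x = κ) (h : ∀ σ ∈ Dec Q, kp hζ κ σ = 0) (N : ℕ) :
    ∃ γ : 𝓞 K, γ ^ p - x ∈ v.asIdeal ^ N := by
  have h1 := kp_mul_right hζ κ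
  have h2 := kp_cont hζ κ
  have := fld_gal h2 h1
  have := fld_fin h2 h1
  have := NumberField.of_module_finite K (fld h1)
  have h3 : rt p κ ∈ fld h1 := mem_fld h1 fun g hg => (kp_zero_iff hζ (rt_pow κ)).1 hg
  have hint : IsIntegral ℤ (rt p κ) := by
    refine IsIntegral.of_pow hp.out.pos ?_
    rw [rt_pow, ← hx]
    exact ((RingOfIntegers.isIntegral_coe x).map
      (Algebra.ofId K (AlgebraicClosure K) |>.restrictScalars ℤ))
  have hint' : IsIntegral ℤ (⟨rt p κ, h3⟩ : fld h1) :=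
    (isIntegral_algebraMap_iff (algebraMap (fld h1) (AlgebraicClosure K)).injective).1 hint
  refine approx_aux (fld h1) hQ hQv (fun σ hσ x => fld_triv h1 (h σ hσ) x)
    (⟨⟨rt p κ, h3⟩, hint'⟩ : 𝓞 (fld h1)) x p ?_ N
  apply RingOfIntegers.ext
  apply Subtype.ext
  have e1 : rt p κ ^ p = algebraMap K (AlgebraicClosure K) (algebraMap (𝓞 K) K x) := by
    rw [hx, rt_pow]
  exact e1

end Pool.Agent.NH7.Sch
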