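import Pool.Agent.NH7.Sch.Che

/-!
# The chain of primes
-/

set_option autoImplicit false
set_option linter.unusedSectionVars false

namespace Pool.Agent.NH7.Sch

open NumberField IsDedekindDomain Pool.Agent.W401.Cheb WithZero Filter Topology

variable {K : Type} [Field K] [NumberField K] {p : ℕ} [hp : Fact p.Prime] {ζ : K}
  (hζ : IsPrimitiveRoot ζ p)

/-- the cyclotomic character is `1` modulo `p ^ n` at `g` -/
def C1 (p : ℕ) [Fact p.Prime] (n : ℕ) (g : GK K) : Prop :=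
  (p : ℤ_[p]) ^ n ∣ ((Pool.Agent.Y802.chi K p g : ℤ_[p]ˣ) : ℤ_[p]) - 1

theorem C1_iff {n : ℕ} {g : GK K} : C1 p n g ↔
    Units.map (PadicInt.toZModPow n : ℤ_[p] →+* ZMod (p ^ n)).toMonoidHom
      (Pool.Agent.Y802.chi K p g) = 1 := by
  rw [C1, ← toZModPow_one_iff, Units.ext_iff]
  rfl

theorem C1_mul {n : ℕ} {g h : GK K} (hg : C1 p n g) (hh : C1 p n h) : C1 p n (g * h) := by
  rw [C1_iff] at *
  rw [map_mul, map_mul, hg, hh, mul_one]

theorem C1_inv {n : ℕ} {g : GK K} (hg : C1 p n g) : C1 p n g⁻¹ := by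
  rw [C1_iff] at *
  rw [map_inv, map_inv, hg, inv_one]

theorem C1_one {n : ℕ} : C1 p n (1 : GK K) := by
  rw [C1_iff, map_one, map_one]

theorem C1_comm {n : ℕ} (a b : GK K) : C1 p n (a * b * a⁻¹ * b⁻¹) := by
  have h : ∀ f : GK K →* (ZMod (p ^ n))ˣ, f (a * b * a⁻¹ * b⁻¹) = 1 := by
    intro f
    rw [map_mul, map_mul, map_mul, map_inv, map_inv, mul_comm (f a), mul_inv_cancel_right,
      mul_inv_cancel]
  rw [C1_iff]
  exact h ((Units.map (PadicInt.toZModPow n : ℤ_[p] →+* ZMod (p ^ n)).toMonoidHom).comp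
    (Pool.Agent.Y802.chi K p))

theorem kp_comm (κ : Kˣ) (a b : GK K) : kp hζ κ (a * b * a⁻¹ * b⁻¹) = 0 := by
  rw [kp_mul_right, kp_mul_right, kp_mul_right, kp_inv_right, kp_inv_right]
  ring

variable (l : HeightOneSpectrum (𝓞 K)) (a : ℕ)

/-- the conditions on the `j`-th prime -/
structure Good (B : Set (HeightOneSpectrum (𝓞 K))) (q : ℕ → HeightOneSpectrum (𝓞 K))
    (Q : ℕ → Ideal (OO K)) (φ : ℕ → GK K) (j : ℕ) : Prop where
  hB : q j ∉ B
  hl : q j ≠ l
  hne : ∀ i < j, q i ≠ q j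
  hQ : (Q j).IsMaximal
  hQq : (Q j).comap (algebraMap (𝓞 K) (OO K)) = (q j).asIdeal
  hφ : ∀ x : OO K, φ j • x - x ^ Ideal.absNorm (q j).asIdeal ∈ Q j
  h0 : j = 0 → ¬ C1 p (a + 1) (φ j)
  h1 : ∀ i, j = i + 1 → C1 p (a + 1) (φ j) ∧ kp hζ (gg (q i)) (φ j) ≠ 0 ∧
    ∀ κ : Kˣ, (∀ v, v ≠ l → (∀ k < i, v ≠ q k) → (p : ℤ) ∣ od v κ) → kp hζ κ (φ j) = 0

theorem Good.congr {B : Set (HeightOneSpectrum (𝓞 K))} {q q' : ℕ → HeightOneSpectrum (𝓞 K)}
    {Q Q' : ℕ → Ideal (OO K)} {φ φ' : ℕ → GK K} {j : ℕ} (hq : ∀ i ≤ j, q' i = q i)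
    (hQ : Q' j = Q j) (hφ : φ' j = φ j) (h : Good hζ l a B q Q φ j) :
    Good hζ l a B q' Q' φ' j := by
  have hqj := hq j le_rfl
  refine ⟨?_, ?_, ?_, ?_, ?_, ?_, ?_, ?_⟩
  · rw [hqj]; exact h.hB
  · rw [hqj]; exact h.hl
  · intro i hi
    rw [hqj, hq i hi.le]; exact h.hne i hi
  · rw [hQ]; exact h.hQ
  · rw [hqj, hQ]; exact h.hQq
  · rw [hqj, hQ, hφ]; exact h.hφ
  · rw [hφ]; exact h.h0
  · intro i hi
    have h2 := h.h1 i hi
    rw [hφ, hq i (by omega)]
    refine ⟨h2.1, h2.2.1, fun κ hκ => h2.2.2 κ fun v hv hvk => hκ v hv fun k hk => ?_⟩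
    rw [hq k (by omega)]
    exact hvk k hk

variable (hcop : (classNumber K).Coprime p) (hl : ∀ v : HeightOneSpectrum (𝓞 K),
  (p : 𝓞 K) ∈ v.asIdeal → v = l) (hlp : (p : 𝓞 K) ∈ l.asIdeal)
  (hmax : ∀ z : K, ¬ IsPrimitiveRoot z (p ^ (a + 1)))

include hl in
theorem not_mem_of_ne {v : HeightOneSpectrum (𝓞 K)} (hv : v ≠ l) : (p : 𝓞 K) ∉ v.asIdeal :=
  fun h => hv (hl v h)

theorem not_mem_Q {v : HeightOneSpectrum (𝓞 K)} {Q : Ideal (OO K)}
    (hQ : Q.comap (algebraMap (𝓞 K) (OO K)) = v.asIdeal) (h : (p : 𝓞 K) ∉ v.asIdeal) :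
    (p : OO K) ∉ Q := by
  intro hm
  apply h
  rw [← hQ, Ideal.mem_comap, map_natCast]
  exact hm

include hcop hl hmax in
theorem step {B : Set (HeightOneSpectrum (𝓞 K))} (hB : B.Finite)
    (q : ℕ → HeightOneSpectrum (𝓞 K)) (Q : ℕ → Ideal (OO K)) (φ : ℕ → GK K) (m : ℕ)
    (h : ∀ j < m, Good hζ l a B q Q φ j) : ∃ v Q' φ',
      Good hζ l a B (Function.update q m v) (Function.update Q m Q') (Function.update φ m φ') m := by
  classical
  -- an auxiliary statement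
  have key : ∃ (U : Subgroup (GK K)) (σ : GK K), IsOpen (U : Set (GK K)) ∧
      (∀ a b : GK K, a * b * a⁻¹ * b⁻¹ ∈ U) ∧ ∀ φ' : GK K, σ⁻¹ * φ' ∈ U →
        (m = 0 → ¬ C1 p (a + 1) φ') ∧ ∀ i, m = i + 1 → C1 p (a + 1) φ' ∧
          kp hζ (gg (q i)) φ' ≠ 0 ∧ ∀ κ : Kˣ,
            (∀ v, v ≠ l → (∀ k < i, v ≠ q k) → (p : ℤ) ∣ od v κ) → kp hζ κ φ' = 0 := by
    obtain ⟨V, hVo, hV1, hV⟩ := chi_open (K := K) (p := p) (a + 1)
    rcases Nat.eq_zero_or_pos m with hm | hm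
    · obtain ⟨σ, hσ⟩ := chi_ne (p := p) hmax
      let U : Subgroup (GK K) :=
        { carrier := {g | C1 p (a + 1) g}
          mul_mem' := fun ha hb => C1_mul ha hb
          one_mem' := C1_one
          inv_mem' := fun ha => C1_inv ha }
      refine ⟨U, σ, ?_, fun a b => C1_comm a b, fun φ' hφ' => ⟨fun _ hc => ?_, fun i hi => ?_⟩⟩
      · apply Subgroup.isOpen_of_mem_nhds U (g := 1)
        exact Filter.mem_of_superset (hVo.mem_nhds hV1) fun g hg => hV g hg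
      · have h1 : C1 p (a + 1) (φ' * (σ⁻¹ * φ')⁻¹) := C1_mul hc (C1_inv hφ')
        have e : φ' * (σ⁻¹ * φ')⁻¹ = σ := by group
        rw [e] at h1
        exact hσ h1
      · omega
    · obtain ⟨i, rfl⟩ : ∃ i, m = i + 1 := ⟨m - 1, by omega⟩
      have hi := h i (Nat.lt_succ_self i)
      have hpq : (p : 𝓞 K) ∉ (q i).asIdeal := not_mem_of_ne l hl hi.hl
      have hpQ : (p : OO K) ∉ Q i := not_mem_Q hi.hQq hpq
      obtain ⟨σ, hσ, hσ0⟩ : ∃ σ ∈ Inr (Q i), kp hζ (gg (q i)) σ ≠ 0 := by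
        by_contra hcon
        push Not at hcon
        have h1 := od_dvd_of_inr hζ hi.hQ hi.hQq hcon
        rw [od_gg_self, dvd_neg] at h1
        have h2 : p ∣ hh K := by exact_mod_cast h1
        exact hh_ne hcop ((ZMod.natCast_eq_zero_iff _ _).2 h2)
      obtain ⟨V', hVo', hV1', hV'⟩ := W_open hζ hcop (insert l ((Finset.range i).image q))
      let U : Subgroup (GK K) :=
        { carrier := {g | C1 p (a + 1) g ∧ kp hζ (gg (q i)) g = 0 ∧ ∀ κ : Kˣ,
            (∀ v, v ≠ l → (∀ k < i, v ≠ q k) → (p : ℤ) ∣ od v κ) → kp hζ κ g = 0}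
          mul_mem' := by
            rintro g g' ⟨h1, h2, h3⟩ ⟨h1', h2', h3'⟩
            refine ⟨C1_mul h1 h1', ?_, fun κ hκ => ?_⟩
            · rw [kp_mul_right, h2, h2', add_zero]
            · rw [kp_mul_right, h3 κ hκ, h3' κ hκ, add_zero]
          one_mem' := ⟨C1_one, kp_one_right hζ _, fun κ _ => kp_one_right hζ _⟩
          inv_mem' := by
            rintro g ⟨h1, h2, h3⟩
            refine ⟨C1_inv h1, ?_, fun κ hκ => ?_⟩
            · rw [kp_inv_right, h2, neg_zero]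
            · rw [kp_inv_right, h3 κ hκ, neg_zero] }
      have hσU : C1 p (a + 1) σ ∧ ∀ κ : Kˣ,
          (∀ v, v ≠ l → (∀ k < i, v ≠ q k) → (p : ℤ) ∣ od v κ) → kp hζ κ σ = 0 := by
        constructor
        · rw [C1, chi_inr hi.hQ hpQ hσ, Units.val_one, sub_self]
          exact dvd_zero _
        · intro κ hκ
          refine kp_inr_zero hζ hi.hQ hi.hQq hpQ (hκ _ hi.hl fun k hk => ?_) hσ
          exact (hi.hne k hk).symm
      refine ⟨U, σ, ?_, fun a b => ⟨C1_comm a b, kp_comm hζ _ a b, fun κ _ => kp_comm hζ _ a b⟩,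
        fun φ' hφ' => ⟨fun h0 => by omega, fun j hj => ?_⟩⟩
      · apply Subgroup.isOpen_of_mem_nhds U (g := 1)
        have hk : IsOpen {g : GK K | kp hζ (gg (q i)) g = 0} :=
          (isOpen_discrete {0}).preimage (kp_cont hζ _)
        refine Filter.mem_of_superset (((hVo.inter hVo').inter hk).mem_nhds
          ⟨⟨hV1, hV1'⟩, kp_one_right hζ _⟩) ?_
        rintro g ⟨⟨hg, hg'⟩, hg''⟩
        refine ⟨hV g hg, hg'', fun κ hκ => hV' g hg' κ fun v hv => ?_⟩
        rw [Finset.mem_insert, Finset.mem_image, not_or, not_exists] at hv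
        refine hκ v hv.1 fun k hk hvk => hv.2 k ⟨Finset.mem_range.2 hk, hvk.symm⟩
      · have hji : j = i := by omega
        subst hji
        obtain ⟨h1, h2, h3⟩ := hφ'
        have e : φ' = σ * (σ⁻¹ * φ') := by group
        refine ⟨?_, ?_, fun κ hκ => ?_⟩
        · rw [e]
          exact C1_mul hσU.1 h1
        · rw [e, kp_mul_right, h2, add_zero]
          exact hσ0
        · rw [e, kp_mul_right, h3 κ hκ, add_zero]
          exact hσU.2 κ hκ
  obtain ⟨U, σ, hUo, hUc, hU⟩ := key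
  have hinf := cheb U hUo hUc σ
  have hfin : (B ∪ ({l} ∪ (q '' Set.Iio m))).Finite :=
    hB.union ((Set.finite_singleton l).union ((Set.finite_Iio m).image q))
  obtain ⟨v, ⟨φ', hφ', Q', hQ', hQv, hfr⟩, hv⟩ := hinf.exists_notMem_finite hfin
  rw [Set.mem_union, Set.mem_union, Set.mem_singleton_iff, not_or, not_or] at hv
  obtain ⟨hvB, hvl, hvq⟩ := hv
  refine ⟨v, Q', φ', ⟨?_, ?_, ?_, ?_, ?_, ?_, ?_, ?_⟩⟩
  · rw [Function.update_self]; exact hvB
  · rw [Function.update_self]; exact hvl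
  · intro i hi
    rw [Function.update_self, Function.update_of_ne hi.ne]
    exact fun he => hvq ⟨i, hi, he⟩
  · rw [Function.update_self]; exact hQ'
  · rw [Function.update_self, Function.update_self]; exact hQv
  · rw [Function.update_self, Function.update_self, Function.update_self]; exact hfr
  · rw [Function.update_self]
    exact (hU φ' hφ').1
  · intro i hi
    rw [Function.update_self, Function.update_of_ne (by omega)]
    obtain ⟨h1, h2, h3⟩ := (hU φ' hφ').2 i hi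
    refine ⟨h1, h2, fun κ hκ => h3 κ fun w hw hwk => hκ w hw fun k hk => ?_⟩
    rw [Function.update_of_ne (by omega)]
    exact hwk k hk

include hcop hl hmax in
theorem chain {B : Set (HeightOneSpectrum (𝓞 K))} (hB : B.Finite) (m : ℕ) :
    ∃ (q : ℕ → HeightOneSpectrum (𝓞 K)) (Q : ℕ → Ideal (OO K)) (φ : ℕ → GK K),
      ∀ j < m, Good hζ l a B q Q φ j := by
  classical
  induction m with
  | zero => exact ⟨fun _ => l, fun _ => ⊥, fun _ => 1, fun j hj => absurd hj (Nat.not_lt_zero j)⟩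
  | succ m ih =>
    obtain ⟨q, Q, φ, h⟩ := ih
    obtain ⟨v, Q', φ', h'⟩ := step hζ l a hcop hl hmax hB q Q φ m h
    refine ⟨Function.update q m v, Function.update Q m Q', Function.update φ m φ', fun j hj => ?_⟩
    rcases Nat.lt_succ_iff_lt_or_eq.1 hj with hj | rfl
    · refine (h j hj).congr hζ l a (fun i hi => ?_) ?_ ?_
      · rw [Function.update_of_ne (by omega)]
      · rw [Function.update_of_ne hj.ne]
      · rw [Function.update_of_ne hj.ne]
    · exact h'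

end Pool.Agent.NH7.Sch
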