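import Pool.Agent.Y158.KL.Hil4
import Pool.Agent.Y158.KL.Cls

/-!
# Hilbert's theorem 94 over totally complex number fields with a primitive `ℓ`-th root of unity

After `Pool.Agent.Y158.KL.Hil4`, which treats the `ℓ`-th cyclotomic field.
-/

set_option autoImplicit false
set_option linter.unusedSectionVars false

namespace Pool.Agent.NH7.Hil

open NumberField IsDedekindDomain Polynomial
open Pool.Agent.Y158.KL (su su_coe unit_ext sl sl_apply sl_pow ufix hilb92 exists_ringHom exists_unit_mul_pow)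

variable {ℓ : ℕ} [hp : Fact ℓ.Prime] {K L : Type} [Field K] [NumberField K] [Field L]
  [NumberField L] [Algebra K L] [hK : IsTotallyComplex K] {ζ : K}
  (hζ : IsPrimitiveRoot ζ ℓ)

section

variable [hG : IsGalois K L] {σ : L ≃ₐ[K] L} (hσ : ∀ τ, τ ∈ Subgroup.zpowers σ)
  (hdeg : Module.finrank K L = ℓ)

include hG hσ hdeg in
theorem ord_sigma : orderOf σ = ℓ := by
  rw [orderOf_eq_card_of_forall_mem_zpowers hσ, IsGalois.card_aut_eq_finrank, hdeg]

include hG hσ hdeg in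
theorem prod_aut (x : L) : ∏ i ∈ Finset.range ℓ, (σ ^ i) x = algebraMap K L (Algebra.norm K x) := by
  classical
  rw [Algebra.norm_eq_prod_automorphisms]
  have h1 : (Finset.univ : Finset (L ≃ₐ[K] L)) = (Finset.range ℓ).image (fun i => σ ^ i) := by
    rw [← IsCyclic.image_range_card hσ, IsGalois.card_aut_eq_finrank, hdeg]
  rw [h1, Finset.prod_image]
  intro i hi j hj hij
  have ho := ord_sigma hσ hdeg
  refine pow_injOn_Iio_orderOf ?_ ?_ hij
  · rw [ho]
    exact Finset.mem_range.1 hi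
  · rw [ho]
    exact Finset.mem_range.1 hj

include hp hK in
theorem card_places (hdeg : Module.finrank K L = ℓ) :
    Fintype.card (InfinitePlace L) = ℓ * Fintype.card (InfinitePlace K) := by
  have h2 : IsTotallyComplex L := isTotallyComplex_of_algebra K L
  have h3 := IsTotallyComplex.finrank K
  have h4 := IsTotallyComplex.finrank L
  have h5 := Module.finrank_mul_finrank ℚ K L
  rw [InfinitePlace.card_eq_nrRealPlaces_add_nrComplexPlaces,
    InfinitePlace.card_eq_nrRealPlaces_add_nrComplexPlaces,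
    IsTotallyComplex.nrRealPlaces_eq_zero K, IsTotallyComplex.nrRealPlaces_eq_zero L, zero_add,
    zero_add]
  rw [hdeg, h3, h4] at h5
  have : 2 * (ℓ * InfinitePlace.nrComplexPlaces K) = 2 * InfinitePlace.nrComplexPlaces L := by
    rw [← h5]; ring
  omega

/-- the units have valuation one -/
theorem val_unit (v : HeightOneSpectrum (𝓞 L)) (u : (𝓞 L)ˣ) : v.intValuation (u : 𝓞 L) = 1 := by
  rw [HeightOneSpectrum.intValuation_eq_one_iff]
  intro h
  exact v.isPrime.ne_top (Ideal.eq_top_of_isUnit_mem _ h u.isUnit)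

include hG hσ hdeg hζ in
theorem card_roots : Nat.card {x : Additive (𝓞 L)ˣ // sl σ x = x ∧ ℓ • x = 0} = ℓ := by
  have : NeZero ℓ := ⟨hp.out.ne_zero⟩
  have h1 : IsPrimitiveRoot (algebraMap (𝓞 K) (𝓞 L) hζ.toInteger) ℓ :=
    hζ.toInteger_isPrimitiveRoot.map_of_injective (FaithfulSMul.algebraMap_injective _ _)
  refine Eq.trans ?_ h1.card_rootsOfUnity
  refine Nat.card_congr ⟨fun x => ⟨x.1.toMul, ?_⟩, fun x => ⟨Additive.ofMul x.1, ?_, ?_⟩, ?_, ?_⟩
  · exact x.2.2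
  · have h2 : (x.1 : 𝓞 L) ^ ℓ = 1 := by
      have := x.2
      rw [mem_rootsOfUnity] at this
      rw [← Units.val_pow_eq_pow_val, this, Units.val_one]
    obtain ⟨i, _, hi⟩ := h1.eq_pow_of_pow_eq_one h2
    rw [sl_apply]
    congr 1
    apply unit_ext
    rw [su_coe, ← hi]
    change σ (algebraMap (𝓞 L) L (algebraMap (𝓞 K) (𝓞 L) hζ.toInteger ^ i)) =
      algebraMap (𝓞 L) L (algebraMap (𝓞 K) (𝓞 L) hζ.toInteger ^ i)
    rw [← map_pow, ← IsScalarTower.algebraMap_apply, IsScalarTower.algebraMap_apply (𝓞 K) K L]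
    exact σ.commutes _
  · exact x.2
  · intro x; rfl
  · intro x; rfl

include hG hσ hdeg hζ in
/-- Hilbert's theorem 92 -/
theorem exists_rel_unit : ∃ η : (𝓞 L)ˣ, Algebra.norm K ((η : 𝓞 L) : L) = 1 ∧
    ∀ ε : (𝓞 L)ˣ, η ≠ su σ ε / ε := by
  have hc := card_places (K := K) (L := L) hdeg
  have hcK : 0 < Fintype.card (InfinitePlace K) := Fintype.card_pos
  have hfin := ord_sigma hσ hdeg
  have hs : sl σ ^ ℓ = 1 := by
    refine LinearMap.ext fun x => ?_
    rw [← ofMul_toMul x, sl_pow, ← hfin, pow_orderOf_eq_one]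
    apply congrArg
    apply unit_ext
    rw [su_coe]
    rfl
  have hA : Module.finrank ℤ (Additive (𝓞 L)ˣ) + 1 = ℓ * (Units.rank K + 1) := by
    rw [Units.finrank_eq]
    unfold Units.rank
    rw [hc]
    have : 0 < ℓ * Fintype.card (InfinitePlace K) := Nat.mul_pos hp.out.pos hcK
    rw [Nat.sub_add_cancel this, Nat.sub_add_cancel hcK]
  have hfix : Module.finrank ℤ (LinearMap.ker (sl σ - 1)) = Units.rank K := by
    rw [← LinearEquiv.finrank_eq (ufix hσ), Units.finrank_eq]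
  have : NeZero ℓ := ⟨hp.out.ne_zero⟩
  let C : Type := CyclotomicField ℓ ℚ
  have hC : IsCyclotomicExtension {ℓ} ℚ C := CyclotomicField.isCyclotomicExtension ℓ ℚ
  have hC2 : NumberField C := IsCyclotomicExtension.numberField {ℓ} ℚ C
  have hz : IsPrimitiveRoot (IsCyclotomicExtension.zeta ℓ ℚ C) ℓ :=
    IsCyclotomicExtension.zeta_spec ℓ ℚ C
  obtain ⟨ε, hε⟩ := IsCyclotomicExtension.Rat.associated_zeta_sub_one_pow_prime ℓ hz
  have hπ : (ℓ : 𝓞 C) = ε * (hz.toInteger - 1) ^ (ℓ - 1) := by rw [← hε, mul_comm]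
  obtain ⟨x, hx1, hx2⟩ := hilb92 (sl σ) hs hA hfix (card_roots hζ hσ hdeg) hπ
    (fun W _ t ht => exists_ringHom hz W t ht)
  refine ⟨x.toMul, ?_, fun ε h => hx2 (Additive.ofMul ε) ?_⟩
  · apply (algebraMap K L).injective
    rw [← prod_aut hσ hdeg, map_one]
    rw [LinearMap.sum_apply] at hx1
    have h1 : ∀ i ∈ Finset.range ℓ, (sl σ ^ i) x = Additive.ofMul (su (σ ^ i) x.toMul) :=
      fun i _ => sl_pow σ i x.toMul
    rw [Finset.sum_congr rfl h1] at hx1
    have h2 : ∏ i ∈ Finset.range ℓ, su (σ ^ i) x.toMul = 1 := hx1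
    have h3 := congrArg (fun u : (𝓞 L)ˣ => algebraMap (𝓞 L) L (u : 𝓞 L)) h2
    simp only [Units.coe_prod, map_prod, Units.val_one, map_one] at h3
    rw [← h3]
    exact Finset.prod_congr rfl fun i _ => (su_coe (σ ^ i) x.toMul).symm
  · change x.toMul = su σ ε / ε
    exact h

include hG hσ hdeg hζ in
theorem hilb94 (hcop : (classNumber K).Coprime ℓ)
    (hunr : ∀ v : HeightOneSpectrum (𝓞 K), ∃ w : HeightOneSpectrum (𝓞 L), ∀ x : K,
      w.valuation L (algebraMap K L x) = v.valuation K x) : False := by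
  classical
  obtain ⟨η, hη1, hη2⟩ := exists_rel_unit hζ hσ hdeg
  have hcyc : IsCyclic (L ≃ₐ[K] L) := ⟨σ, hσ⟩
  obtain ⟨α, hα0, hα⟩ := groupCohomology.exists_mul_galRestrict_of_norm_eq_one
    (A := 𝓞 K) (B := 𝓞 L) hσ (η := (η : 𝓞 L)) hη1
  have hαL : algebraMap (𝓞 L) L α ≠ 0 :=
    (map_ne_zero_iff _ (FaithfulSMul.algebraMap_injective (𝓞 L) L)).2 hα0
  have hα' : algebraMap (𝓞 L) L η * σ (algebraMap (𝓞 L) L α) = algebraMap (𝓞 L) L α := by
    rw [← algebraMap_galRestrict_apply (𝓞 K), ← map_mul, hα]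
  have hu : ∀ i : ℕ, ∃ u : (𝓞 L)ˣ, algebraMap (𝓞 L) L α =
      algebraMap (𝓞 L) L u * (σ ^ i) (algebraMap (𝓞 L) L α) := by
    intro i
    induction i with
    | zero => exact ⟨1, by simp⟩
    | succ i ih =>
      obtain ⟨u, hu⟩ := ih
      refine ⟨u * su (σ ^ i) η, ?_⟩
      have h1 := congrArg (σ ^ i) hα'
      rw [map_mul] at h1
      rw [Units.val_mul, map_mul, mul_assoc]
      have h2 : algebraMap (𝓞 L) L ((su (σ ^ i) η : (𝓞 L)ˣ) : 𝓞 L) =
        (σ ^ i) (algebraMap (𝓞 L) L η) := su_coe (σ ^ i) η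
      have h3 : (σ ^ (i + 1)) (algebraMap (𝓞 L) L α) =
          (σ ^ i) (σ (algebraMap (𝓞 L) L α)) := by
        rw [pow_succ]
        rfl
      rw [h2, h3, h1]
      exact hu
  choose u hu using hu
  set a : K := Algebra.norm K (algebraMap (𝓞 L) L α) with ha
  obtain ⟨E, hE⟩ : ∃ E : (𝓞 L)ˣ, algebraMap (𝓞 L) L α ^ ℓ =
      algebraMap (𝓞 L) L E * algebraMap K L a := by
    refine ⟨∏ i ∈ Finset.range ℓ, u i, ?_⟩
    rw [ha, ← prod_aut hσ hdeg, Units.coe_prod, map_prod, ← Finset.prod_mul_distrib]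
    rw [Finset.prod_congr rfl (fun i _ => (hu i).symm), Finset.prod_const, Finset.card_range]
  have ha0 : a ≠ 0 := by
    rw [ha]
    exact Algebra.norm_ne_zero_iff.2 hαL
  obtain ⟨v, k, hk0, hk⟩ := exists_unit_mul_pow hp.out.pos hcop a ha0 (by
    intro v
    obtain ⟨w, hw⟩ := hunr v
    refine ⟨w.valuation L (algebraMap (𝓞 L) L α), ?_⟩
    rw [← hw, ← map_pow, hE, map_mul, w.valuation_of_algebraMap (E : 𝓞 L), val_unit, one_mul])
  -- `α / k` is a unit
  have hkL : algebraMap K L k ≠ 0 := (_root_.map_ne_zero _).2 hk0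
  set y : L := algebraMap (𝓞 L) L α / algebraMap K L k with hy
  obtain ⟨F, hF⟩ : ∃ F : (𝓞 L)ˣ, y ^ ℓ = algebraMap (𝓞 L) L F := by
    refine ⟨E * Units.map (algebraMap (𝓞 K) (𝓞 L) : 𝓞 K →* 𝓞 L) v, ?_⟩
    have h1 : algebraMap (𝓞 L) L (((E * Units.map (algebraMap (𝓞 K) (𝓞 L) : 𝓞 K →* 𝓞 L) v :
        (𝓞 L)ˣ) : 𝓞 L)) = algebraMap (𝓞 L) L E * algebraMap K L (algebraMap (𝓞 K) K v) := by
      rw [Units.val_mul, map_mul, ← IsScalarTower.algebraMap_apply]
      change algebraMap (𝓞 L) L E * algebraMap (𝓞 L) L (algebraMap (𝓞 K) (𝓞 L) v) = _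
      rw [← IsScalarTower.algebraMap_apply]
    rw [h1, hy, div_pow, hE, hk, map_mul, map_pow]
    field_simp
  have i1 : IsIntegral ℤ y := by
    apply IsIntegral.of_pow hp.out.pos
    rw [hF]
    exact RingOfIntegers.isIntegral_coe _
  have hy0 : y ≠ 0 := div_ne_zero hαL hkL
  have i2 : IsIntegral ℤ y⁻¹ := by
    apply IsIntegral.of_pow hp.out.pos
    rw [inv_pow, hF]
    have h1 : (algebraMap (𝓞 L) L F)⁻¹ = algebraMap (𝓞 L) L ((F⁻¹ : (𝓞 L)ˣ) : 𝓞 L) := by
      rw [eq_comm, ← mul_eq_one_iff_eq_inv₀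
        (by rw [← hF]; exact pow_ne_zero _ hy0), ← map_mul, Units.inv_mul, map_one]
    rw [h1]
    exact RingOfIntegers.isIntegral_coe _
  let Y : (𝓞 L)ˣ := ⟨⟨y, i1⟩, ⟨y⁻¹, i2⟩, RingOfIntegers.ext (mul_inv_cancel₀ hy0),
    RingOfIntegers.ext (inv_mul_cancel₀ hy0)⟩
  apply hη2 Y⁻¹
  apply unit_ext
  have e1 : algebraMap (𝓞 L) L (((su σ Y⁻¹ / Y⁻¹ : (𝓞 L)ˣ) : 𝓞 L)) * σ y = y := by
    have h1 : su σ Y⁻¹ / Y⁻¹ = Y / su σ Y := by
      rw [map_inv, div_eq_mul_inv, inv_inv, div_eq_mul_inv, mul_comm]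
    have h2 : algebraMap (𝓞 L) L ((su σ Y : (𝓞 L)ˣ) : 𝓞 L) = σ y := su_coe σ Y
    rw [h1, ← h2, ← map_mul, ← Units.val_mul, div_mul_cancel]
    rfl
  have e2 : algebraMap (𝓞 L) L (η : 𝓞 L) * σ y = y := by
    rw [hy, map_div₀, σ.commutes, mul_div_assoc', hα']
  have hσy : σ y ≠ 0 := (map_ne_zero_iff σ σ.injective).2 hy0
  exact mul_right_cancel₀ hσy (e2.trans e1.symm)

end

end Pool.Agent.NH7.Hil
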