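import Pool.Agent.NH7.Sch.Val
import Pool.Agent.NH7.Sch.Hil

/-!
# Homomorphisms to `ℤ/p` which are trivial on all inertia groups
-/

set_option autoImplicit false
set_option linter.unusedSectionVars false

namespace Pool.Agent.NH7.Sch

open NumberField IsDedekindDomain Pool.Agent.W401.Cheb

variable {K : Type} [Field K] [NumberField K] {p : ℕ} [hp : Fact p.Prime]

section

variable {X : GK K → ZMod p} (hX : Continuous X) (hmul : ∀ g h, X (g * h) = X g + X h)

include hmul in
theorem Xpow (g : GK K) (n : ℕ) : X (g ^ n) = n * X g := by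
  induction n with
  | zero => rw [pow_zero, X_one hmul, Nat.cast_zero, zero_mul]
  | succ n ih => rw [pow_succ, hmul, ih]; push_cast; ring

include hmul in
theorem exists_X_one {g : GK K} (hg : X g ≠ 0) : ∃ σ, X σ = 1 := by
  refine ⟨g ^ ((X g)⁻¹).val, ?_⟩
  rw [Xpow hmul]
  simp only [ZMod.natCast_val, ZMod.cast_id', id_eq]
  exact inv_mul_cancel₀ hg

include hX in
theorem fld_cyc {g : GK K} (hg : X g = 1) [IsGalois K (fld hmul)] :
    (∀ τ : fld hmul ≃ₐ[K] fld hmul, τ ∈ Subgroup.zpowers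
      (AlgEquiv.restrictNormalHom (fld hmul) g)) ∧
    Nat.card (fld hmul ≃ₐ[K] fld hmul) = p := by
  set r := AlgEquiv.restrictNormalHom (F := K) (K₁ := AlgebraicClosure K) (fld hmul) with hr
  have hker : ∀ h : GK K, r h = 1 ↔ X h = 0 := by
    intro h
    rw [← mem_kerX hmul, ← fld_fix hX hmul, IntermediateField.mem_fixingSubgroup_iff]
    constructor
    · intro h1 x hx
      have h2 := AlgEquiv.restrictNormal_commutes h (fld hmul) ⟨x, hx⟩
      have h3 : h.restrictNormal (fld hmul) = 1 := h1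
      rw [h3] at h2
      exact h2.symm
    · intro h1
      ext x
      have h2 := AlgEquiv.restrictNormal_commutes h (fld hmul) x
      exact h2.trans (h1 x x.2)
  have hXp : ∀ k : ZMod p, X (g ^ k.val) = k := by
    intro k
    rw [Xpow hmul, hg, mul_one]
    simp
  have hsurj : Function.Surjective (fun k : ZMod p => r g ^ k.val) := by
    intro τ
    obtain ⟨h, rfl⟩ := AlgEquiv.restrictNormalHom_surjective (F := K) (K₁ := fld hmul)
      (AlgebraicClosure K) τ
    refine ⟨X h, ?_⟩
    have h1 : r ((g ^ (X h).val)⁻¹ * h) = 1 := by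
      rw [hker, hmul, X_inv hmul, hXp, neg_add_cancel]
    rw [map_mul, map_inv, inv_mul_eq_one, map_pow] at h1
    exact h1
  have hinj : Function.Injective (fun k : ZMod p => r g ^ k.val) := by
    intro k l hkl
    have h1 : r ((g ^ k.val)⁻¹ * g ^ l.val) = 1 := by
      rw [map_mul, map_inv, inv_mul_eq_one, map_pow, map_pow]
      exact hkl
    rw [hker, hmul, X_inv hmul, hXp, hXp, neg_add_eq_zero] at h1
    exact h1
  constructor
  · intro τ
    obtain ⟨k, rfl⟩ := hsurj τ
    exact Subgroup.pow_mem _ (Subgroup.mem_zpowers _) _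
  · rw [← Nat.card_eq_of_bijective _ ⟨hinj, hsurj⟩, Nat.card_zmod]

end

theorem exists_Q (v : HeightOneSpectrum (𝓞 K)) : ∃ Q : Ideal (OO K), Q.IsMaximal ∧
    Q.comap (algebraMap (𝓞 K) (OO K)) = v.asIdeal := by
  have hvm : v.asIdeal.IsMaximal := v.isMaximal
  obtain ⟨Q, hQm, hQv⟩ := Ideal.exists_ideal_over_maximal_of_isIntegral (S := (OO K)) v.asIdeal (by
    rw [(RingHom.injective_iff_ker_eq_bot _).1 (FaithfulSMul.algebraMap_injective (𝓞 K) (OO K))]
    exact bot_le)
  exact ⟨Q, hQm, hQv⟩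

/-- a homomorphism to `ℤ/p` which is trivial on all inertia groups is zero if `p` does not divide
the class number -/
theorem reg [IsTotallyComplex K] {ζ : K} (hζ : IsPrimitiveRoot ζ p)
    (hcop : (classNumber K).Coprime p) {X : GK K → ZMod p} (hX : Continuous X)
    (hmul : ∀ g h, X (g * h) = X g + X h)
    (hI : ∀ Q : Ideal (OO K), Q.IsMaximal → ∀ σ ∈ Inr Q, X σ = 0) (σ : GK K) : X σ = 0 := by
  by_contra hne
  obtain ⟨g, hg⟩ := exists_X_one hmul hne
  have hgal := fld_gal hX hmul
  have := fld_fin hX hmul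
  have hnf := NumberField.of_module_finite K (fld hmul)
  obtain ⟨h1, h2⟩ := fld_cyc hX hmul hg
  have hdeg : Module.finrank K (fld hmul) = p := by
    rw [← IsGalois.card_aut_eq_finrank, h2]
  refine Pool.Agent.NH7.Hil.hilb94 hζ h1 hdeg hcop fun v => ?_
  obtain ⟨Q, hQ, hQv⟩ := exists_Q v
  obtain ⟨w, -, hw⟩ := exists_place (fld hmul) hQ hQv
    (fun σ hσ x => fld_triv hmul (hI Q hQ σ hσ) x)
  exact ⟨w, hw⟩

end Pool.Agent.NH7.Sch
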