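import Pool.Agent.NH7.Sch.Chn
import Pool.Agent.NH7.Sch.Reg

/-!
# The condition on the character
-/

set_option autoImplicit false
set_option linter.unusedSectionVars false

namespace Pool.Agent.NH7.Sch

open NumberField IsDedekindDomain Pool.Agent.W401.Cheb WithZero Filter Topology

variable {K : Type} [Field K] [NumberField K] {p : ℕ} [hp : Fact p.Prime] {ζ : K}
  (hζ : IsPrimitiveRoot ζ p)

theorem frob_mem_Dec {v : HeightOneSpectrum (𝓞 K)} {Q : Ideal (OO K)} (hQ : Q.IsMaximal)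
    {φ : GK K} (h : ∀ x : OO K, φ • x - x ^ Ideal.absNorm v.asIdeal ∈ Q) : φ ∈ Dec Q := by
  intro x
  constructor
  · intro hx
    have h1 := Q.add_mem (h x) (Q.pow_mem_of_mem hx (Ideal.absNorm v.asIdeal)
      (Nat.pos_of_ne_zero (Ideal.absNorm_ne_zero_iff _ |>.2 (Ideal.finiteQuotientOfFreeOfNeBot _ v.ne_bot))))
    rwa [sub_add_cancel] at h1
  · intro hx
    have h1 := Q.sub_mem hx (h x)
    rw [sub_sub_cancel] at h1
    exact hQ.isPrime.mem_of_pow_mem _ h1

/-- an element of `K` up to a `p`-th power is integral -/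
theorem exists_int (κ : Kˣ) : ∃ (x : 𝓞 K) (hx : x ≠ 0) (s : Kˣ), κ * s ^ p = ui x hx := by
  obtain ⟨a, b, hb, hab⟩ := IsFractionRing.div_surjective (A := 𝓞 K) (κ : K)
  have hb0 : b ≠ 0 := nonZeroDivisors.ne_zero hb
  have hbK : algebraMap (𝓞 K) K b ≠ 0 :=
    (map_ne_zero_iff _ (FaithfulSMul.algebraMap_injective (𝓞 K) K)).2 hb0
  have ha0 : a ≠ 0 := by
    rintro rfl
    rw [map_zero, zero_div] at hab
    exact κ.ne_zero hab.symm
  refine ⟨a * b ^ (p - 1), mul_ne_zero ha0 (pow_ne_zero _ hb0), ui b hb0, ?_⟩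
  apply Units.ext
  rw [Units.val_mul, Units.val_pow_eq_pow_val, coe_ui, coe_ui, ← hab, map_mul, map_pow]
  have e : p = (p - 1) + 1 := by have := hp.out.pos; omega
  conv_lhs => rw [e, pow_succ]
  field_simp

variable {a : ℕ} (ha : 0 < a) (h2 : 2 < p ^ a) {ζa : K}
  (hζa : IsPrimitiveRoot ζa (p ^ a)) {l : HeightOneSpectrum (𝓞 K)}
  (hcop : (classNumber K).Coprime p) (hl : ∀ v : HeightOneSpectrum (𝓞 K),
  (p : 𝓞 K) ∈ v.asIdeal → v = l) (hlp : (p : 𝓞 K) ∈ l.asIdeal)

/-- the element whose root generates the extension -/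
noncomputable def kap (q : ℕ → HeightOneSpectrum (𝓞 K)) (m : ℕ) : Kˣ :=
  ∏ j ∈ Finset.range m, gg (q j)

section

variable {B : Set (HeightOneSpectrum (𝓞 K))} {q : ℕ → HeightOneSpectrum (𝓞 K)}
    {Q : ℕ → Ideal (OO K)} {φ : ℕ → GK K} {m : ℕ} (hG : ∀ j < m, Good hζ l a B q Q φ j)

include hG in
theorem q_inj {i j : ℕ} (hi : i < m) (hj : j < m) (h : i ≠ j) : q i ≠ q j := by
  rcases lt_or_gt_of_ne h with h | h
  · exact (hG j hj).hne i h
  · exact ((hG i hi).hne j h).symm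

include hG in
theorem od_kap_self {j : ℕ} (hj : j < m) : od (q j) (kap q m) = -(hh K : ℤ) := by
  rw [kap, od_prod, Finset.sum_eq_single j]
  · exact od_gg_self _
  · intro i hi hij
    exact od_gg_ne (q_inj hζ hG hj (Finset.mem_range.1 hi) hij.symm)
  · intro h
    exact absurd (Finset.mem_range.2 hj) h

theorem od_kap_ne {v : HeightOneSpectrum (𝓞 K)} (hv : ∀ j < m, v ≠ q j) : od v (kap q m) = 0 := by
  rw [kap, od_prod]
  exact Finset.sum_eq_zero fun i hi => od_gg_ne (hv i (Finset.mem_range.1 hi))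

include hcop in
theorem not_dvd_hh : ¬ (p : ℤ) ∣ -(hh K : ℤ) := by
  rw [dvd_neg]
  intro h
  have h2 : p ∣ hh K := by exact_mod_cast h
  exact hh_ne hcop ((ZMod.natCast_eq_zero_iff _ _).2 h2)

include hG hcop in
theorem kap_ram {j : ℕ} (hj : j < m) : ∃ x ∈ Inr (Q j), kp hζ (kap q m) x ≠ 0 := by
  by_contra hcon
  push Not at hcon
  have h1 := od_dvd_of_inr hζ (hG j hj).hQ (hG j hj).hQq hcon
  rw [od_kap_self hζ hG hj] at h1
  exact not_dvd_hh hcop h1

include hG hcop hl in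
/-- the descent along the chain -/
theorem descent {κ : Kˣ} {c : ℕ → ZMod p} {b : ZMod p}
    (hm : ∀ j, j + 1 = m → c j = b)
    (hE : ∀ j < m, ∀ g ∈ Dec (Q j), kp hζ κ g = (c j - b) * kp hζ (kap q m) g)
    (h0 : ∀ v, v ≠ l → (∀ i < m, v ≠ q i) → (p : ℤ) ∣ od v κ) (d : ℕ) (hd : d ≤ m) :
    (∀ v, v ≠ l → (∀ i < m - d, v ≠ q i) → (p : ℤ) ∣ od v κ) ∧
      (∀ j, j + d = m → j < m → kp hζ κ (φ j) = 0) := by
  induction d with
  | zero => exact ⟨h0, fun j h1 h2 => by omega⟩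
  | succ d ih =>
    obtain ⟨ih1, ih2⟩ := ih (by omega)
    obtain ⟨k, hk⟩ : ∃ k, m = k + d + 1 := ⟨m - d - 1, by omega⟩
    have hkm : k < m := by omega
    have hmd : m - d = k + 1 := by omega
    have hmd' : m - (d + 1) = k := by omega
    rw [hmd] at ih1
    have hGk := hG k hkm
    -- the order at `q k`
    have hord : (p : ℤ) ∣ od (q k) κ := by
      rcases Nat.eq_zero_or_pos d with hd0 | hd0
      · have hck : c k = b := hm k (by omega)
        refine od_dvd_of_inr hζ hGk.hQ hGk.hQq fun σ hσ => ?_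
        rw [hE k hkm σ (Inr_le _ hσ), hck, sub_self, zero_mul]
      · have hGk1 := hG (k + 1) (by omega)
        have hφ0 : kp hζ κ (φ (k + 1)) = 0 := ih2 (k + 1) (by omega) (by omega)
        set t : ℕ := ((od (q k) κ : ZMod p) * (hh K : ZMod p)⁻¹).val with ht
        obtain ⟨h1, h2, h3⟩ := hGk1.h1 k rfl
        have h4 : kp hζ (κ * gg (q k) ^ t) (φ (k + 1)) = 0 := by
          refine h3 _ fun v hv hvk => ?_
          rw [od_mul, od_pow]
          by_cases hvq : v = q k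
          · rw [hvq, od_gg_self, ← ZMod.intCast_zmod_eq_zero_iff_dvd]
            push_cast
            rw [ht]
            simp only [ZMod.natCast_val, ZMod.cast_id', id_eq]
            rw [mul_neg, mul_assoc, inv_mul_cancel₀ (hh_ne hcop), mul_one, add_neg_cancel]
          · rw [od_gg_ne hvq, mul_zero, add_zero]
            refine ih1 v hv fun i hi => ?_
            rcases Nat.lt_succ_iff_lt_or_eq.1 hi with hi | rfl
            · exact hvk i hi
            · exact hvq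
        rw [kp_mul_left, hφ0, zero_add, kp_pow] at h4
        have h5 := (mul_eq_zero.1 h4).resolve_right h2
        rw [ht] at h5
        simp only [ZMod.natCast_val, ZMod.cast_id', id_eq] at h5
        have h6 := (mul_eq_zero.1 h5).resolve_right (inv_ne_zero (hh_ne hcop))
        exact (ZMod.intCast_zmod_eq_zero_iff_dvd _ _).1 h6
    -- the ratio at `q k`
    have hck : c k - b = 0 := by
      obtain ⟨x, hx, hx0⟩ := kap_ram hζ hcop hG hkm
      have h1 := hE k hkm x (Inr_le _ hx)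
      rw [kp_inr_zero hζ hGk.hQ hGk.hQq (not_mem_Q hGk.hQq (not_mem_of_ne l hl hGk.hl)) hord hx]
        at h1
      exact (mul_eq_zero.1 h1.symm).resolve_right hx0
    refine ⟨fun v hv hvi => ?_, fun j hj hjm => ?_⟩
    · rw [hmd'] at hvi
      by_cases hvq : v = q k
      · rw [hvq]
        exact hord
      · refine ih1 v hv fun i hi => ?_
        rcases Nat.lt_succ_iff_lt_or_eq.1 hi with hi | rfl
        · exact hvi i hi
        · exact hvq
    · have hjk : j = k := by omega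
      subst hjk
      rw [hE j hkm _ (frob_mem_Dec hGk.hQ hGk.hφ), hck, zero_mul]

/-- the integral element whose root generates the extension -/
noncomputable def kai (q : ℕ → HeightOneSpectrum (𝓞 K)) (m : ℕ) : 𝓞 K :=
  ∏ j ∈ Finset.range m, gi (q j)

theorem kai_ne : kai q m ≠ 0 := Finset.prod_ne_zero_iff.2 fun j _ => gi_ne (q j)

theorem kap_eq : kap q m = ui (kai q m) kai_ne := by
  apply Units.ext
  rw [coe_ui, kai, map_prod, kap, Units.coe_prod]
  rfl

include hG ha hζa hl in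
/-- the norm of the element -/
theorem nc_kai (hm : 0 < m) :
    ((nc p (Ideal.span {kai q m}) : ℕ) : ZMod (p ^ (a + 1))) =
      ((Ideal.absNorm (q 0).asIdeal : ℕ) : ZMod (p ^ (a + 1))) ^ hh K ∧
    ((Ideal.absNorm (q 0).asIdeal : ℕ) : ZMod (p ^ (a + 1))) ≠ 1 ∧
    ((Ideal.absNorm (q 0).asIdeal : ℕ) : ZMod (p ^ (a + 1))) ^ p = 1 := by
  have hC1 : ∀ j < m, (C1 p (a + 1) (φ j) ↔
      ((Ideal.absNorm (q j).asIdeal : ℕ) : ZMod (p ^ (a + 1))) = 1) := by
    intro j hj
    have hGj := hG j hj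
    have h1 := Pool.Agent.Y802.chi_frob' (p := p) hGj.hQ.isPrime
      (not_mem_Q hGj.hQq (not_mem_of_ne l hl hGj.hl)) hGj.hφ
    rw [C1, h1, ← toZModPow_one_iff, map_natCast]
  have hnc : ∀ j < m, nc p (Ideal.span {gi (q j)}) = Ideal.absNorm (q j).asIdeal ^ hh K := by
    intro j hj
    rw [nc_gi, nc_below (not_mem_of_ne l hl (hG j hj).hl)]
  have h0 := hG 0 hm
  refine ⟨?_, ?_, ?_⟩
  · have h1 : ∀ n ≤ m, 0 < n → ((nc p (Ideal.span {kai q n}) : ℕ) : ZMod (p ^ (a + 1))) =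
      ((Ideal.absNorm (q 0).asIdeal : ℕ) : ZMod (p ^ (a + 1))) ^ hh K := by
      intro n hn hn0
      induction n with
      | zero => omega
      | succ n ih =>
        rcases Nat.eq_zero_or_pos n with rfl | hn1
        · rw [kai, Finset.prod_range_one, hnc 0 hm]
          push_cast
          rfl
        · have h3 : kai q (n + 1) = kai q n * gi (q n) := Finset.prod_range_succ _ _
          rw [h3, nc_span_mul, Nat.cast_mul, ih (by omega) hn1, hnc n (by omega)]
          push_cast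
          obtain ⟨k, rfl⟩ : ∃ k, n = k + 1 := ⟨n - 1, by omega⟩
          rw [(hC1 (k + 1) (by omega)).1 ((hG (k + 1) (by omega)).h1 k rfl).1, one_pow, mul_one]
    exact h1 m le_rfl hm
  · exact fun h => h0.h0 rfl ((hC1 0 hm).2 h)
  · have h1 := pow_mod' ha (norm_mod hζa (not_mem_of_ne l hl h0.hl))
    push_cast at h1
    exact h1

theorem eq_one_of_pow {M : Type} [Monoid M] {x : M} (h1 : x ^ p = 1) {n : ℕ} (h2 : x ^ n = 1)
    (hx : x ≠ 1) : p ∣ n := by
  have h3 : orderOf x = p := orderOf_eq_prime h1 hx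
  rw [← h3]
  exact orderOf_dvd_of_pow_eq_one h2

include hG hcop hl hlp ha h2 hζa in
/-- the condition -/
theorem cond [IsTotallyComplex K] (hm : 0 < m) {Q₀ : Ideal (OO K)} (hQ₀ : Q₀.IsMaximal)
    (hQ₀l : Q₀.comap (algebraMap (𝓞 K) (OO K)) = l.asIdeal) {X : GK K → ZMod p}
    (hX : Continuous X) (hmul : ∀ g h, X (g * h) = X g + X h) (hD : ∀ g ∈ Dec Q₀, X g = 0)
    (hI : ∀ Q : Ideal (OO K), Q.IsMaximal → (p : OO K) ∉ Q →
      (∀ x ∈ Inr Q, kp hζ (kap q m) x = 0) → ∀ x ∈ Inr Q, X x = 0)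
    (hE : ∀ Q : Ideal (OO K), Q.IsMaximal → (p : OO K) ∉ Q →
      (∃ x ∈ Inr Q, kp hζ (kap q m) x ≠ 0) → ∃ c : ZMod p, ∀ g ∈ Dec Q,
        X g = c * kp hζ (kap q m) g) (g : GK K) : X g = 0 := by
  classical
  obtain ⟨κX, hκX⟩ := kp_surj hζ hX hmul
  have hE1 : ∀ j, ∃ c : ZMod p, j < m → ∀ g ∈ Dec (Q j), X g = c * kp hζ (kap q m) g := by
    intro j
    by_cases hj : j < m
    · obtain ⟨c, hc⟩ := hE (Q j) (hG j hj).hQ
        (not_mem_Q (hG j hj).hQq (not_mem_of_ne l hl (hG j hj).hl)) (kap_ram hζ hcop hG hj)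
      exact ⟨c, fun _ => hc⟩
    · exact ⟨0, fun h => absurd h hj⟩
  choose c hc using hE1
  set b := c (m - 1) with hb
  set κ : Kˣ := κX * (kap q m ^ b.val)⁻¹ with hκ
  have hbv : ((b.val : ℕ) : ZMod p) = b := by simp
  have hkκ : ∀ g, kp hζ κ g = X g - b * kp hζ (kap q m) g := by
    intro g
    rw [hκ, kp_mul_left, kp_inv_left, kp_pow, hκX, hbv, sub_eq_add_neg]
  have h0 : ∀ v, v ≠ l → (∀ i < m, v ≠ q i) → (p : ℤ) ∣ od v κ := by
    intro v hv hvi
    obtain ⟨R, hR, hRv⟩ := exists_Q v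
    have hpR : (p : OO K) ∉ R := not_mem_Q hRv (not_mem_of_ne l hl hv)
    rw [hκ, od_mul, od_inv, od_pow, od_kap_ne hvi, mul_zero, neg_zero, add_zero]
    refine od_dvd_of_inr hζ hR hRv fun σ hσ => ?_
    rw [hκX]
    refine hI R hR hpR (fun x hx => ?_) σ hσ
    refine kp_inr_zero hζ hR hRv hpR ?_ hx
    rw [od_kap_ne hvi]
    exact dvd_zero _
  obtain ⟨h3, -⟩ := descent hζ hcop hl hG (κ := κ) (c := c) (b := b)
    (fun j hj => by rw [hb]; congr 1; omega)
    (fun j hj g hg => by rw [hkκ, hc j hj g hg]; ring) h0 m le_rfl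
  have h4 : ∀ v, v ≠ l → (p : ℤ) ∣ od v κ := fun v hv => h3 v hv fun i hi => by omega
  -- the coefficient is zero
  have hb0 : b = 0 := by
    obtain ⟨x, hx, s, hxs⟩ := exists_int (p := p) κ
    have h5 : ∀ v : HeightOneSpectrum (𝓞 K), v ≠ l → (p : ℤ) ∣ od v (ui x hx) := by
      intro v hv
      rw [← hxs, od_mul, od_pow]
      exact dvd_add (h4 v hv) (dvd_mul_right _ _)
    have h6 := nu_unr (p := p) ha hζa hlp hcop hx h5
    have hy : x * kai q m ^ b.val ≠ 0 := mul_ne_zero hx (pow_ne_zero _ kai_ne)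
    have h7 := nu_dec hζ ha h2 hζa hl hlp hQ₀ hQ₀l hy (fun σ hσ => by
      rw [← ui_mul x _ hx (pow_ne_zero _ kai_ne), ← ui_pow _ kai_ne, ← kap_eq, kp_mul_left,
        kp_pow, ← hxs, kp_mul_left, kp_ppow, add_zero, hkκ, hbv, sub_add_cancel, hD σ hσ])
    obtain ⟨h8, h9, h10⟩ := nc_kai hζ ha hζa hl hG hm
    rw [nc_span_mul, nc_span_pow, Nat.cast_mul, Nat.cast_pow, h6, h8, one_mul, ← pow_mul,
      ← pow_mul] at h7
    have h11 := eq_one_of_pow h10 h7 h9
    have h12 : ¬ p ∣ hh K := fun h => hh_ne hcop ((ZMod.natCast_eq_zero_iff _ _).2 h)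
    rw [hp.out.dvd_mul, hp.out.dvd_mul] at h11
    rcases h11 with h11 | h11 | h11
    · exact absurd h11 h12
    · rw [← hbv]
      exact (ZMod.natCast_eq_zero_iff _ _).2 h11
    · exact absurd h11 h12
  have hkX : ∀ g, kp hζ κ g = X g := by
    intro g
    rw [hkκ, hb0, zero_mul, sub_zero]
  refine reg hζ hcop hX hmul (fun R hR σ hσ => ?_) g
  by_cases hpR : (p : OO K) ∈ R
  · -- conjugate of `Q₀`
    have hRl : R.comap (algebraMap (𝓞 K) (OO K)) = l.asIdeal := by
      have hRm : (R.comap (algebraMap (𝓞 K) (OO K))).IsMaximal :=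
        Ideal.isMaximal_comap_of_isIntegral_of_isMaximal R
      let w : HeightOneSpectrum (𝓞 K) :=
        ⟨R.comap (algebraMap (𝓞 K) (OO K)), hRm.isPrime, Ideal.IsMaximal.ne_bot_of_isIntegral_int _⟩
      have hw : w = l := hl w (by
        change (p : 𝓞 K) ∈ R.comap (algebraMap (𝓞 K) (OO K))
        rw [Ideal.mem_comap, map_natCast]
        exact hpR)
      rw [← hw]
    obtain ⟨τ, hτ⟩ := Pool.Agent.W352.ChAbs.exists_smul R Q₀ (hRl.trans hQ₀l.symm)
    have h5 : τ * σ * τ⁻¹ ∈ Inr Q₀ := by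
      intro y
      have h6 := (hτ _).1 (hσ (τ⁻¹ • y))
      rw [smul_sub, smul_inv_smul, ← mul_smul, ← mul_smul] at h6
      exact h6
    have h6 := hD _ (Inr_le _ h5)
    rw [hmul, hmul, X_inv hmul] at h6
    have e : X τ + X σ + -X τ = X σ := by ring
    rw [e] at h6
    exact h6
  · have hRm : (R.comap (algebraMap (𝓞 K) (OO K))).IsMaximal :=
      Ideal.isMaximal_comap_of_isIntegral_of_isMaximal R
    let w : HeightOneSpectrum (𝓞 K) :=
      ⟨R.comap (algebraMap (𝓞 K) (OO K)), hRm.isPrime, Ideal.IsMaximal.ne_bot_of_isIntegral_int _⟩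
    have hw : w ≠ l := by
      intro h
      apply hpR
      rw [← h] at hlp
      have h5 : (p : 𝓞 K) ∈ R.comap (algebraMap (𝓞 K) (OO K)) := hlp
      rw [Ideal.mem_comap, map_natCast] at h5
      exact h5
    rw [← hkX]
    exact kp_inr_zero hζ (v := w) hR rfl hpR (h4 w hw) hσ

end

end Pool.Agent.NH7.Sch
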