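import Pool.Agent.NH7.Sch.Kumn

/-!
# Schneider's conjecture for cyclic extensions: the main theorem
-/

set_option autoImplicit false
set_option linter.unusedSectionVars false

namespace Pool.Agent.NH7.Sch

open NumberField IsDedekindDomain Pool.Agent.W401.Cheb WithZero Filter Topology
open Pool.Agent.NH7.Abs (Base Cond SetupN M sat div_zero c1 H mem_H)

variable {K : Type} [Field K] [NumberField K] {p : ℕ} [hp : Fact p.Prime]

/-- a power of the cyclotomic character -/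
noncomputable def psi (K : Type) [Field K] (p : ℕ) [Fact p.Prime] (r : ℤ) : GK K →* ℤ_[p]ˣ :=
  (zpowGroupHom r).comp (Pool.Agent.Y802.chi K p)

theorem psi_apply (r : ℤ) (g : GK K) : psi K p r g = Pool.Agent.Y802.chi K p g ^ r := rfl

theorem psi_C1 {n : ℕ} (r : ℤ) {g : GK K} (hg : C1 p n g) :
    (p : ℤ_[p]) ^ n ∣ ((psi K p r g : ℤ_[p]ˣ) : ℤ_[p]) - 1 := by
  rw [C1_iff] at hg
  have h1 : Units.map (PadicInt.toZModPow n : ℤ_[p] →+* ZMod (p ^ n)).toMonoidHom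
      (psi K p r g) = 1 := by
    rw [psi_apply, map_zpow, hg, one_zpow]
  rw [← toZModPow_one_iff]
  exact congrArg Units.val h1

theorem psi_inr {Q : Ideal (OO K)} (hQ : Q.IsMaximal) (hpQ : (p : OO K) ∉ Q) {σ : GK K}
    (hσ : σ ∈ Inr Q) (r : ℤ) : psi K p r σ = 1 := by
  rw [psi_apply, chi_inr hQ hpQ hσ, one_zpow]

theorem comap_of_mem {l : HeightOneSpectrum (𝓞 K)}
    (hl : ∀ v : HeightOneSpectrum (𝓞 K), (p : 𝓞 K) ∈ v.asIdeal → v = l) {R : Ideal (OO K)}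
    (hR : R.IsMaximal) (hpR : (p : OO K) ∈ R) :
    R.comap (algebraMap (𝓞 K) (OO K)) = l.asIdeal := by
  have hRm : (R.comap (algebraMap (𝓞 K) (OO K))).IsMaximal :=
    Ideal.isMaximal_comap_of_isIntegral_of_isMaximal R
  let w : HeightOneSpectrum (𝓞 K) :=
    ⟨R.comap (algebraMap (𝓞 K) (OO K)), hRm.isPrime, Ideal.IsMaximal.ne_bot_of_isIntegral_int _⟩
  have hw : w = l := hl w (by
    change (p : 𝓞 K) ∈ R.comap (algebraMap (𝓞 K) (OO K))
    rw [Ideal.mem_comap, map_natCast]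
    exact hpR)
  rw [← hw]

theorem inr_above {l : HeightOneSpectrum (𝓞 K)}
    (hl : ∀ v : HeightOneSpectrum (𝓞 K), (p : 𝓞 K) ∈ v.asIdeal → v = l) {Q₀ : Ideal (OO K)}
    (hQ₀ : Q₀.IsMaximal) (hQ₀l : Q₀.comap (algebraMap (𝓞 K) (OO K)) = l.asIdeal)
    {X : GK K → ZMod p} (hmul : ∀ g h, X (g * h) = X g + X h) (hD : ∀ g ∈ Dec Q₀, X g = 0)
    {R : Ideal (OO K)} (hR : R.IsMaximal) (hpR : (p : OO K) ∈ R) {σ : GK K} (hσ : σ ∈ Inr R) :
    X σ = 0 := by
  obtain ⟨τ, hτ⟩ := Pool.Agent.W352.ChAbs.exists_smul R Q₀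
    ((comap_of_mem hl hR hpR).trans hQ₀l.symm)
  have h5 : τ * σ * τ⁻¹ ∈ Inr Q₀ := by
    intro y
    have h6 := (hτ _).1 (hσ (τ⁻¹ • y))
    rw [smul_sub, smul_inv_smul, ← mul_smul, ← mul_smul] at h6
    exact h6
  have h6 := hD _ (Inr_le _ h5)
  rw [hmul, hmul, X_inv hmul] at h6
  have e : X τ + X σ + -X τ = X σ := by ring
  rw [e] at h6
  exact h6

/-- the maximal ideals which do not contain `p` -/
abbrev Away (K : Type) [Field K] (p : ℕ) : Type :=
  {Q : Ideal (OO K) // Q.IsMaximal ∧ (p : OO K) ∉ Q}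

/-- the vanishing over the ground field -/
theorem base [IsTotallyComplex K] {ζ : K} (hζ : IsPrimitiveRoot ζ p)
    (hcop : (classNumber K).Coprime p) {l : HeightOneSpectrum (𝓞 K)}
    (hl : ∀ v : HeightOneSpectrum (𝓞 K), (p : 𝓞 K) ∈ v.asIdeal → v = l) {Q₀ : Ideal (OO K)}
    (hQ₀ : Q₀.IsMaximal) (hQ₀l : Q₀.comap (algebraMap (𝓞 K) (OO K)) = l.asIdeal) (r : ℤ) :
    Base (psi K p r) (Dec Q₀) (fun Q : Away K p => Inr Q.1) := by
  have hζ' : IsPrimitiveRoot ζ (p ^ 1) := by rw [pow_one]; exact hζ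
  have hψ : ∀ g : GK K, PadicInt.toZMod ((psi K p r g : ℤ_[p]ˣ) : ℤ_[p]) = 1 := by
    intro g
    rw [← map_one (PadicInt.toZMod : ℤ_[p] →+* ZMod p), Pool.Agent.NH7.Abs.toZMod_eq]
    have h := psi_C1 (p := p) r (chi_one hζ' g)
    rwa [pow_one] at h
  have key : ∀ c ∈ M (psi K p r) (fun _ : GK K => (0 : ZMod p)) (Dec Q₀)
      (fun Q : Away K p => Inr Q.1), ∃ d ∈ M (psi K p r) (fun _ : GK K => (0 : ZMod p)) (Dec Q₀)
      (fun Q : Away K p => Inr Q.1), c = (p : ℤ_[p]) • d := by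
    intro c hc
    refine sat hc fun g => ?_
    obtain ⟨h1, h2, -, h4, h5⟩ := hc
    rw [← Pool.Agent.NH7.Abs.toZMod_eq_zero]
    have hmul : ∀ g h, PadicInt.toZMod (c (g * h)) = PadicInt.toZMod (c g) +
        PadicInt.toZMod (c h) := by
      intro g h
      rw [h2 g h rfl rfl, map_add, map_mul, hψ, one_mul]
    refine reg hζ hcop (X := fun g => PadicInt.toZMod (c g))
      (Pool.Agent.NH7.Abs.continuous_toZMod.comp h1) hmul (fun R hR σ hσ => ?_) g
    by_cases hpR : (p : OO K) ∈ R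
    · exact inr_above hl hQ₀ hQ₀l (X := fun g => PadicInt.toZMod (c g)) hmul
        (fun g hg => by rw [h4 g hg rfl, map_zero]) hR hpR hσ
    · rw [h5 ⟨R, hR, hpR⟩ σ hσ rfl, map_zero]
  intro c h1 h2 h3 h4
  exact div_zero key (c := c) ⟨h1, fun g h _ _ => h2 g h, fun g hg => absurd rfl hg,
    fun g hg _ => h3 g hg, fun i x hx _ => h4 i x hx⟩

theorem Inr_mv {Q : Ideal (OO K)} (g x : GK K) : x ∈ Inr Q ↔ g * x * g⁻¹ ∈ Inr (mv g Q) := by
  constructor
  · exact Inr_conj g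
  · intro h y
    have h1 := h (g • y)
    rw [mem_mv, smul_sub, ← mul_smul, inv_smul_smul] at h1
    have e : g⁻¹ * (g * x * g⁻¹) * g = x := by group
    rw [← mul_smul, e] at h1
    exact h1

theorem Dec_mv {Q : Ideal (OO K)} (g x : GK K) : x ∈ Dec Q ↔ g * x * g⁻¹ ∈ Dec (mv g Q) := by
  rw [mem_Dec, mem_Dec]
  constructor
  · intro h y
    rw [mem_mv, mem_mv, h, ← mul_smul, ← mul_smul]
    have e : g⁻¹ * (g * x * g⁻¹) = x * g⁻¹ := by group
    rw [e]
  · intro h y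
    have h1 := h (g • y)
    rw [mem_mv, mem_mv, inv_smul_smul, ← mul_smul, ← mul_smul] at h1
    have e : g⁻¹ * (g * x * g⁻¹) * g = x := by group
    rw [e] at h1
    exact h1

/-- `v` ramifies in `L` -/
def Ram (L : IntermediateField K (AlgebraicClosure K)) (v : HeightOneSpectrum (𝓞 K)) : Prop :=
  ∃ Q : Ideal (OO K), Q.IsMaximal ∧ Q.comap (algebraMap (𝓞 K) (OO K)) = v.asIdeal ∧
    ∃ σ ∈ Inr Q, ∃ x ∈ L, σ x ≠ x

/-- the vanishing of the Tate–Shafarevich group -/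
def Van (p : ℕ) [Fact p.Prime] (L : IntermediateField K (AlgebraicClosure K)) (r : ℤ) : Prop :=
  ∀ c : L.fixingSubgroup → ℤ_[p], Continuous c →
    (∀ σ τ, c (σ * τ) = c σ + ((psi K p r σ : ℤ_[p]ˣ) : ℤ_[p]) * c τ) →
    (∀ Q : Ideal (OO K), Q.IsMaximal → (p : OO K) ∉ Q →
      ∀ σ : L.fixingSubgroup, (σ : GK K) ∈ Inr Q → c σ = 0) →
    (∀ Q : Ideal (OO K), Q.IsMaximal → (p : OO K) ∈ Q → ∃ z : ℤ_[p],
      ∀ σ : L.fixingSubgroup, (σ : GK K) ∈ Dec Q →
        c σ = (((psi K p r σ : ℤ_[p]ˣ) : ℤ_[p]) - 1) * z) →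
    ∃ z : ℤ_[p], ∀ σ : L.fixingSubgroup, c σ = (((psi K p r σ : ℤ_[p]ˣ) : ℤ_[p]) - 1) * z

theorem exists_a {N : ℕ} (hN : ∃ z : K, IsPrimitiveRoot z (p ^ N)) :
    ∃ a, N ≤ a ∧ (∃ z : K, IsPrimitiveRoot z (p ^ a)) ∧
      ∀ z : K, ¬ IsPrimitiveRoot z (p ^ (a + 1)) := by
  classical
  have hbd : ∀ k, (∃ z : K, IsPrimitiveRoot z (p ^ k)) → k ≤ Units.torsionOrder K := by
    rintro k ⟨z, hz⟩
    have : NeZero (p ^ k) := ⟨pow_ne_zero _ hp.out.ne_zero⟩
    have h1 := NumberField.Units.dvd_torsionOrder_of_isPrimitiveRoot hz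
    have h2 := Nat.le_of_dvd (Units.torsionOrder_pos K) h1
    exact (Nat.lt_pow_self hp.out.one_lt).le.trans h2
  set a := Nat.findGreatest (fun k => ∃ z : K, IsPrimitiveRoot z (p ^ k)) (Units.torsionOrder K)
    with ha
  have h1 : N ≤ a := Nat.le_findGreatest (hbd N hN) hN
  refine ⟨a, h1, Nat.findGreatest_spec (P := fun k => ∃ z : K, IsPrimitiveRoot z (p ^ k))
    (hbd N hN) hN, fun z hz => ?_⟩
  have h2 : a + 1 ≤ a := Nat.le_findGreatest (hbd (a + 1) ⟨z, hz⟩) ⟨z, hz⟩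
  omega

theorem main {n : ℕ} (hn : 0 < n) (hz : ∃ z : K, IsPrimitiveRoot z (p ^ n))
    (h4 : p = 2 → ∃ i : K, i ^ 2 = -1) {l : HeightOneSpectrum (𝓞 K)}
    (hl : ∀ v : HeightOneSpectrum (𝓞 K), (p : 𝓞 K) ∈ v.asIdeal → v = l)
    (hlp : (p : 𝓞 K) ∈ l.asIdeal) (hcop : (classNumber K).Coprime p) {m : ℕ} (hm : 0 < m)
    {B : Set (HeightOneSpectrum (𝓞 K))} (hB : B.Finite) :
    ∃ L : IntermediateField K (AlgebraicClosure K), IsGalois K L ∧ IsCyclic (L ≃ₐ[K] L) ∧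
      Module.finrank K L = p ^ n ∧
      {v : HeightOneSpectrum (𝓞 K) | (p : 𝓞 K) ∉ v.asIdeal ∧ Ram L v}.ncard = m ∧
      (∀ v ∈ B, (p : 𝓞 K) ∉ v.asIdeal → ¬ Ram L v) ∧ ∀ r : ℤ, Van p L r := by
  classical
  obtain ⟨z, hz⟩ := hz
  have hζ := prim_p hz hn
  set ζ := z ^ p ^ (n - 1) with hζd
  -- the largest root of unity
  obtain ⟨a, hna, ⟨ζa, hζa⟩, hmax⟩ := exists_a (K := K) (p := p) ⟨z, hz⟩
  have ha : 0 < a := by omega
  have h2 : 2 < p ^ a := by
    rcases hp.out.eq_two_or_odd' with h | h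
    · subst h
      obtain ⟨i, hi⟩ := h4 rfl
      have hi4 : IsPrimitiveRoot i (2 ^ 2) := by
        have h5 : i ^ 2 ^ 1 ≠ 1 := by
          rw [pow_one, hi]
          norm_num
        have h6 : i ^ 2 ^ (1 + 1) = 1 := by
          have : i ^ 2 ^ (1 + 1) = (i ^ 2) ^ 2 := by ring
          rw [this, hi]
          norm_num
        have h7 := orderOf_eq_prime_pow h5 h6
        rw [← h7]
        exact IsPrimitiveRoot.orderOf i
      have h5 : 2 ≤ a := by
        by_contra hcon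
        push Not at hcon
        have h6 : a = 1 := by omega
        subst h6
        exact hmax i hi4
      calc 2 < 2 ^ 2 := by norm_num
        _ ≤ 2 ^ a := Nat.pow_le_pow_right (by norm_num) h5
    · have h5 : 2 < p := by
        have := hp.out.two_le
        rcases h with ⟨k, hk⟩
        omega
      exact lt_of_lt_of_le h5 (Nat.le_self_pow ha.ne' p)
  have htc : IsTotallyComplex K := by
    have h5 := NumberField.InfinitePlace.IsPrimitiveRoot.nrRealPlaces_eq_zero_of_two_lt h2 hζa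
    exact nrRealPlaces_eq_zero_iff.1 h5
  obtain ⟨Q₀, hQ₀, hQ₀l⟩ := exists_Q l
  obtain ⟨q, Q, φ, hG⟩ := chain hζ l a hcop hl hmax hB m
  -- the character
  set χ := kn hz (kap q m) with hχ
  have hχmul : ∀ g h, χ (g * h) = χ g + χ h := kn_mul_right hz _
  have hχc : Continuous χ := kn_cont hz _
  have hred : ∀ g, c1 hn (χ g) = kp hζ (kap q m) g := kn_red hz hn _
  have hgal := fld_gal hχc hχmul
  have hfin := fld_fin hχc hχmul
  -- a generator in the decomposition group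
  obtain ⟨τ, hτ, hτ0⟩ : ∃ τ ∈ Dec Q₀, kp hζ (kap q m) τ ≠ 0 := by
    by_contra hcon
    push Not at hcon
    have h5 := nu_dec hζ ha h2 hζa hl hlp hQ₀ hQ₀l (x := kai q m) kai_ne (fun σ hσ => by
      rw [← kap_eq]
      exact hcon σ hσ)
    obtain ⟨h8, h9, h10⟩ := nc_kai hζ ha hζa hl hG hm
    rw [h8, ← pow_mul] at h5
    have h11 := eq_one_of_pow h10 h5 h9
    rw [hp.out.dvd_mul, or_self] at h11
    exact hh_ne hcop ((ZMod.natCast_eq_zero_iff _ _).2 h11)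
  obtain ⟨σ, hσD, hσ⟩ : ∃ σ ∈ Dec Q₀, χ σ = 1 := by
    have h5 : IsUnit (χ τ) := isUnit_of_c1 hn (by rw [hred]; exact hτ0)
    obtain ⟨u, hu⟩ := h5
    refine ⟨τ ^ ((u⁻¹ : (ZMod (p ^ n))ˣ) : ZMod (p ^ n)).val, (Dec Q₀).pow_mem hτ _, ?_⟩
    rw [Pool.Agent.NH7.Abs.x_pow hχmul, ZMod.natCast_zmod_val, ← hu, Units.inv_mul]
  -- unramified primes
  have hunr : ∀ (R : Ideal (OO K)), R.IsMaximal → (p : OO K) ∉ R → ∀ v : HeightOneSpectrum (𝓞 K),
      R.comap (algebraMap (𝓞 K) (OO K)) = v.asIdeal → (∀ j < m, v ≠ q j) → ∀ x ∈ Inr R,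
        χ x = 0 := by
    intro R hR hpR v hv hvj x hx
    rw [hχ, kap_eq]
    refine kn_inr_zero hz hR hv hpR kai_ne ?_ hx
    rw [kai]
    intro hmem
    obtain ⟨j, hj, hj'⟩ := (v.isPrime.prod_mem_iff).1 hmem
    have h5 := (od_ui_mem v (gi (q j)) (gi_ne _) 1).2 (by rwa [pow_one])
    have h6 : od v (gg (q j)) = 0 := od_gg_ne (hvj j (Finset.mem_range.1 hj))
    unfold gg at h6
    rw [h6] at h5
    omega
  have hunder : ∀ (R : Ideal (OO K)), R.IsMaximal → ∃ v : HeightOneSpectrum (𝓞 K),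
      R.comap (algebraMap (𝓞 K) (OO K)) = v.asIdeal := by
    intro R hR
    have hRm : (R.comap (algebraMap (𝓞 K) (OO K))).IsMaximal :=
      Ideal.isMaximal_comap_of_isIntegral_of_isMaximal R
    exact ⟨⟨R.comap (algebraMap (𝓞 K) (OO K)), hRm.isPrime,
      Ideal.IsMaximal.ne_bot_of_isIntegral_int _⟩, rfl⟩
  -- inertia is conjugate
  have hconjI : ∀ (R R' : Ideal (OO K)) (_ : R.IsMaximal) (_ : R'.IsMaximal),
      R.comap (algebraMap (𝓞 K) (OO K)) = R'.comap (algebraMap (𝓞 K) (OO K)) →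
      (∃ x ∈ Inr R, kp hζ (kap q m) x ≠ 0) → ∃ x ∈ Inr R', kp hζ (kap q m) x ≠ 0 := by
    rintro R R' hR hR' he ⟨x, hx, hx0⟩
    obtain ⟨τ, hτ⟩ := Pool.Agent.W352.ChAbs.exists_smul R R' he
    refine ⟨τ * x * τ⁻¹, fun y => ?_, ?_⟩
    · have h6 := (hτ _).1 (hx (τ⁻¹ • y))
      rw [smul_sub, smul_inv_smul, ← mul_smul, ← mul_smul] at h6
      exact h6
    · rw [kp_mul_right, kp_mul_right, kp_inv_right]
      intro h
      apply hx0
      rw [← h]
      ring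
  have hdi : ∀ R : Away K p, (∀ x ∈ Inr R.1, χ x = 0) ∨ ∃ x ∈ Inr R.1, IsUnit (χ x) := by
    rintro ⟨R, hR, hpR⟩
    obtain ⟨v, hv⟩ := hunder R hR
    by_cases h : ∃ j < m, v = q j
    · obtain ⟨j, hj, rfl⟩ := h
      obtain ⟨x, hx, hx0⟩ := hconjI (Q j) R (hG j hj).hQ hR ((hG j hj).hQq.trans hv.symm)
        (kap_ram hζ hcop hG hj)
      exact Or.inr ⟨x, hx, isUnit_of_c1 hn (by rw [hred]; exact hx0)⟩
    · push Not at h
      exact Or.inl (hunr R hR hpR v hv h)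
  refine ⟨fld hχmul, hgal, ?_, ?_, ?_, ?_, ?_⟩
  · exact ⟨_, (fldn_cyc hχc hχmul hσ).1⟩
  · rw [← IsGalois.card_aut_eq_finrank, (fldn_cyc hχc hχmul hσ).2]
  · -- the ramified primes
    have hset : {v : HeightOneSpectrum (𝓞 K) | (p : 𝓞 K) ∉ v.asIdeal ∧ Ram (fld hχmul) v} =
        q '' Set.Iio m := by
      ext v
      constructor
      · rintro ⟨hv, R, hR, hRv, τ, hτ, x, hx, hne⟩
        by_contra hcon
        have h5 : ∀ j < m, v ≠ q j := fun j hj h => hcon ⟨j, hj, h.symm⟩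
        exact hne (fld_triv hχmul (hunr R hR (not_mem_Q hRv hv) v hRv h5 τ hτ) ⟨x, hx⟩)
      · rintro ⟨j, hj, rfl⟩
        refine ⟨not_mem_of_ne l hl (hG j hj).hl, Q j, (hG j hj).hQ, (hG j hj).hQq, ?_⟩
        obtain ⟨x, hx, hx0⟩ := kap_ram hζ hcop hG hj
        refine ⟨x, hx, rtn p n (kap q m), mem_fld hχmul fun g hg => (kn_zero_iff hz _ _).1 hg, ?_⟩
        intro h
        apply hx0
        rw [← hred, hχ, (kn_zero_iff hz _ _).2 h, map_zero]
    rw [hset, Set.InjOn.ncard_image, Set.ncard_Iio_nat]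
    intro i hi j hj hij
    by_contra hne
    exact q_inj hζ hG hi hj hne hij
  · rintro v hvB hv ⟨R, hR, hRv, τ, hτ, x, hx, hne⟩
    have h5 : ∀ j < m, v ≠ q j := fun j hj h => (hG j hj).hB (h ▸ hvB)
    exact hne (fld_triv hχmul (hunr R hR (not_mem_Q hRv hv) v hRv h5 τ hτ) ⟨x, hx⟩)
  · intro r c hc1 hc2 hc3 hc4
    have hS : SetupN (psi K p r) χ (Dec Q₀) (fun R : Away K p => Inr R.1)
        (fun R : Away K p => Dec R.1) :=
      { cχ := hχc
        χmul := hχmul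
        hIE := fun R => Inr_le R.1
        norm := fun R g hg x hx => Inr_norm hg hx
        conj := fun R g => ⟨⟨mv g R.1, mv_max g R.2.1, fun h => R.2.2 (natCast_mem_mv.1 h)⟩,
          fun x => ⟨Inr_mv g x, Dec_mv g x⟩⟩
        ψI := fun R x hx => psi_inr R.2.1 R.2.2 hx r
        ψp := fun g => by
          have hζ' : IsPrimitiveRoot ζ (p ^ 1) := by rw [pow_one]; exact hζ
          have h := psi_C1 (p := p) r (chi_one hζ' g)
          rwa [pow_one] at h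
        ψ2 := fun hp2 g => by
          subst hp2
          have h5 : 2 ≤ a := by
            by_contra hcon
            push Not at hcon
            have h6 : a = 1 := by omega
            rw [h6] at h2
            norm_num at h2
          have h6 := (pow_dvd_pow (2 : ℤ_[2]) h5).trans
            (by exact_mod_cast psi_C1 (p := 2) r (chi_one hζa g))
          have e : (4 : ℤ_[2]) = 2 ^ 2 := by norm_num
          rw [e]
          exact h6
        di := hdi }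
    have hcond : Cond (psi K p r) (fun g => c1 hn (χ g)) (Dec Q₀) (fun R : Away K p => Inr R.1)
        (fun R : Away K p => Dec R.1) := by
      intro X x1 x2 x3 x4 x5 g _
      have x2' : ∀ g h, X (g * h) = X g + X h := by
        intro g h
        rw [x2]
        have h7 : PadicInt.toZMod ((psi K p r g : ℤ_[p]ˣ) : ℤ_[p]) = 1 := by
          rw [← map_one (PadicInt.toZMod : ℤ_[p] →+* ZMod p), Pool.Agent.NH7.Abs.toZMod_eq]
          exact hS.ψp g
        rw [h7, one_mul]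
      refine cond hζ ha h2 hζa hcop hl hlp hG hm hQ₀ hQ₀l x1 x2' x3 ?_ ?_ g
      · intro R hR hpR h x hx
        refine x4 ⟨R, hR, hpR⟩ (fun y hy => ?_) x hx
        show c1 hn (χ y) = 0
        rw [hred]
        exact h y hy
      · rintro R hR hpR ⟨x, hx, hx0⟩
        obtain ⟨b, hb⟩ := x5 ⟨R, hR, hpR⟩ ⟨x, hx, by
          show c1 hn (χ x) ≠ 0
          rw [hred]
          exact hx0⟩
        refine ⟨b, fun g hg => ?_⟩
        rw [← hred]
        exact hb g hg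
    have hbase := Pool.Agent.NH7.Abs.mainN_aux hn hS hσD hσ (base hζ hcop hl hQ₀ hQ₀l r) hcond n
      le_rfl
    -- the cocycle
    have hpQ₀ : (p : OO K) ∈ Q₀ := by
      have h5 : (p : 𝓞 K) ∈ Q₀.comap (algebraMap (𝓞 K) (OO K)) := by rw [hQ₀l]; exact hlp
      rw [Ideal.mem_comap, map_natCast] at h5
      exact h5
    obtain ⟨y, hy⟩ := hc4 Q₀ hQ₀ hpQ₀
    have hHL : ∀ g : GK K, g ∈ H hχmul n le_rfl ↔ g ∈ (fld hχmul).fixingSubgroup := by
      intro g
      rw [fld_fix hχc hχmul, mem_kerX, mem_H, ZMod.natCast_zmod_val]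
    have h5 := hbase (fun g => c ⟨g.1, (hHL _).1 g.2⟩ -
        (((psi K p r g.1 : ℤ_[p]ˣ) : ℤ_[p]) - 1) * y) ?_ ?_ ?_ ?_
    · refine ⟨y, fun σ => ?_⟩
      have h6 := congrFun h5 ⟨σ.1, (hHL _).2 σ.2⟩
      exact sub_eq_zero.1 h6
    · refine Continuous.sub ?_ ?_
      · exact hc1.comp (Continuous.subtype_mk continuous_subtype_val _)
      · refine Continuous.mul (Continuous.sub ?_ continuous_const) continuous_const
        have h6 : Continuous fun g : GK K => psi K p r g := by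
          have h7 : Continuous fun g : GK K => Pool.Agent.Y802.chi K p g :=
            Pool.Agent.Y802.continuous_chi K p
          exact h7.zpow r
        exact (Units.continuous_val.comp h6).comp continuous_subtype_val
    · intro g h
      have h6 := hc2 ⟨g.1, (hHL _).1 g.2⟩ ⟨h.1, (hHL _).1 h.2⟩
      have h7 : (⟨(g * h).1, (hHL _).1 (g * h).2⟩ : (fld hχmul).fixingSubgroup) =
        ⟨g.1, (hHL _).1 g.2⟩ * ⟨h.1, (hHL _).1 h.2⟩ := rfl
      show c ⟨(g * h).1, (hHL _).1 (g * h).2⟩ -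
        (((psi K p r (g * h).1 : ℤ_[p]ˣ) : ℤ_[p]) - 1) * y = _
      rw [h7, h6]
      have h8 : psi K p r (g * h).1 = psi K p r g.1 * psi K p r h.1 := map_mul _ _ _
      rw [h8, Units.val_mul]
      show _ = c ⟨g.1, (hHL _).1 g.2⟩ - (((psi K p r g.1 : ℤ_[p]ˣ) : ℤ_[p]) - 1) * y +
        ((psi K p r g.1 : ℤ_[p]ˣ) : ℤ_[p]) * (c ⟨h.1, (hHL _).1 h.2⟩ -
          (((psi K p r h.1 : ℤ_[p]ˣ) : ℤ_[p]) - 1) * y)
      ring
    · intro g hg
      have h6 := hy ⟨g.1, (hHL _).1 g.2⟩ hg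
      show c ⟨g.1, (hHL _).1 g.2⟩ - (((psi K p r g.1 : ℤ_[p]ˣ) : ℤ_[p]) - 1) * y = 0
      rw [h6, sub_self]
    · intro R x hx
      have h6 := hc3 R.1 R.2.1 R.2.2 ⟨x.1, (hHL _).1 x.2⟩ hx
      show c ⟨x.1, (hHL _).1 x.2⟩ - (((psi K p r x.1 : ℤ_[p]ˣ) : ℤ_[p]) - 1) * y = 0
      have h7 : psi K p r x.1 = 1 := psi_inr R.2.1 R.2.2 (σ := x.1) hx r
      rw [h6, h7, Units.val_one, sub_self, zero_mul, sub_zero]

end Pool.Agent.NH7.Sch
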