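import Mathlib
import Pool.Agent.W352.ChAbs.Frob
import Pool.Agent.Y802.Cyc

/-!
# Decomposition and inertia groups in the absolute Galois group of a number field
-/

set_option autoImplicit false

namespace Pool.Agent.NH7.Sch

open NumberField IsDedekindDomain Pool.Agent.W401.Cheb

section

variable {K : Type} [Field K]

/-- the ring of all algebraic integers -/
abbrev OO (K : Type) [Field K] : Type := 𝓞 (AlgebraicClosure K)

theorem coe_smul (σ : GK K) (x : OO K) : ((σ • x : OO K) : AlgebraicClosure K) = σ x := rfl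

/-- the decomposition group -/
def Dec (Q : Ideal (OO K)) : Subgroup (GK K) where
  carrier := {σ | ∀ x : OO K, x ∈ Q ↔ σ • x ∈ Q}
  mul_mem' := by
    intro a b ha hb x
    rw [hb x, ha (b • x), mul_smul]
  one_mem' := by
    intro x
    rw [one_smul]
  inv_mem' := by
    intro a ha x
    rw [ha (a⁻¹ • x), smul_inv_smul]

theorem mem_Dec {Q : Ideal (OO K)} {σ : GK K} : σ ∈ Dec Q ↔ ∀ x : OO K, x ∈ Q ↔ σ • x ∈ Q := Iff.rfl

/-- the inertia group -/
def Inr (Q : Ideal (OO K)) : Subgroup (GK K) where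
  carrier := {σ | ∀ x : OO K, σ • x - x ∈ Q}
  mul_mem' := by
    intro a b ha hb x
    have h1 := Q.add_mem (ha (b • x)) (hb x)
    rw [sub_add_sub_cancel, ← mul_smul] at h1
    exact h1
  one_mem' := by
    intro x
    rw [one_smul, sub_self]
    exact Q.zero_mem
  inv_mem' := by
    intro a ha x
    have h1 := ha (a⁻¹ • x)
    rw [smul_inv_smul] at h1
    have h2 := Q.neg_mem h1
    rwa [neg_sub] at h2

theorem mem_Inr {Q : Ideal (OO K)} {σ : GK K} : σ ∈ Inr Q ↔ ∀ x : OO K, σ • x - x ∈ Q := Iff.rfl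

theorem Inr_le (Q : Ideal (OO K)) : Inr Q ≤ Dec Q := by
  intro σ hσ x
  constructor
  · intro h
    have := Q.add_mem (hσ x) h
    rwa [sub_add_cancel] at this
  · intro h
    have := Q.sub_mem h (hσ x)
    rwa [sub_sub_cancel] at this

theorem Inr_norm {Q : Ideal (OO K)} {g x : GK K} (hg : g ∈ Dec Q) (hx : x ∈ Inr Q) :
    g * x * g⁻¹ ∈ Inr Q := by
  intro y
  have h1 := (hg _).1 (hx (g⁻¹ • y))
  rw [smul_sub, smul_inv_smul, ← mul_smul, ← mul_smul] at h1
  exact h1

/-- the ideal moved by `g` -/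
noncomputable def mv (g : GK K) (Q : Ideal (OO K)) : Ideal (OO K) :=
  Q.comap (MulSemiringAction.toRingHom (GK K) (OO K) g⁻¹)

theorem mem_mv {g : GK K} {Q : Ideal (OO K)} {x : OO K} : x ∈ mv g Q ↔ g⁻¹ • x ∈ Q := Iff.rfl

theorem mv_max (g : GK K) {Q : Ideal (OO K)} (hQ : Q.IsMaximal) : (mv g Q).IsMaximal :=
  Ideal.comap_isMaximal_of_surjective _ fun x => ⟨g • x, inv_smul_smul g x⟩

theorem Inr_conj {Q : Ideal (OO K)} (g : GK K) {x : GK K} (hx : x ∈ Inr Q) :
    g * x * g⁻¹ ∈ Inr (mv g Q) := by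
  intro y
  rw [mem_mv, smul_sub, ← mul_smul]
  have h1 := hx (g⁻¹ • y)
  rw [← mul_smul] at h1
  have e : g⁻¹ * (g * x * g⁻¹) = x * g⁻¹ := by group
  rw [e]
  exact h1

theorem smul_natCast (g : GK K) (n : ℕ) : g • (n : OO K) = n := by
  apply RingOfIntegers.ext
  rw [coe_smul]
  simp

theorem natCast_mem_mv {g : GK K} {Q : Ideal (OO K)} {n : ℕ} :
    (n : OO K) ∈ mv g Q ↔ (n : OO K) ∈ Q := by
  rw [mem_mv, smul_natCast]

end

section chi

variable {K : Type} [Field K] {p : ℕ} [hp : Fact p.Prime]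

open Pool.Agent.Y802

theorem chi_inr [CharZero K] {Q : Ideal (OO K)} (hQ : Q.IsMaximal) (hpQ : (p : OO K) ∉ Q) {σ : GK K}
    (hσ : σ ∈ Inr Q) : chi K p σ = 1 := by
  apply Units.ext
  have h := chi_frob' (q := 1) hQ.isPrime hpQ (σ := σ) (fun x => by
    rw [pow_one]
    exact hσ x)
  rw [h]
  simp

theorem chi_spec [CharZero K] (σ : GK K) (n : ℕ) {t : AlgebraicClosure K} (ht : t ^ p ^ n = 1) :
    σ t = t ^ (((chi K p σ : ℤ_[p]ˣ) : ℤ_[p]).toZModPow n).val := by
  have : CharZero (AlgebraicClosure K) := charZero_of_injective_algebraMap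
    (algebraMap K (AlgebraicClosure K)).injective
  exact cyclotomicCharacter.spec p
    (MulSemiringAction.toRingAut Gal(AlgebraicClosure K/K) (AlgebraicClosure K) σ) t ht

theorem toZModPow_one_iff {x : ℤ_[p]} {n : ℕ} :
    x.toZModPow n = 1 ↔ (p : ℤ_[p]) ^ n ∣ x - 1 := by
  rw [← Ideal.mem_span_singleton, ← PadicInt.ker_toZModPow, RingHom.mem_ker, map_sub, map_one,
    sub_eq_zero]

theorem chi_one [CharZero K] {n : ℕ} {ζ : K} (hζ : IsPrimitiveRoot ζ (p ^ n)) (σ : GK K) :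
    (p : ℤ_[p]) ^ n ∣ ((chi K p σ : ℤ_[p]ˣ) : ℤ_[p]) - 1 := by
  rw [← toZModPow_one_iff]
  have : CharZero (AlgebraicClosure K) := charZero_of_injective_algebraMap
    (algebraMap K (AlgebraicClosure K)).injective
  have hζ' : IsPrimitiveRoot (algebraMap K (AlgebraicClosure K) ζ) (p ^ n) :=
    hζ.map_of_injective (algebraMap K (AlgebraicClosure K)).injective
  have h1 := chi_spec (p := p) σ n hζ'.pow_eq_one
  rw [σ.commutes] at h1
  rcases Nat.eq_zero_or_pos n with rfl | hn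
  · have : Subsingleton (ZMod (p ^ 0)) := by
      rw [pow_zero]
      infer_instance
    exact Subsingleton.elim _ _
  · have h2 : 1 < p ^ n := Nat.one_lt_pow hn.ne' hp.out.one_lt
    have : Fact (1 < p ^ n) := ⟨h2⟩
    have : NeZero (p ^ n) := ⟨by omega⟩
    have h3 := hζ'.pow_inj (ZMod.val_lt _) h2 (h1.symm.trans (pow_one _).symm)
    apply ZMod.val_injective
    rw [h3, ZMod.val_one]

theorem chi_ne [CharZero K] {n : ℕ} (hn : ∀ ζ : K, ¬ IsPrimitiveRoot ζ (p ^ n)) :
    ∃ σ : GK K, ¬ (p : ℤ_[p]) ^ n ∣ ((chi K p σ : ℤ_[p]ˣ) : ℤ_[p]) - 1 := by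
  have : CharZero (AlgebraicClosure K) := charZero_of_injective_algebraMap
    (algebraMap K (AlgebraicClosure K)).injective
  have : NeZero (p ^ n) := ⟨pow_ne_zero _ hp.out.ne_zero⟩
  have : NeZero ((p ^ n : ℕ) : AlgebraicClosure K) := ⟨by
    exact_mod_cast pow_ne_zero _ hp.out.ne_zero⟩
  obtain ⟨t, ht⟩ := HasEnoughRootsOfUnity.exists_primitiveRoot (AlgebraicClosure K) (p ^ n)
  by_contra hcon
  push Not at hcon
  have h1 : ∀ σ : GK K, σ t = t := by
    intro σ
    have h2 := hcon σ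
    rw [← toZModPow_one_iff] at h2
    rw [chi_spec (p := p) σ n ht.pow_eq_one, h2]
    rcases Nat.eq_zero_or_pos n with rfl | hn'
    · have h3 := ht.pow_eq_one
      rw [pow_zero, pow_one] at h3
      rw [h3, one_pow]
    · have h2 : 1 < p ^ n := Nat.one_lt_pow hn'.ne' hp.out.one_lt
      have : Fact (1 < p ^ n) := ⟨h2⟩
      rw [ZMod.val_one, pow_one]
  have h2 : t ∈ Set.range (algebraMap K (AlgebraicClosure K)) := by
    rw [InfiniteGalois.mem_range_algebraMap_iff_fixed]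
    exact h1
  obtain ⟨z, hz⟩ := h2
  apply hn z
  rw [← hz] at ht
  exact ht.of_map_of_injective (algebraMap K (AlgebraicClosure K)).injective

end chi

end Pool.Agent.NH7.Sch
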