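import Pool.Agent.NH7.Sch.Lift

/-!
# Kummer theory over a number field with a primitive `p`-th root of unity
-/

set_option autoImplicit false
set_option linter.unusedSectionVars false

namespace Pool.Agent.NH7.Sch

open NumberField IsDedekindDomain Pool.Agent.W401.Cheb

variable {K : Type} [Field K] [NumberField K] {p : ℕ} [hp : Fact p.Prime]

section pw

variable {F : Type} [Field F] {z : F}

theorem pw_add (hz : z ^ p = 1) (i j : ZMod p) : z ^ (i + j).val = z ^ i.val * z ^ j.val := by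
  rw [ZMod.val_add, ← pow_eq_pow_mod _ hz, pow_add]

theorem pw_inj (hz : IsPrimitiveRoot z p) {i j : ZMod p} (h : z ^ i.val = z ^ j.val) : i = j :=
  ZMod.val_injective p (hz.pow_inj (ZMod.val_lt i) (ZMod.val_lt j) h)

end pw

/-- a `p`-th root -/
noncomputable def rt (p : ℕ) [hp : Fact p.Prime] (κ : Kˣ) : AlgebraicClosure K :=
  Classical.choose (IsAlgClosed.exists_pow_nat_eq (algebraMap K (AlgebraicClosure K) κ) hp.out.pos)

theorem rt_pow (κ : Kˣ) : rt p κ ^ p = algebraMap K (AlgebraicClosure K) κ :=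
  Classical.choose_spec
    (IsAlgClosed.exists_pow_nat_eq (algebraMap K (AlgebraicClosure K) κ) hp.out.pos)

theorem alg_ne (κ : Kˣ) : algebraMap K (AlgebraicClosure K) κ ≠ 0 :=
  (map_ne_zero_iff _ (algebraMap K (AlgebraicClosure K)).injective).2 κ.ne_zero

theorem ne_of_pow {κ : Kˣ} {b : AlgebraicClosure K}
    (hb : b ^ p = algebraMap K (AlgebraicClosure K) κ) : b ≠ 0 := by
  rintro rfl
  rw [zero_pow hp.out.ne_zero] at hb
  exact alg_ne κ hb.symm

theorem rt_ne (κ : Kˣ) : rt p κ ≠ 0 := ne_of_pow (rt_pow κ)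

variable {ζ : K} (hζ : IsPrimitiveRoot ζ p)

/-- the root of unity in the algebraic closure -/
noncomputable abbrev zz (ζ : K) : AlgebraicClosure K := algebraMap K (AlgebraicClosure K) ζ

include hζ in
theorem zz_prim : IsPrimitiveRoot (zz ζ) p :=
  hζ.map_of_injective (algebraMap K (AlgebraicClosure K)).injective

include hζ in
theorem exists_ex {b c : AlgebraicClosure K} (hb : b ≠ 0) (h : c ^ p = b ^ p) :
    ∃ i : ZMod p, c = zz ζ ^ i.val * b := by
  have : NeZero p := ⟨hp.out.ne_zero⟩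
  have h1 : (c / b) ^ p = 1 := by rw [div_pow, h, div_self (pow_ne_zero _ hb)]
  obtain ⟨i, hi, hi2⟩ := (zz_prim hζ).eq_pow_of_pow_eq_one h1
  refine ⟨(i : ZMod p), ?_⟩
  rw [ZMod.val_cast_of_lt hi, hi2, div_mul_cancel₀ _ hb]

theorem smul_root {κ : Kˣ} {b : AlgebraicClosure K}
    (hb : b ^ p = algebraMap K (AlgebraicClosure K) κ) (σ : GK K) : (σ b) ^ p = b ^ p := by
  rw [← map_pow, hb, σ.commutes]

/-- the Kummer pairing -/
noncomputable def kp (κ : Kˣ) (σ : GK K) : ZMod p :=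
  Classical.choose (exists_ex hζ (rt_ne (p := p) κ) (smul_root (rt_pow κ) σ))

theorem kp_rt (κ : Kˣ) (σ : GK K) : σ (rt p κ) = zz ζ ^ (kp hζ κ σ).val * rt p κ :=
  Classical.choose_spec (exists_ex hζ (rt_ne (p := p) κ) (smul_root (rt_pow κ) σ))

theorem kp_spec {κ : Kˣ} (σ : GK K) {b : AlgebraicClosure K}
    (hb : b ^ p = algebraMap K (AlgebraicClosure K) κ) : σ b = zz ζ ^ (kp hζ κ σ).val * b := by
  obtain ⟨j, hj⟩ := exists_ex hζ (rt_ne (p := p) κ) (hb.trans (rt_pow κ).symm)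
  rw [hj, map_mul, map_pow, kp_rt hζ, σ.commutes]
  ring

theorem kp_eq {κ : Kˣ} {σ : GK K} {b : AlgebraicClosure K}
    (hb : b ^ p = algebraMap K (AlgebraicClosure K) κ) {i : ZMod p} (h : σ b = zz ζ ^ i.val * b) :
    kp hζ κ σ = i := by
  rw [kp_spec hζ σ hb] at h
  exact pw_inj (zz_prim hζ) (mul_right_cancel₀ (ne_of_pow hb) h)

theorem kp_zero_iff {κ : Kˣ} {σ : GK K} {b : AlgebraicClosure K}
    (hb : b ^ p = algebraMap K (AlgebraicClosure K) κ) : kp hζ κ σ = 0 ↔ σ b = b := by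
  constructor
  · intro h
    rw [kp_spec hζ σ hb, h, ZMod.val_zero, pow_zero, one_mul]
  · intro h
    exact kp_eq hζ hb (by rw [h, ZMod.val_zero, pow_zero, one_mul])

theorem kp_mul_left (κ κ' : Kˣ) (σ : GK K) : kp hζ (κ * κ') σ = kp hζ κ σ + kp hζ κ' σ := by
  apply kp_eq hζ (b := rt p κ * rt p κ')
  · rw [mul_pow, rt_pow, rt_pow, Units.val_mul, map_mul]
  · rw [map_mul, kp_rt hζ, kp_rt hζ, pw_add (zz_prim hζ).pow_eq_one]
    ring

theorem kp_mul_right (κ : Kˣ) (σ τ : GK K) : kp hζ κ (σ * τ) = kp hζ κ σ + kp hζ κ τ := by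
  apply kp_eq hζ (rt_pow κ)
  rw [AlgEquiv.mul_apply, kp_rt hζ, map_mul, map_pow, kp_rt hζ, σ.commutes,
    pw_add (zz_prim hζ).pow_eq_one]
  ring

/-- the pairing as a homomorphism in the first variable -/
noncomputable def kpL (σ : GK K) : Kˣ →* Multiplicative (ZMod p) where
  toFun κ := Multiplicative.ofAdd (kp hζ κ σ)
  map_one' := by
    have h := kp_mul_left hζ 1 1 σ
    rw [mul_one] at h
    rw [left_eq_add.1 h]
    rfl
  map_mul' κ κ' := by
    rw [kp_mul_left]
    rfl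

theorem kpL_apply (σ : GK K) (κ : Kˣ) : (kpL hζ σ κ).toAdd = kp hζ κ σ := rfl

theorem kp_one_left (σ : GK K) : kp hζ 1 σ = 0 := by
  rw [← kpL_apply, map_one, toAdd_one]

theorem kp_zpow (κ : Kˣ) (n : ℤ) (σ : GK K) : kp hζ (κ ^ n) σ = n * kp hζ κ σ := by
  rw [← kpL_apply, map_zpow, toAdd_zpow, kpL_apply, zsmul_eq_mul]

theorem kp_pow (κ : Kˣ) (n : ℕ) (σ : GK K) : kp hζ (κ ^ n) σ = n * kp hζ κ σ := by
  rw [← kpL_apply, map_pow, toAdd_pow, kpL_apply, nsmul_eq_mul]

theorem kp_inv_left (κ : Kˣ) (σ : GK K) : kp hζ κ⁻¹ σ = - kp hζ κ σ := by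
  rw [← kpL_apply, map_inv, toAdd_inv, kpL_apply]

theorem kp_prod {ι : Type} (s : Finset ι) (f : ι → Kˣ) (σ : GK K) :
    kp hζ (∏ i ∈ s, f i) σ = ∑ i ∈ s, kp hζ (f i) σ := by
  rw [← kpL_apply, map_prod, toAdd_prod]
  rfl

theorem kp_ppow (κ : Kˣ) (σ : GK K) : kp hζ (κ ^ p) σ = 0 := by
  rw [kp_pow, CharP.cast_eq_zero, zero_mul]

theorem kp_one_right (κ : Kˣ) : kp hζ κ 1 = 0 := by
  have h := kp_mul_right hζ κ 1 1
  rw [mul_one] at h
  exact left_eq_add.1 h

theorem kp_inv_right (κ : Kˣ) (σ : GK K) : kp hζ κ σ⁻¹ = - kp hζ κ σ := by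
  have h := kp_mul_right hζ κ σ⁻¹ σ
  rw [inv_mul_cancel, kp_one_right] at h
  exact eq_neg_of_add_eq_zero_left h.symm

/-- an additive map on the Galois group which vanishes on a neighbourhood of one is continuous -/
theorem cont_of_open {A : Type} [AddGroup A] [TopologicalSpace A] [DiscreteTopology A]
    {X : GK K → A} (hX : ∀ g h, X (g * h) = X g + X h) {V : Set (GK K)} (hV : IsOpen V)
    (h1 : (1 : GK K) ∈ V) (h0 : ∀ g ∈ V, X g = 0) : Continuous X := by
  apply IsLocallyConstant.continuous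
  rw [IsLocallyConstant.iff_exists_open]
  intro x
  refine ⟨(fun y => x⁻¹ * y) ⁻¹' V, hV.preimage (continuous_const.mul continuous_id), ?_, ?_⟩
  · rw [Set.mem_preimage, inv_mul_cancel]
    exact h1
  · intro y hy
    have h2 := hX x (x⁻¹ * y)
    rw [mul_inv_cancel_left, h0 _ hy, add_zero] at h2
    exact h2

theorem kp_cont (κ : Kˣ) : Continuous (kp hζ κ) := by
  have h1 : IsOpen (MulAction.stabilizer (GK K) (rt p κ) : Set (GK K)) :=
    stabilizer_isOpen_of_isIntegral (K := K) (rt p κ)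
  refine cont_of_open (kp_mul_right hζ κ) h1 (one_mem _) fun g hg => ?_
  rw [kp_zero_iff hζ (rt_pow κ)]
  exact hg

/-- all homomorphisms to `ℤ/p` come from elements of `K` -/
theorem kp_surj {X : GK K → ZMod p} (hX : Continuous X) (hmul : ∀ g h, X (g * h) = X g + X h) :
    ∃ κ : Kˣ, ∀ σ, kp hζ κ σ = X σ := by
  classical
  have hX1 : X 1 = 0 := by
    have h := hmul 1 1
    rw [mul_one] at h
    exact left_eq_add.1 h
  have hXpow : ∀ (g : GK K) (n : ℕ), X (g ^ n) = n * X g := by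
    intro g n
    induction n with
    | zero => rw [pow_zero, hX1, Nat.cast_zero, zero_mul]
    | succ n ih => rw [pow_succ, hmul, ih]; push_cast; ring
  have hXinv : ∀ g : GK K, X g⁻¹ = - X g := by
    intro g
    have h := hmul g⁻¹ g
    rw [inv_mul_cancel, hX1] at h
    exact eq_neg_of_add_eq_zero_left h.symm
  by_cases h0 : ∀ σ, X σ = 0
  · exact ⟨1, fun σ => by rw [kp_one_left, h0]⟩
  push Not at h0
  obtain ⟨σ₀, hσ₀⟩ := h0
  set σ : GK K := σ₀ ^ ((X σ₀)⁻¹).val with hσ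
  have hXσ : X σ = 1 := by
    rw [hσ, hXpow]
    simp only [ZMod.natCast_val, ZMod.cast_id', id_eq]
    exact inv_mul_cancel₀ hσ₀
  -- the kernel
  let N : Subgroup (GK K) :=
    { carrier := {g | X g = 0}
      mul_mem' := fun {a b} ha hb => by
        rw [Set.mem_ofPred_eq] at ha hb ⊢
        rw [hmul, ha, hb, add_zero]
      one_mem' := hX1
      inv_mem' := fun {a} ha => by
        rw [Set.mem_ofPred_eq] at ha ⊢
        rw [hXinv, ha, neg_zero] }
  have hNc : IsClosed (N : Set (GK K)) := isClosed_singleton.preimage hX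
  set M := IntermediateField.fixedField N with hM
  have hfix : M.fixingSubgroup = N := InfiniteGalois.fixingSubgroup_fixedField ⟨N, hNc⟩
  have hmem : ∀ g, X g = 0 → ∀ x ∈ M, g x = x := by
    intro g hg x hx
    have h1 : g ∈ M.fixingSubgroup := by
      rw [hfix]
      exact hg
    exact (IntermediateField.mem_fixingSubgroup_iff _ _).1 h1 x hx
  have hval : ∀ g h, X g = X h → ∀ x ∈ M, g x = h x := by
    intro g h hgh x hx
    have h1 := hmem (h⁻¹ * g) (by rw [hmul, hXinv, hgh, neg_add_cancel]) x hx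
    rw [AlgEquiv.mul_apply] at h1
    have h2 := congrArg h h1
    rw [← AlgEquiv.mul_apply, mul_inv_cancel, AlgEquiv.one_apply] at h2
    exact h2
  have hXσp : ∀ j : ZMod p, X (σ ^ j.val) = j := by
    intro j
    rw [hXpow, hXσ, mul_one]
    simp
  -- linear independence
  let ch : ZMod p → (M →* AlgebraicClosure K) := fun j =>
    ((σ ^ j.val : GK K) : AlgebraicClosure K →* AlgebraicClosure K).comp
      (algebraMap M (AlgebraicClosure K) : M →* AlgebraicClosure K)
  have hch : ∀ j (x : M), ch j x = (σ ^ j.val) (x : AlgebraicClosure K) := fun j x => rfl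
  have hinj : Function.Injective ch := by
    intro i j hij
    have h1 : (σ ^ i.val)⁻¹ * σ ^ j.val ∈ M.fixingSubgroup := by
      rw [IntermediateField.mem_fixingSubgroup_iff]
      intro x hx
      have h2 := DFunLike.congr_fun hij ⟨x, hx⟩
      rw [hch, hch] at h2
      rw [AlgEquiv.mul_apply, ← h2, ← AlgEquiv.mul_apply, inv_mul_cancel, AlgEquiv.one_apply]
    rw [hfix] at h1
    have h2 : X ((σ ^ i.val)⁻¹ * σ ^ j.val) = 0 := h1
    rw [hmul, hXinv, hXσp, hXσp, neg_add_eq_zero] at h2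
    exact h2
  have hli := (linearIndependent_monoidHom M (AlgebraicClosure K)).comp ch hinj
  rw [Fintype.linearIndependent_iff] at hli
  have hne : ∃ x : M, ∑ j : ZMod p, zz ζ ^ (-j).val * (σ ^ j.val) (x : AlgebraicClosure K) ≠ 0 := by
    by_contra hcon
    push Not at hcon
    have h1 := hli (fun j => zz ζ ^ (-j).val) (by
      funext x
      rw [Finset.sum_apply]
      exact hcon x) 0
    exact pow_ne_zero _ ((zz_prim hζ).ne_zero hp.out.ne_zero) h1
  obtain ⟨x, hx⟩ := hne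
  set b := ∑ j : ZMod p, zz ζ ^ (-j).val * (σ ^ j.val) (x : AlgebraicClosure K) with hb
  have hτ : ∀ τ : GK K, τ b = zz ζ ^ (X τ).val * b := by
    intro τ
    rw [hb, map_sum, Finset.mul_sum]
    refine Fintype.sum_equiv (Equiv.addRight (X τ)) _ _ fun j => ?_
    rw [Equiv.coe_addRight, map_mul, map_pow, τ.commutes, ← mul_assoc,
      ← pw_add (zz_prim hζ).pow_eq_one, ← AlgEquiv.mul_apply]
    have e : X τ + -(j + X τ) = -j := by ring
    rw [e]
    congr 1
    refine hval _ _ ?_ _ x.2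
    rw [hmul, hXσp, hXσp, add_comm]
  have hfixb : ∀ τ : GK K, τ (b ^ p) = b ^ p := by
    intro τ
    rw [map_pow, hτ, mul_pow, ← pow_mul, mul_comm (X τ).val p, pow_mul, (zz_prim hζ).pow_eq_one,
      one_pow, one_mul]
  obtain ⟨k, hk⟩ := (InfiniteGalois.mem_range_algebraMap_iff_fixed (b ^ p)).2 hfixb
  have hk0 : k ≠ 0 := by
    rintro rfl
    rw [map_zero] at hk
    exact pow_ne_zero p hx hk.symm
  exact ⟨Units.mk0 k hk0, fun τ => kp_eq hζ (b := b) hk.symm (hτ τ)⟩

end Pool.Agent.NH7.Sch
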