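import Pool.Agent.NH7.Sch.Cnd
import Pool.Agent.NH7.Sch.Abs6

/-!
# Roots of order `p ^ n`
-/

set_option autoImplicit false
set_option linter.unusedSectionVars false

namespace Pool.Agent.NH7.Sch

open NumberField IsDedekindDomain Pool.Agent.W401.Cheb WithZero Filter Topology

variable {K : Type} [Field K] [NumberField K] {p : ℕ} [hp : Fact p.Prime] {n : ℕ}

section pw

variable {F : Type} [Field F] {z : F}

theorem pwn_add {N : ℕ} [NeZero N] (hz : z ^ N = 1) (i j : ZMod N) :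
    z ^ (i + j).val = z ^ i.val * z ^ j.val := by
  rw [ZMod.val_add, ← pow_eq_pow_mod _ hz, pow_add]

theorem pwn_inj {N : ℕ} [NeZero N] (hz : IsPrimitiveRoot z N) {i j : ZMod N}
    (h : z ^ i.val = z ^ j.val) : i = j :=
  ZMod.val_injective N (hz.pow_inj (ZMod.val_lt i) (ZMod.val_lt j) h)

end pw

variable {z : K} (hz : IsPrimitiveRoot z (p ^ n))

theorem posn : 0 < p ^ n := pow_pos hp.out.pos n

variable (p n) in
/-- a root of order `p ^ n` -/
noncomputable def rtn (κ : Kˣ) : AlgebraicClosure K :=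
  Classical.choose (IsAlgClosed.exists_pow_nat_eq (algebraMap K (AlgebraicClosure K) κ)
    (posn (p := p) (n := n)))

theorem rtn_pow (κ : Kˣ) : rtn p n κ ^ p ^ n = algebraMap K (AlgebraicClosure K) κ :=
  Classical.choose_spec (IsAlgClosed.exists_pow_nat_eq (algebraMap K (AlgebraicClosure K) κ)
    (posn (p := p) (n := n)))

theorem rtn_ne (κ : Kˣ) : rtn p n κ ≠ 0 := by
  intro h
  have h1 := rtn_pow (p := p) (n := n) κ
  rw [h, zero_pow (posn (p := p) (n := n)).ne'] at h1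
  exact alg_ne κ h1.symm

include hz in
theorem zzn_prim : IsPrimitiveRoot (zz z) (p ^ n) :=
  hz.map_of_injective (algebraMap K (AlgebraicClosure K)).injective

include hz in
theorem exists_exn (κ : Kˣ) (σ : GK K) :
    ∃ i : ZMod (p ^ n), σ (rtn p n κ) = zz z ^ i.val * rtn p n κ := by
  have hb := rtn_ne (p := p) (n := n) κ
  have h1 : (σ (rtn p n κ) / rtn p n κ) ^ p ^ n = 1 := by
    rw [div_pow, ← map_pow, rtn_pow, σ.commutes, div_self (alg_ne κ)]
  obtain ⟨i, hi, hi2⟩ := (zzn_prim hz).eq_pow_of_pow_eq_one h1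
  refine ⟨(i : ZMod (p ^ n)), ?_⟩
  rw [ZMod.val_cast_of_lt hi, hi2, div_mul_cancel₀ _ hb]

/-- the Kummer pairing of order `p ^ n` -/
noncomputable def kn (κ : Kˣ) (σ : GK K) : ZMod (p ^ n) := Classical.choose (exists_exn hz κ σ)

theorem kn_rt (κ : Kˣ) (σ : GK K) : σ (rtn p n κ) = zz z ^ (kn hz κ σ).val * rtn p n κ :=
  Classical.choose_spec (exists_exn hz κ σ)

theorem kn_zero_iff (κ : Kˣ) (σ : GK K) : kn hz κ σ = 0 ↔ σ (rtn p n κ) = rtn p n κ := by
  constructor
  · intro h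
    rw [kn_rt hz, h, ZMod.val_zero, pow_zero, one_mul]
  · intro h
    have h1 := kn_rt hz κ σ
    rw [h] at h1
    have h2 : zz z ^ (kn hz κ σ).val = zz z ^ (0 : ZMod (p ^ n)).val := by
      rw [ZMod.val_zero, pow_zero]
      exact mul_right_cancel₀ (rtn_ne κ) (h1.symm.trans (one_mul _).symm)
    exact pwn_inj (zzn_prim hz) h2

theorem kn_mul_right (κ : Kˣ) (σ τ : GK K) : kn hz κ (σ * τ) = kn hz κ σ + kn hz κ τ := by
  apply pwn_inj (zzn_prim hz)
  apply mul_right_cancel₀ (rtn_ne (p := p) (n := n) κ)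
  rw [← kn_rt, AlgEquiv.mul_apply, kn_rt hz κ τ, map_mul, map_pow, kn_rt hz κ σ, σ.commutes,
    pwn_add (zzn_prim hz).pow_eq_one]
  ring

theorem kn_cont (κ : Kˣ) : Continuous (kn hz κ) := by
  have h1 : IsOpen (MulAction.stabilizer (GK K) (rtn p n κ) : Set (GK K)) :=
    stabilizer_isOpen_of_isIntegral (K := K) (rtn p n κ)
  refine cont_of_open (kn_mul_right hz κ) h1 (one_mem _) fun g hg => ?_
  rw [kn_zero_iff hz]
  exact hg

include hz in
theorem prim_p (hn : 0 < n) : IsPrimitiveRoot (z ^ p ^ (n - 1)) p :=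
  hz.pow (posn (p := p) (n := n)) (by rw [← pow_succ, Nat.sub_add_cancel hn])

/-- reduction modulo `p` -/
theorem kn_red (hn : 0 < n) (κ : Kˣ) (σ : GK K) :
    Pool.Agent.NH7.Abs.c1 hn (kn hz κ σ) = kp (prim_p hz hn) κ σ := by
  have hb : (rtn p n κ ^ p ^ (n - 1)) ^ p = algebraMap K (AlgebraicClosure K) κ := by
    rw [← pow_mul, ← pow_succ, Nat.sub_add_cancel hn, rtn_pow]
  rw [kp_eq (prim_p hz hn) hb (i := Pool.Agent.NH7.Abs.c1 hn (kn hz κ σ))]
  rw [map_pow, kn_rt hz, mul_pow]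
  congr 1
  have e0 : zz (z ^ p ^ (n - 1)) = zz z ^ p ^ (n - 1) :=
    map_pow (algebraMap K (AlgebraicClosure K)) z _
  have e : (zz z ^ p ^ (n - 1)) ^ p = 1 := by
    rw [← pow_mul, ← pow_succ, Nat.sub_add_cancel hn, (zzn_prim hz).pow_eq_one]
  rw [e0, ← Pool.Agent.NH7.Abs.c1_val hn, ← pow_mul, mul_comm (kn hz κ σ).val, pow_mul,
    ZMod.val_natCast]
  exact pow_eq_pow_mod _ e

/-- the class of an integer prime to `Q` is trivial on the inertia group -/
theorem kn_inr_zero {v : HeightOneSpectrum (𝓞 K)} {Q : Ideal (OO K)} (hQ : Q.IsMaximal)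
    (hQv : Q.comap (algebraMap (𝓞 K) (OO K)) = v.asIdeal) (hpQ : (p : OO K) ∉ Q) {x : 𝓞 K}
    (hx : x ≠ 0) (hxv : x ∉ v.asIdeal) {σ : GK K} (hσ : σ ∈ Inr Q) :
    kn hz (ui x hx) σ = 0 := by
  have hb := rtn_pow (p := p) (n := n) (ui x hx)
  have hint : IsIntegral ℤ (rtn p n (ui x hx)) := by
    refine IsIntegral.of_pow (posn (p := p) (n := n)) ?_
    rw [hb, coe_ui]
    exact ((RingOfIntegers.isIntegral_coe x).map
      (Algebra.ofId K (AlgebraicClosure K) |>.restrictScalars ℤ))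
  set B : OO K := ⟨rtn p n (ui x hx), hint⟩ with hB
  have hBp : B ^ p ^ n = algebraMap (𝓞 K) (OO K) x := by
    apply RingOfIntegers.ext
    have e1 : ((B ^ p ^ n : OO K) : AlgebraicClosure K) = rtn p n (ui x hx) ^ p ^ n := rfl
    rw [e1, hb, coe_ui]
    rfl
  have hBQ : B ∉ Q := by
    intro hm
    apply hxv
    rw [← hQv, Ideal.mem_comap, ← hBp]
    exact Q.pow_mem_of_mem hm _ (posn (p := p) (n := n))
  have hzi : IsIntegral ℤ (zz z) := IsIntegral.of_pow (posn (p := p) (n := n)) (by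
    rw [(zzn_prim hz).pow_eq_one]; exact isIntegral_one)
  set Z : OO K := ⟨zz z, hzi⟩ with hZ
  have hZN : Z ^ p ^ n = 1 := RingOfIntegers.ext (zzn_prim hz).pow_eq_one
  have hsm : σ • B = Z ^ (kn hz (ui x hx) σ).val * B := RingOfIntegers.ext (kn_rt hz _ σ)
  have h1 := hσ B
  rw [hsm] at h1
  have h2 : (Z ^ (kn hz (ui x hx) σ).val - 1) * B ∈ Q := by
    rw [sub_mul, one_mul]
    exact h1
  have h3 := (hQ.isPrime.mem_or_mem h2).resolve_right hBQ
  have hpn : ((p ^ n : ℕ) : OO K) ∉ Q := by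
    intro h
    rw [Nat.cast_pow] at h
    exact hpQ (hQ.isPrime.mem_of_pow_mem n h)
  have h4 := Pool.Agent.Y802.root_eq hpn (x := Z ^ (kn hz (ui x hx) σ).val) (y := 1)
    (by rw [← pow_mul, mul_comm, pow_mul, hZN, one_pow]) (one_pow _) h3
    (posn (p := p) (n := n)).ne'
  have h5 : zz z ^ (kn hz (ui x hx) σ).val = zz z ^ (0 : ZMod (p ^ n)).val := by
    rw [ZMod.val_zero, pow_zero]
    exact congrArg (fun y : OO K => (y : AlgebraicClosure K)) h4
  exact pwn_inj (zzn_prim hz) h5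

theorem isUnit_of_c1 (hn : 0 < n) {x : ZMod (p ^ n)} (h : Pool.Agent.NH7.Abs.c1 hn x ≠ 0) :
    IsUnit x := by
  rw [← Pool.Agent.NH7.Abs.c1_val hn, Ne, ZMod.natCast_eq_zero_iff] at h
  rw [← ZMod.natCast_zmod_val x, ZMod.isUnit_iff_coprime]
  exact (Nat.Coprime.pow_right n ((hp.out.coprime_iff_not_dvd.2 h).symm))

/-- the Galois group of the field cut out by a character with a value which is a unit -/
theorem fldn_cyc {X : GK K → ZMod (p ^ n)} (hX : Continuous X)
    (hmul : ∀ g h, X (g * h) = X g + X h) {g : GK K} (hg : X g = 1) [IsGalois K (fld hmul)] :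
    (∀ τ : fld hmul ≃ₐ[K] fld hmul, τ ∈ Subgroup.zpowers
      (AlgEquiv.restrictNormalHom (fld hmul) g)) ∧
    Nat.card (fld hmul ≃ₐ[K] fld hmul) = p ^ n := by
  set r := AlgEquiv.restrictNormalHom (F := K) (K₁ := AlgebraicClosure K) (fld hmul) with hr
  have hker : ∀ h : GK K, r h = 1 ↔ X h = 0 := by
    intro h
    rw [← mem_kerX hmul, ← fld_fix hX hmul, IntermediateField.mem_fixingSubgroup_iff]
    constructor
    · intro h1 x hx
      have h2 := AlgEquiv.restrictNormal_commutes h (fld hmul) ⟨x, hx⟩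
      have h3 : h.restrictNormal (fld hmul) = 1 := h1
      rw [h3] at h2
      exact h2.symm
    · intro h1
      ext x
      have h2 := AlgEquiv.restrictNormal_commutes h (fld hmul) x
      exact h2.trans (h1 x x.2)
  have hXp : ∀ k : ZMod (p ^ n), X (g ^ k.val) = k := by
    intro k
    rw [Pool.Agent.NH7.Abs.x_pow hmul, hg, mul_one]
    simp
  have hsurj : Function.Surjective (fun k : ZMod (p ^ n) => r g ^ k.val) := by
    intro τ
    obtain ⟨h, rfl⟩ := AlgEquiv.restrictNormalHom_surjective (F := K) (K₁ := fld hmul)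
      (AlgebraicClosure K) τ
    refine ⟨X h, ?_⟩
    have h1 : r ((g ^ (X h).val)⁻¹ * h) = 1 := by
      rw [hker, hmul, X_inv hmul, hXp, neg_add_cancel]
    rw [map_mul, map_inv, inv_mul_eq_one, map_pow] at h1
    exact h1
  have hinj : Function.Injective (fun k : ZMod (p ^ n) => r g ^ k.val) := by
    intro k l hkl
    have h1 : r ((g ^ k.val)⁻¹ * g ^ l.val) = 1 := by
      rw [map_mul, map_inv, inv_mul_eq_one, map_pow, map_pow]
      exact hkl
    rw [hker, hmul, X_inv hmul, hXp, hXp, neg_add_eq_zero] at h1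
    exact h1
  constructor
  · intro τ
    obtain ⟨k, rfl⟩ := hsurj τ
    exact Subgroup.pow_mem _ (Subgroup.mem_zpowers _) _
  · rw [← Nat.card_eq_of_bijective _ ⟨hinj, hsurj⟩, Nat.card_zmod]

end Pool.Agent.NH7.Sch
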