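import Pool.Agent.NH7.Sch.Gal

/-!
# Lifting of elements of decomposition and inertia groups to the absolute Galois group
-/

set_option autoImplicit false
set_option linter.unusedSectionVars false

namespace Pool.Agent.NH7.Sch

open NumberField IsDedekindDomain Pool.Agent.W401.Cheb
open scoped Pointwise

variable {K : Type} [Field K] [NumberField K]

theorem smulComm' (M : IntermediateField K (AlgebraicClosure K)) :
    SMulCommClass M.fixingSubgroup (𝓞 M) (OO K) := by
  refine ⟨fun g a b => ?_⟩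
  apply RingOfIntegers.ext
  rw [Subgroup.smul_def, Subgroup.smul_def, coe_smul, Algebra.smul_def, Algebra.smul_def]
  show g.1 ((algebraMap (𝓞 M) (OO K) a : OO K) * (b : AlgebraicClosure K)) =
    (algebraMap (𝓞 M) (OO K) a : OO K) * g.1 b
  rw [map_mul]
  congr 1
  exact g.2 (a : M)

theorem isInv' (M : IntermediateField K (AlgebraicClosure K)) :
    Algebra.IsInvariant (𝓞 M) (OO K) M.fixingSubgroup := by
  refine ⟨fun b hb => ?_⟩
  have h1 : (b : AlgebraicClosure K) ∈ M := by
    rw [← InfiniteGalois.fixedField_fixingSubgroup M]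
    intro g
    exact congrArg (fun z : OO K => (z : AlgebraicClosure K)) (hb g)
  refine ⟨⟨⟨b, h1⟩, ?_⟩, ?_⟩
  · have h3 : IsIntegral ℤ (algebraMap M (AlgebraicClosure K) ⟨b, h1⟩) := b.2
    exact (isIntegral_algebraMap_iff (algebraMap M (AlgebraicClosure K)).injective).1 h3
  · apply RingOfIntegers.ext
    rfl

section

variable (M : IntermediateField K (AlgebraicClosure K)) [IsGalois K M]

theorem lift_aux (γ : M ≃ₐ[K] M) : ∃ g0 : GK K, (∀ x : M, g0 (x : AlgebraicClosure K) = γ x) ∧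
    ∀ a : 𝓞 M, g0 • (algebraMap (𝓞 M) (OO K) a) = algebraMap (𝓞 M) (OO K) (γ • a) := by
  obtain ⟨g0, hg0⟩ := AlgEquiv.restrictNormalHom_surjective (F := K) (K₁ := M)
    (AlgebraicClosure K) γ
  have h : ∀ x : M, g0 (x : AlgebraicClosure K) = γ x := by
    intro x
    have := AlgEquiv.restrictNormal_commutes g0 M x
    rw [← hg0]
    exact this.symm
  refine ⟨g0, h, fun a => ?_⟩
  apply RingOfIntegers.ext
  rw [coe_smul]
  exact h (a : M)

theorem dec_lift {Q : Ideal (OO K)} (hQ : Q.IsMaximal) (γ : M ≃ₐ[K] M)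
    (hγ : ∀ a : 𝓞 M, algebraMap (𝓞 M) (OO K) a ∈ Q ↔ algebraMap (𝓞 M) (OO K) (γ • a) ∈ Q) :
    ∃ τ ∈ Dec Q, ∀ x : M, τ (x : AlgebraicClosure K) = γ x := by
  have hclosed : IsClosed (M.fixingSubgroup : Set (GK K)) :=
    InfiniteGalois.fixingSubgroup_isClosed M
  have hcomm : SMulCommClass M.fixingSubgroup (𝓞 M) (OO K) := smulComm' M
  have hinv : Algebra.IsInvariant (𝓞 M) (OO K) M.fixingSubgroup := isInv' M
  have hcpt : CompactSpace M.fixingSubgroup := isCompact_iff_compactSpace.1 hclosed.isCompact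
  let _ : TopologicalSpace (OO K) := ⊥
  have : DiscreteTopology (OO K) := ⟨rfl⟩
  have hcont : ContinuousSMul (GK K) (OO K) := by
    rw [continuousSMul_iff_stabilizer_isOpen]
    intro x
    have h1 := stabilizer_isOpen_of_isIntegral (K := K) (x : AlgebraicClosure K)
    convert h1 using 2
    ext g
    rw [MulAction.mem_stabilizer_iff, MulAction.mem_stabilizer_iff]
    constructor
    · intro h
      exact congrArg (fun z : OO K => (z : AlgebraicClosure K)) h
    · intro h
      exact RingOfIntegers.ext h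
  have hcontU : ContinuousSMul M.fixingSubgroup (OO K) := inferInstance
  obtain ⟨g0, hg0, hres⟩ := lift_aux M γ
  have hres' : ∀ a : 𝓞 M, g0⁻¹ • (algebraMap (𝓞 M) (OO K) a) =
      algebraMap (𝓞 M) (OO K) (γ⁻¹ • a) := by
    intro a
    rw [inv_smul_eq_iff, hres, smul_inv_smul]
  have hQ' : (g0 • Q).IsPrime := inferInstance
  have hunder : (g0 • Q).under (𝓞 M) = Q.under (𝓞 M) := by
    ext a
    rw [Ideal.under_def, Ideal.mem_comap, Ideal.under_def, Ideal.mem_comap,
      Ideal.mem_pointwise_smul_iff_inv_smul_mem, hres', hγ, smul_inv_smul]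
  obtain ⟨h, hh⟩ := Algebra.IsInvariant.exists_smul_of_under_eq_of_profinite
    (A := 𝓞 M) (G := M.fixingSubgroup) (g0 • Q) Q hunder
  have hg1Q : (h.1 * g0) • Q = Q := by
    rw [mul_smul]
    exact hh.symm
  refine ⟨h.1 * g0, fun x => ?_, fun x => ?_⟩
  · conv_rhs => rw [← hg1Q]
    exact Ideal.smul_mem_pointwise_smul_iff.symm
  · rw [AlgEquiv.mul_apply, hg0]
    exact h.2 (γ x)

theorem inr_lift {Q : Ideal (OO K)} (hQ : Q.IsMaximal) (γ : M ≃ₐ[K] M)
    (hγ : ∀ a : 𝓞 M, algebraMap (𝓞 M) (OO K) (γ • a - a) ∈ Q) :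
    ∃ τ ∈ Inr Q, ∀ x : M, τ (x : AlgebraicClosure K) = γ x := by
  obtain ⟨g1, hg1, hg1γ⟩ := dec_lift M hQ γ (fun a => by
    have h := hγ a
    rw [map_sub] at h
    constructor
    · intro h2
      have := Q.add_mem h h2
      rwa [sub_add_cancel] at this
    · intro h2
      have := Q.sub_mem h2 h
      rwa [sub_sub_cancel] at this)
  have hclosed : IsClosed (M.fixingSubgroup : Set (GK K)) :=
    InfiniteGalois.fixingSubgroup_isClosed M
  have hcomm : SMulCommClass M.fixingSubgroup (𝓞 M) (OO K) := smulComm' M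
  have hinv : Algebra.IsInvariant (𝓞 M) (OO K) M.fixingSubgroup := isInv' M
  have hcpt : CompactSpace M.fixingSubgroup := isCompact_iff_compactSpace.1 hclosed.isCompact
  let _ : TopologicalSpace (OO K) := ⊥
  have : DiscreteTopology (OO K) := ⟨rfl⟩
  have hcont : ContinuousSMul (GK K) (OO K) := by
    rw [continuousSMul_iff_stabilizer_isOpen]
    intro x
    have h1 := stabilizer_isOpen_of_isIntegral (K := K) (x : AlgebraicClosure K)
    convert h1 using 2
    ext g
    rw [MulAction.mem_stabilizer_iff, MulAction.mem_stabilizer_iff]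
    constructor
    · intro h
      exact congrArg (fun z : OO K => (z : AlgebraicClosure K)) h
    · intro h
      exact RingOfIntegers.ext h
  have hcontU : ContinuousSMul M.fixingSubgroup (OO K) := inferInstance
  set P : Ideal (𝓞 M) := Q.under (𝓞 M) with hP
  have hg1Q : g1 • Q = Q := by
    ext x
    rw [Ideal.mem_pointwise_smul_iff_inv_smul_mem, hg1, smul_inv_smul]
  have hmap : Q = Q.map (MulSemiringAction.toRingEquiv (GK K) (OO K) g1 : OO K →+* OO K) := by
    conv_lhs => rw [← hg1Q]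
    rw [Ideal.pointwise_smul_def]
    rfl
  have hres1 : ∀ a : 𝓞 M, g1 • (algebraMap (𝓞 M) (OO K) a) =
      algebraMap (𝓞 M) (OO K) (γ • a) := by
    intro a
    apply RingOfIntegers.ext
    rw [coe_smul]
    exact hg1γ (a : M)
  let σ : (OO K ⧸ Q) ≃ₐ[𝓞 M ⧸ P] (OO K ⧸ Q) :=
    AlgEquiv.ofRingEquiv (f := Ideal.quotientEquiv Q Q
      (MulSemiringAction.toRingEquiv (GK K) (OO K) g1) hmap) (by
      intro a
      obtain ⟨a, rfl⟩ := Ideal.Quotient.mk_surjective a
      show Ideal.Quotient.mk Q (g1 • algebraMap (𝓞 M) (OO K) a) =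
        Ideal.Quotient.mk Q (algebraMap (𝓞 M) (OO K) a)
      rw [Ideal.Quotient.mk_eq_mk_iff_sub_mem, hres1, ← map_sub]
      exact hγ a)
  obtain ⟨k, hk⟩ := Ideal.Quotient.stabilizerHom_surjective_of_profinite
    (G := M.fixingSubgroup) P Q σ
  have hk' : ∀ x : OO K, g1 • x - k.1.1 • x ∈ Q := by
    intro x
    have h1 := DFunLike.congr_fun hk (Ideal.Quotient.mk Q x)
    rw [Ideal.Quotient.stabilizerHom_apply] at h1
    rw [← Ideal.Quotient.mk_eq_mk_iff_sub_mem]
    exact h1.symm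
  obtain ⟨k1, hkU, hkQ, hk'⟩ : ∃ k1 : GK K, k1 ∈ M.fixingSubgroup ∧ k1 • Q = Q ∧
      ∀ x : OO K, g1 • x - k1 • x ∈ Q := ⟨k.1.1, k.1.2, k.2, hk'⟩
  refine ⟨k1⁻¹ * g1, fun x => ?_, fun x => ?_⟩
  · have h1 := hk' x
    rw [← hkQ, Ideal.mem_pointwise_smul_iff_inv_smul_mem, smul_sub, inv_smul_smul,
      ← mul_smul] at h1
    exact h1
  · rw [AlgEquiv.mul_apply, hg1γ]
    exact (M.fixingSubgroup.inv_mem hkU) (γ x)

end

end Pool.Agent.NH7.Sch
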