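import Pool.Agent.NH7.Sch.App
import Pool.Agent.Y158.KL.Cls
import Pool.Agent.W401.Cheb.Frob

/-!
# Norms of local `p`-th powers
-/

set_option autoImplicit false
set_option linter.unusedSectionVars false

namespace Pool.Agent.NH7.Sch

open NumberField IsDedekindDomain Pool.Agent.W401.Cheb WithZero

variable {K : Type} [Field K] [NumberField K] {p : ℕ} [hp : Fact p.Prime]

/-- the prime to `p` part of the norm -/
noncomputable def nc (p : ℕ) (I : Ideal (𝓞 K)) : ℕ := ordCompl[p] (Ideal.absNorm I)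

theorem nc_mul (I J : Ideal (𝓞 K)) : nc p (I * J) = nc p I * nc p J := by
  unfold nc
  rw [map_mul, Nat.ordCompl_mul]

theorem nc_top : nc p (⊤ : Ideal (𝓞 K)) = 1 := by
  unfold nc
  rw [Ideal.absNorm_top]
  have h := Nat.ordCompl_self_pow (k := 0) hp.out
  rwa [pow_zero] at h

theorem nc_pow (I : Ideal (𝓞 K)) (n : ℕ) : nc p (I ^ n) = nc p I ^ n := by
  induction n with
  | zero => rw [pow_zero, pow_zero, Ideal.one_eq_top, nc_top]
  | succ n ih => rw [pow_succ, pow_succ, nc_mul, ih]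

theorem nc_above {v : HeightOneSpectrum (𝓞 K)} (hv : (p : 𝓞 K) ∈ v.asIdeal) :
    nc p v.asIdeal = 1 := by
  have := v.isMaximal
  obtain ⟨q, n, hn, hq, hqp, he⟩ := Ideal.exists_prime_and_absNorm_eq_pow v.asIdeal
  have hqp' : q = p := by
    by_contra hne
    have h1 : IsCoprime (q : ℤ) (p : ℤ) :=
      Nat.isCoprime_iff_coprime.2 ((Nat.coprime_primes hqp hp.out).2 hne)
    obtain ⟨a, b, hab⟩ := h1
    apply v.isPrime.ne_top
    rw [Ideal.eq_top_iff_one]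
    have h2 : (1 : 𝓞 K) = (a : 𝓞 K) * q + (b : 𝓞 K) * p := by
      exact_mod_cast congrArg (fun z : ℤ => (z : 𝓞 K)) hab.symm
    rw [h2]
    exact Ideal.add_mem _ (Ideal.mul_mem_left _ _ hq) (Ideal.mul_mem_left _ _ hv)
  unfold nc
  rw [he, hqp', Nat.ordCompl_self_pow hp.out]

theorem not_dvd_norm {v : HeightOneSpectrum (𝓞 K)} (hv : (p : 𝓞 K) ∉ v.asIdeal) :
    ¬ p ∣ Ideal.absNorm v.asIdeal := by
  have := v.isMaximal
  obtain ⟨q, n, hn, hq, hqp, he⟩ := Ideal.exists_prime_and_absNorm_eq_pow v.asIdeal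
  intro h
  rw [he] at h
  have h2 := (Nat.prime_dvd_prime_iff_eq hp.out hqp).1 (hp.out.dvd_of_dvd_pow h)
  rw [h2] at hv
  exact hv hq

theorem nc_below {v : HeightOneSpectrum (𝓞 K)} (hv : (p : 𝓞 K) ∉ v.asIdeal) :
    nc p v.asIdeal = Ideal.absNorm v.asIdeal :=
  (Nat.ordCompl_eq_self_iff_zero_or_not_dvd _ hp.out).2 (Or.inr (not_dvd_norm hv))

/-- the norm of an ideal prime to `p` is prime to `p` -/
theorem not_dvd_absNorm (I : Ideal (𝓞 K)) (hI : I ≠ 0)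
    (h : ∀ v : HeightOneSpectrum (𝓞 K), (p : 𝓞 K) ∈ v.asIdeal → ¬ I ≤ v.asIdeal) :
    ¬ p ∣ Ideal.absNorm I := by
  revert hI h
  refine UniqueFactorizationMonoid.induction_on_prime I ?_ ?_ ?_
  · intro h
    exact absurd rfl h
  · intro J hJ _ _ h
    rw [Ideal.isUnit_iff.1 hJ, Ideal.absNorm_top] at h
    exact hp.out.one_lt.ne' (Nat.dvd_one.1 h)
  · intro J P hJ hP ih _ h hd
    rw [map_mul] at hd
    let w : HeightOneSpectrum (𝓞 K) := ⟨P, Ideal.isPrime_of_prime hP, hP.ne_zero⟩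
    rcases (hp.out.dvd_mul.1 hd) with h1 | h1
    · by_cases hpP : (p : 𝓞 K) ∈ w.asIdeal
      · exact h w hpP Ideal.mul_le_left
      · exact not_dvd_norm hpP h1
    · exact ih hJ (fun v hv hle => h v hv (Ideal.mul_le_right.trans hle)) h1

theorem norm_mod {a : ℕ} {ζa : K} (hζa : IsPrimitiveRoot ζa (p ^ a)) {v : HeightOneSpectrum (𝓞 K)}
    (hv : (p : 𝓞 K) ∉ v.asIdeal) : ((Ideal.absNorm v.asIdeal : ℕ) : ZMod (p ^ a)) = 1 := by
  obtain ⟨σ, hσ⟩ := Pool.Agent.W401.Frob.exists_frob v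
  have h1 := Pool.Agent.Y802.chi_frob (p := p) hv hσ
  have h2 := chi_one (p := p) hζa σ
  rw [h1, ← toZModPow_one_iff, map_natCast] at h2
  exact h2

theorem nc_mod {a : ℕ} {ζa : K} (hζa : IsPrimitiveRoot ζa (p ^ a)) (I : Ideal (𝓞 K)) (hI : I ≠ 0) :
    ((nc p I : ℕ) : ZMod (p ^ a)) = 1 := by
  revert hI
  refine UniqueFactorizationMonoid.induction_on_prime I ?_ ?_ ?_
  · intro h
    exact absurd rfl h
  · intro J hJ _
    rw [Ideal.isUnit_iff.1 hJ, nc_top, Nat.cast_one]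
  · intro J P hJ hP ih _
    let w : HeightOneSpectrum (𝓞 K) := ⟨P, Ideal.isPrime_of_prime hP, hP.ne_zero⟩
    rw [nc_mul, Nat.cast_mul, ih hJ, mul_one]
    by_cases hpP : (p : 𝓞 K) ∈ w.asIdeal
    · have h1 := nc_above hpP
      change nc p P = 1 at h1
      rw [h1, Nat.cast_one]
    · have h1 := nc_below hpP
      change nc p P = Ideal.absNorm P at h1
      have h2 := norm_mod (v := w) hζa hpP
      have h3 : w.asIdeal = P := rfl
      rw [h3] at h2
      rw [h1, h2]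

theorem pow_mod {a : ℕ} (ha : 0 < a) {m : ℤ} (h : ((p ^ a : ℕ) : ℤ) ∣ m - 1) :
    ((p ^ (a + 1) : ℕ) : ℤ) ∣ m ^ p - 1 := by
  have h1 : (m - 1) * ∑ i ∈ Finset.range p, m ^ i = m ^ p - 1 := mul_geom_sum m p
  rw [← h1]
  push_cast
  rw [pow_succ]
  refine mul_dvd_mul (by exact_mod_cast h) ?_
  have h2 : (p : ℤ) ∣ m - 1 := by
    refine dvd_trans ?_ h
    push_cast
    exact dvd_pow_self _ ha.ne'
  have h3 : ∀ i ∈ Finset.range p, (p : ℤ) ∣ m ^ i - 1 := fun i _ =>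
    h2.trans (by simpa using sub_dvd_pow_sub_pow m 1 i)
  have h4 : ∑ i ∈ Finset.range p, m ^ i = ∑ i ∈ Finset.range p, (m ^ i - 1) + p := by
    rw [Finset.sum_sub_distrib]
    simp
  rw [h4]
  exact dvd_add (Finset.dvd_sum h3) dvd_rfl

theorem pow_mod' {a : ℕ} (ha : 0 < a) {m : ℕ} (h : (m : ZMod (p ^ a)) = 1) :
    ((m ^ p : ℕ) : ZMod (p ^ (a + 1))) = 1 := by
  have h1 : ((p ^ a : ℕ) : ℤ) ∣ (m : ℤ) - 1 := by
    rw [← ZMod.intCast_zmod_eq_zero_iff_dvd]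
    push_cast
    rw [h, sub_self]
  have h2 := pow_mod ha h1
  rw [← ZMod.intCast_zmod_eq_zero_iff_dvd] at h2
  push_cast at h2 ⊢
  exact sub_eq_zero.1 h2

section gen

variable (K) in
/-- the class number -/
noncomputable abbrev hh : ℕ := classNumber K

theorem exists_gen (v : HeightOneSpectrum (𝓞 K)) :
    ∃ g : 𝓞 K, g ≠ 0 ∧ Ideal.span {g} = v.asIdeal ^ hh K := by
  classical
  have hI' : v.asIdeal ∈ nonZeroDivisors (Ideal (𝓞 K)) := mem_nonZeroDivisors_iff_ne_zero.2 v.ne_bot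
  have h1 : ClassGroup.mk0 (⟨v.asIdeal, hI'⟩ : nonZeroDivisors (Ideal (𝓞 K))) ^ hh K = 1 := by
    exact pow_card_eq_one
  rw [← map_pow, ClassGroup.mk0_eq_one_iff] at h1
  obtain ⟨g, hg⟩ := h1
  change v.asIdeal ^ hh K = Ideal.span {g} at hg
  refine ⟨g, ?_, hg.symm⟩
  rintro rfl
  rw [Ideal.span_singleton_eq_bot.2 rfl] at hg
  exact pow_ne_zero _ v.ne_bot hg

/-- a generator of the `h`-th power -/
noncomputable def gi (v : HeightOneSpectrum (𝓞 K)) : 𝓞 K := Classical.choose (exists_gen v)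

theorem gi_ne (v : HeightOneSpectrum (𝓞 K)) : gi v ≠ 0 := (Classical.choose_spec (exists_gen v)).1

theorem gi_span (v : HeightOneSpectrum (𝓞 K)) : Ideal.span {gi v} = v.asIdeal ^ hh K :=
  (Classical.choose_spec (exists_gen v)).2

/-- a nonzero integer as a unit of `K` -/
noncomputable def ui (x : 𝓞 K) (hx : x ≠ 0) : Kˣ :=
  Units.mk0 (algebraMap (𝓞 K) K x)
    ((map_ne_zero_iff _ (FaithfulSMul.algebraMap_injective (𝓞 K) K)).2 hx)

theorem coe_ui (x : 𝓞 K) (hx : x ≠ 0) : ((ui x hx : Kˣ) : K) = algebraMap (𝓞 K) K x := rfl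

/-- the generator as a unit of `K` -/
noncomputable def gg (v : HeightOneSpectrum (𝓞 K)) : Kˣ := ui (gi v) (gi_ne v)

theorem coe_gg (v : HeightOneSpectrum (𝓞 K)) : ((gg v : Kˣ) : K) = algebraMap (𝓞 K) K (gi v) := rfl

theorem od_ui_le (w : HeightOneSpectrum (𝓞 K)) (x : 𝓞 K) (hx : x ≠ 0) : od w (ui x hx) ≤ 0 := by
  have h1 : w.valuation K ((ui x hx : Kˣ) : K) ≤ 1 := w.valuation_le_one (K := K) x
  rw [val_od, ← exp_zero, exp_le_exp] at h1
  exact h1

theorem od_ui_mem (w : HeightOneSpectrum (𝓞 K)) (x : 𝓞 K) (hx : x ≠ 0) (n : ℕ) :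
    od w (ui x hx) ≤ -n ↔ x ∈ w.asIdeal ^ n := by
  have h1 : w.valuation K ((ui x hx : Kˣ) : K) = w.intValuation x :=
    w.valuation_of_algebraMap (K := K) x
  rw [← w.intValuation_le_pow_iff_mem, ← h1, val_od, exp_le_exp]

theorem od_ui_zero (w : HeightOneSpectrum (𝓞 K)) (x : 𝓞 K) (hx : x ≠ 0) (h : x ∉ w.asIdeal) :
    od w (ui x hx) = 0 := by
  have h1 := od_ui_le w x hx
  have h2 := (od_ui_mem w x hx 1).not.2 (by rwa [pow_one])
  push_cast at h2
  omega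

theorem od_gg_self (v : HeightOneSpectrum (𝓞 K)) : od v (gg v) = -(hh K : ℤ) := by
  have h1 : od v (gg v) ≤ -(hh K : ℕ) := by
    rw [gg, od_ui_mem, ← gi_span]
    exact Ideal.mem_span_singleton_self _
  have h2 : ¬ od v (gg v) ≤ -((hh K + 1 : ℕ) : ℤ) := by
    rw [gg, od_ui_mem, ← Ideal.span_singleton_le_iff_mem, gi_span]
    intro hle
    have h3 := Ideal.pow_right_strictAnti v.asIdeal v.ne_bot v.isPrime.ne_top
      (Nat.lt_succ_self (hh K))
    exact absurd (lt_of_lt_of_le h3 hle) (lt_irrefl _)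
  push_cast at h2
  omega

theorem od_gg_ne {v w : HeightOneSpectrum (𝓞 K)} (h : w ≠ v) : od w (gg v) = 0 := by
  apply od_ui_zero
  intro hm
  rw [← Ideal.span_singleton_le_iff_mem, gi_span] at hm
  have h1 := w.isPrime.le_of_pow_le hm
  have h2 : v.asIdeal = w.asIdeal := v.isMaximal.eq_of_le w.isPrime.ne_top h1
  exact h (HeightOneSpectrum.ext h2.symm)

theorem nc_gi (v : HeightOneSpectrum (𝓞 K)) :
    nc p (Ideal.span {gi v}) = nc p v.asIdeal ^ hh K := by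
  rw [gi_span, nc_pow]

theorem nc_span_mul (x y : 𝓞 K) :
    nc p (Ideal.span {x * y}) = nc p (Ideal.span {x}) * nc p (Ideal.span {y}) := by
  rw [← Ideal.span_singleton_mul_span_singleton, nc_mul]

theorem nc_span_pow (x : 𝓞 K) (n : ℕ) :
    nc p (Ideal.span {x ^ n}) = nc p (Ideal.span {x}) ^ n := by
  rw [← Ideal.span_singleton_pow, nc_pow]

theorem nc_span_unit (u : (𝓞 K)ˣ) : nc p (Ideal.span {(u : 𝓞 K)}) = 1 := by
  rw [Ideal.span_singleton_eq_top.2 u.isUnit, nc_top]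

/-- an element whose orders are not positive is integral -/
theorem int_of_od {κ : Kˣ} (h : ∀ v : HeightOneSpectrum (𝓞 K), od v κ ≤ 0) :
    ∃ (x : 𝓞 K) (hx : x ≠ 0), κ = ui x hx := by
  obtain ⟨x, hx⟩ := HeightOneSpectrum.mem_integers_of_valuation_le_one K (κ : K) (fun v => by
    rw [val_od, ← exp_zero, exp_le_exp]
    exact h v)
  have hx0 : x ≠ 0 := by
    rintro rfl
    rw [map_zero] at hx
    exact κ.ne_zero hx.symm
  exact ⟨x, hx0, Units.ext hx.symm⟩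

theorem ui_mul (x y : 𝓞 K) (hx : x ≠ 0) (hy : y ≠ 0) :
    ui x hx * ui y hy = ui (x * y) (mul_ne_zero hx hy) := by
  apply Units.ext
  rw [Units.val_mul, coe_ui, coe_ui, coe_ui, map_mul]

theorem ui_pow (x : 𝓞 K) (hx : x ≠ 0) (n : ℕ) : ui x hx ^ n = ui (x ^ n) (pow_ne_zero n hx) := by
  apply Units.ext
  rw [Units.val_pow_eq_pow_val, coe_ui, coe_ui, map_pow]

theorem ui_inj {x y : 𝓞 K} {hx : x ≠ 0} {hy : y ≠ 0} (h : ui x hx = ui y hy) : x = y := by
  have h1 := congrArg (fun z : Kˣ => (z : K)) h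
  exact FaithfulSMul.algebraMap_injective (𝓞 K) K h1

end gen

end Pool.Agent.NH7.Sch
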