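import Pool.Agent.NH7.Sch.Nu

/-!
# Norms of local `p`-th powers, II
-/

set_option autoImplicit false
set_option linter.unusedSectionVars false

namespace Pool.Agent.NH7.Sch

open NumberField IsDedekindDomain Pool.Agent.W401.Cheb WithZero

variable {K : Type} [Field K] [NumberField K] {p : ℕ} [hp : Fact p.Prime]

theorem norm_congr {x y : 𝓞 K} {m : ℕ} (h : (m : 𝓞 K) ∣ x - y) :
    ((Algebra.norm ℤ x : ℤ) : ZMod m) = (Algebra.norm ℤ y : ℤ) := by
  obtain ⟨c, hc⟩ := h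
  have hx : x = y + (m : ℤ) • c := by
    rw [zsmul_eq_mul]
    push_cast
    rw [← hc]
    ring
  let b := RingOfIntegers.basis K
  rw [Algebra.norm_eq_matrix_det b x, Algebra.norm_eq_matrix_det b y, hx, map_add, map_zsmul]
  have e : ∀ {n : Type} [Fintype n] [DecidableEq n] (A : Matrix n n ℤ),
      ((A.det : ℤ) : ZMod m) = ((Int.castRingHom (ZMod m)).mapMatrix A).det :=
    fun A => (Int.castRingHom (ZMod m)).map_det A
  rw [e, e, map_add, map_zsmul]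
  congr 1
  have : (m : ℤ) • ((Int.castRingHom (ZMod m)).mapMatrix (Algebra.leftMulMatrix b c)) = 0 := by
    ext i j
    rw [Matrix.smul_apply, zsmul_eq_mul]
    simp
  rw [this, add_zero]

theorem cast_natAbs' (z : ℤ) (m : ℕ) :
    (z : ZMod m) = (z.natAbs : ZMod m) ∨ (z : ZMod m) = -(z.natAbs : ZMod m) := by
  rcases Int.natAbs_eq z with h | h
  · left
    conv_lhs => rw [h]
    rw [Int.cast_natCast]
  · right
    conv_lhs => rw [h]
    rw [Int.cast_neg, Int.cast_natCast]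

section

variable {ζ : K} (hζ : IsPrimitiveRoot ζ p) {a : ℕ} (ha : 0 < a) (h2 : 2 < p ^ a) {ζa : K}
  (hζa : IsPrimitiveRoot ζa (p ^ a)) {l : HeightOneSpectrum (𝓞 K)}
  (hl : ∀ v : HeightOneSpectrum (𝓞 K), (p : 𝓞 K) ∈ v.asIdeal → v = l)
  (hlp : (p : 𝓞 K) ∈ l.asIdeal)

theorem p_ne' : (p : 𝓞 K) ≠ 0 := by exact_mod_cast hp.out.ne_zero

include hl in
theorem od_p {v : HeightOneSpectrum (𝓞 K)} (hv : v ≠ l) (n : ℕ) :
    od v (ui ((p : 𝓞 K) ^ n) (pow_ne_zero n p_ne')) = 0 := by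
  rw [← ui_pow _ p_ne', od_pow, od_ui_zero v _ _ (fun h => hv (hl v h)), mul_zero]

include hl in
theorem dvd_of_mem {y : 𝓞 K} (n : ℕ) {N : ℕ}
    (hN : -(N : ℤ) ≤ od l (ui ((p : 𝓞 K) ^ n) (pow_ne_zero n p_ne'))) (hy : y ∈ l.asIdeal ^ N) :
    (p : 𝓞 K) ^ n ∣ y := by
  by_cases hy0 : y = 0
  · rw [hy0]
    exact dvd_zero _
  obtain ⟨z, hz, he⟩ := int_of_od (κ := ui y hy0 *
    (ui ((p : 𝓞 K) ^ n) (pow_ne_zero n p_ne'))⁻¹) (fun v => by
    rw [od_mul, od_inv]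
    by_cases hv : v = l
    · subst hv
      have := (od_ui_mem v y hy0 N).2 hy
      omega
    · rw [od_p hl hv, neg_zero, add_zero]
      exact od_ui_le v y hy0)
  rw [mul_inv_eq_iff_eq_mul, mul_comm, ui_mul] at he
  exact ⟨z, ui_inj he⟩

include hζ ha h2 hζa hl hlp in
theorem nu_prime {Q : Ideal (OO K)} (hQ : Q.IsMaximal)
    (hQl : Q.comap (algebraMap (𝓞 K) (OO K)) = l.asIdeal) {x : 𝓞 K} (hx : x ≠ 0)
    (hxl : x ∉ l.asIdeal) (h : ∀ σ ∈ Dec Q, kp hζ (ui x hx) σ = 0) :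
    ((nc p (Ideal.span {x}) : ℕ) : ZMod (p ^ (a + 1))) = 1 := by
  obtain ⟨N, hN⟩ : ∃ N : ℕ,
      od l (ui ((p : 𝓞 K) ^ (a + 1)) (pow_ne_zero (a + 1) p_ne')) = -(N : ℤ) := by
    have h1 := od_ui_le l ((p : 𝓞 K) ^ (a + 1)) (pow_ne_zero (a + 1) p_ne')
    exact ⟨(-od l (ui ((p : 𝓞 K) ^ (a + 1)) (pow_ne_zero (a + 1) p_ne'))).toNat, by omega⟩
  obtain ⟨γ, hγ⟩ := approx hζ hQ hQl (coe_ui x hx).symm h (N + 1)
  have hγl : γ ∉ l.asIdeal := by
    intro hm
    apply hxl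
    have h3 : γ ^ p - x ∈ l.asIdeal := Ideal.pow_le_self (by omega) hγ
    have h4 : γ ^ p ∈ l.asIdeal := l.asIdeal.pow_mem_of_mem hm p hp.out.pos
    have h5 := l.asIdeal.sub_mem h4 h3
    rwa [sub_sub_cancel] at h5
  have hγ0 : γ ≠ 0 := by
    rintro rfl
    exact hγl l.asIdeal.zero_mem
  have hdvd : (p : 𝓞 K) ^ (a + 1) ∣ γ ^ p - x := dvd_of_mem hl (a + 1) hN.symm.le
    (Ideal.pow_le_pow_right (Nat.le_succ N) hγ)
  have hnorm := norm_congr (m := p ^ (a + 1)) (x := γ ^ p) (y := x) (by exact_mod_cast hdvd)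
  have hno : ∀ y : 𝓞 K, y ≠ 0 → y ∉ l.asIdeal →
      nc p (Ideal.span {y}) = (Algebra.norm ℤ y).natAbs := by
    intro y hy hyl
    have h3 : ¬ p ∣ Ideal.absNorm (Ideal.span {y}) := by
      refine not_dvd_absNorm _ ?_ ?_
      · rw [Ne, Ideal.zero_eq_bot, Ideal.span_singleton_eq_bot]
        exact hy
      · intro v hv hle
        rw [Ideal.span_singleton_le_iff_mem, hl v hv] at hle
        exact hyl hle
    unfold nc
    rw [(Nat.ordCompl_eq_self_iff_zero_or_not_dvd _ hp.out).2 (Or.inr h3),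
      Ideal.absNorm_span_singleton]
  have hsp : ∀ y : 𝓞 K, y ≠ 0 → Ideal.span {y} ≠ 0 := by
    intro y hy
    rw [Ne, Ideal.zero_eq_bot, Ideal.span_singleton_eq_bot]
    exact hy
  have hx1 := nc_mod (p := p) hζa (Ideal.span {x}) (hsp x hx)
  have hγ1 := nc_mod (p := p) hζa (Ideal.span {γ}) (hsp γ hγ0)
  rw [hno x hx hxl] at hx1 ⊢
  rw [hno γ hγ0 hγl] at hγ1
  have hγ2 := pow_mod' ha hγ1
  push_cast at hγ2
  rw [map_pow] at hnorm
  push_cast at hnorm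
  set nx := (Algebra.norm ℤ x).natAbs with hnx
  set ng := (Algebra.norm ℤ γ).natAbs with hng
  have e1 : ((Algebra.norm ℤ x : ℤ) : ZMod (p ^ (a + 1))) = nx ∨
      ((Algebra.norm ℤ x : ℤ) : ZMod (p ^ (a + 1))) = -(nx : ZMod (p ^ (a + 1))) :=
    cast_natAbs' _ _
  have e2 : ((Algebra.norm ℤ γ : ℤ) : ZMod (p ^ (a + 1))) ^ p = 1 ∨
      ((Algebra.norm ℤ γ : ℤ) : ZMod (p ^ (a + 1))) ^ p = -1 := by
    rcases cast_natAbs' (Algebra.norm ℤ γ) (p ^ (a + 1)) with h3 | h3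
    · left
      rw [h3, ← hng]
      exact hγ2
    · rw [h3, ← hng, neg_pow, hγ2, mul_one]
      exact neg_one_pow_eq_or _ _
  have e3 : (nx : ZMod (p ^ (a + 1))) = 1 ∨ (nx : ZMod (p ^ (a + 1))) = -1 := by
    rcases e1 with e1 | e1 <;> rcases e2 with e2 | e2 <;> rw [e1, e2] at hnorm
    · exact Or.inl hnorm.symm
    · exact Or.inr hnorm.symm
    · right
      rw [hnorm, neg_neg]
    · left
      rw [neg_inj] at hnorm
      exact hnorm.symm
  rcases e3 with e3 | e3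
  · exact e3
  · exfalso
    have h3 : ((p ^ (a + 1) : ℕ) : ℤ) ∣ (nx : ℤ) + 1 := by
      rw [← ZMod.intCast_zmod_eq_zero_iff_dvd]
      push_cast
      rw [e3, neg_add_cancel]
    have h4 : ((p ^ a : ℕ) : ℤ) ∣ (nx : ℤ) - 1 := by
      rw [← ZMod.intCast_zmod_eq_zero_iff_dvd]
      push_cast
      rw [hx1, sub_self]
    have h5 : ((p ^ a : ℕ) : ℤ) ∣ (nx : ℤ) + 1 := dvd_trans
      (by exact_mod_cast pow_dvd_pow p (Nat.le_succ a)) h3
    have h6 := dvd_sub h5 h4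
    have h7 : (nx : ℤ) + 1 - (nx - 1) = 2 := by ring
    rw [h7] at h6
    have h8 := Int.le_of_dvd (by norm_num) h6
    have h9 : ((p ^ a : ℕ) : ℤ) > 2 := by exact_mod_cast h2
    omega

include hζ ha h2 hζa hl hlp in
/-- the norm of a local `p`-th power -/
theorem nu_dec {Q : Ideal (OO K)} (hQ : Q.IsMaximal)
    (hQl : Q.comap (algebraMap (𝓞 K) (OO K)) = l.asIdeal) {x : 𝓞 K} (hx : x ≠ 0)
    (h : ∀ σ ∈ Dec Q, kp hζ (ui x hx) σ = 0) :
    ((nc p (Ideal.span {x}) : ℕ) : ZMod (p ^ (a + 1))) ^ hh K = 1 := by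
  obtain ⟨k, hk⟩ := od_dvd_of_inr hζ hQ hQl (κ := ui x hx) (fun σ hσ => h σ (Inr_le Q hσ))
  have hk0 := od_ui_le l x hx
  rw [hk] at hk0
  have hpz : (0 : ℤ) < p := by exact_mod_cast hp.out.pos
  have hk1 : k ≤ 0 := by
    by_contra hcon
    push Not at hcon
    have := mul_pos hpz hcon
    omega
  obtain ⟨k', rfl⟩ : ∃ k' : ℕ, k = -(k' : ℤ) := ⟨(-k).toNat, by omega⟩
  obtain ⟨x', hx', he⟩ := int_of_od (κ := ui x hx ^ hh K * (gg l ^ (k' * p))⁻¹) (fun v => by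
    rw [od_mul, od_inv, od_pow, od_pow]
    by_cases hv : v = l
    · subst hv
      rw [hk, od_gg_self]
      push_cast
      apply le_of_eq
      ring
    · rw [od_gg_ne hv, mul_zero, neg_zero, add_zero]
      exact mul_nonpos_of_nonneg_of_nonpos (by positivity) (od_ui_le v x hx))
  have hod : od l (ui x' hx') = 0 := by
    rw [← he, od_mul, od_inv, od_pow, od_pow, hk, od_gg_self]
    push_cast
    ring
  have hx'l : x' ∉ l.asIdeal := by
    intro hm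
    have := (od_ui_mem l x' hx' 1).2 (by rwa [pow_one])
    rw [hod] at this
    omega
  have h3 : ∀ σ ∈ Dec Q, kp hζ (ui x' hx') σ = 0 := by
    intro σ hσ
    rw [← he, kp_mul_left, kp_inv_left, kp_pow, kp_pow, h σ hσ]
    push_cast
    rw [CharP.cast_eq_zero (ZMod p) p]
    ring
  have h4 := nu_prime hζ ha h2 hζa hl hlp hQ hQl hx' hx'l h3
  have h5 : x ^ hh K = gi l ^ (k' * p) * x' := by
    rw [mul_inv_eq_iff_eq_mul] at he
    have h6 : ui (x ^ hh K) (pow_ne_zero _ hx) =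
        ui (gi l ^ (k' * p) * x') (mul_ne_zero (pow_ne_zero _ (gi_ne l)) hx') := by
      rw [← ui_pow x hx, he, ← ui_mul _ _ (pow_ne_zero _ (gi_ne l)) hx', ← ui_pow _ (gi_ne l),
        mul_comm]
      rfl
    exact ui_inj h6
  have h6 : nc p (Ideal.span {gi l}) = 1 := by
    rw [nc_gi, nc_above hlp, one_pow]
  have h7 : nc p (Ideal.span {x}) ^ hh K = nc p (Ideal.span {x'}) := by
    rw [← nc_span_pow, h5, nc_span_mul, nc_span_pow, h6, one_pow, one_mul]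
  rw [← Nat.cast_pow, h7, h4]

include ha hζa hlp in
/-- the norm of an element which is unramified outside `l` -/
theorem nu_unr (hcop : (classNumber K).Coprime p) {x : 𝓞 K} (hx : x ≠ 0)
    (h : ∀ v : HeightOneSpectrum (𝓞 K), v ≠ l → (p : ℤ) ∣ od v (ui x hx)) :
    ((nc p (Ideal.span {x}) : ℕ) : ZMod (p ^ (a + 1))) = 1 := by
  have hh0 : ((hh K : ℕ) : ZMod p) ≠ 0 := by
    rw [Ne, ZMod.natCast_eq_zero_iff]
    intro hd
    exact hp.out.one_lt.ne' (Nat.dvd_one.1 (hcop ▸ Nat.dvd_gcd hd dvd_rfl))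
  set t : ℕ := ((od l (ui x hx) : ZMod p) * (hh K : ZMod p)⁻¹).val with ht
  have hall : ∀ v : HeightOneSpectrum (𝓞 K), (p : ℤ) ∣ od v (ui x hx * gg l ^ t) := by
    intro v
    rw [od_mul, od_pow]
    by_cases hv : v = l
    · subst hv
      rw [od_gg_self, ← ZMod.intCast_zmod_eq_zero_iff_dvd]
      push_cast
      rw [ht]
      simp only [ZMod.natCast_val, ZMod.cast_id', id_eq]
      rw [mul_neg, mul_assoc, inv_mul_cancel₀ hh0, mul_one, add_neg_cancel]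
    · rw [od_gg_ne hv, mul_zero, add_zero]
      exact h v hv
  obtain ⟨u, k, hk0, hk⟩ := Pool.Agent.Y158.KL.exists_unit_mul_pow hp.out.pos hcop
    ((ui x hx * gg l ^ t : Kˣ) : K) (Units.ne_zero _) (fun v =>
      (od_dvd_iff v hp.out.ne_zero _).1 (hall v))
  obtain ⟨κ, hκ⟩ : ∃ κ : Kˣ, (κ : K) = k := ⟨Units.mk0 k hk0, rfl⟩
  have he : ui x hx * gg l ^ t = Units.map (algebraMap (𝓞 K) K : 𝓞 K →* K) u * κ ^ p := by
    apply Units.ext
    rw [hk, Units.val_mul, Units.val_pow_eq_pow_val, hκ]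
    rfl
  obtain ⟨y, hy, hκy⟩ := int_of_od (κ := κ) (fun v => by
    have h3 := congrArg (od v) he
    rw [od_mul, od_mul, od_unit, zero_add, od_pow, od_pow] at h3
    have h4 := od_ui_le v x hx
    have h5 := od_ui_le v (gi l) (gi_ne l)
    have h6 : (t : ℤ) * od v (gg l) ≤ 0 := mul_nonpos_of_nonneg_of_nonpos (by positivity) h5
    by_contra hcon
    push Not at hcon
    have h7 : (0 : ℤ) < p * od v κ := mul_pos (by exact_mod_cast hp.out.pos) hcon
    omega)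
  have h5 : x * gi l ^ t = u * y ^ p := by
    have h6 : ui (x * gi l ^ t) (mul_ne_zero hx (pow_ne_zero _ (gi_ne l))) =
        ui ((u : 𝓞 K) * y ^ p) (mul_ne_zero u.ne_zero (pow_ne_zero _ hy)) := by
      rw [← ui_mul x _ hx (pow_ne_zero _ (gi_ne l)), ← ui_pow _ (gi_ne l),
        ← ui_mul _ _ u.ne_zero (pow_ne_zero _ hy), ← ui_pow _ hy, ← hκy]
      have h8 : ui (u : 𝓞 K) u.ne_zero = Units.map (algebraMap (𝓞 K) K : 𝓞 K →* K) u :=
        Units.ext rfl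
      rw [h8]
      exact he
    exact ui_inj h6
  have h6 : nc p (Ideal.span {gi l}) = 1 := by
    rw [nc_gi, nc_above hlp, one_pow]
  have h7 := congrArg (fun z => nc p (Ideal.span {z})) h5
  simp only [nc_span_mul, nc_span_pow, h6, one_pow, mul_one, nc_span_unit, one_mul] at h7
  rw [h7]
  refine pow_mod' ha (nc_mod hζa _ ?_)
  rw [Ne, Ideal.zero_eq_bot, Ideal.span_singleton_eq_bot]
  exact hy

end

end Pool.Agent.NH7.Sch
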