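import Pool.Agent.NH7.Sch.Kum

/-!
# Valuations and the Kummer pairing on inertia groups
-/

set_option autoImplicit false
set_option linter.unusedSectionVars false

namespace Pool.Agent.NH7.Sch

open NumberField IsDedekindDomain Pool.Agent.W401.Cheb WithZero

variable {K : Type} [Field K] [NumberField K]

section od

variable (v : HeightOneSpectrum (𝓞 K))

/-- the (negative of the) order of `κ` at `v` -/
noncomputable def od (κ : Kˣ) : ℤ := (v.valuationOfNeZero κ).toAdd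

theorem od_mul (a b : Kˣ) : od v (a * b) = od v a + od v b := by
  unfold od
  rw [map_mul, toAdd_mul]

theorem od_pow (a : Kˣ) (n : ℕ) : od v (a ^ n) = n * od v a := by
  unfold od
  rw [map_pow, toAdd_pow, nsmul_eq_mul]

theorem od_zpow (a : Kˣ) (n : ℤ) : od v (a ^ n) = n * od v a := by
  unfold od
  rw [map_zpow, toAdd_zpow, smul_eq_mul]

theorem od_inv (a : Kˣ) : od v a⁻¹ = - od v a := by
  unfold od
  rw [map_inv, toAdd_inv]

theorem od_prod {ι : Type} (s : Finset ι) (f : ι → Kˣ) : od v (∏ i ∈ s, f i) = ∑ i ∈ s, od v (f i) := by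
  unfold od
  rw [map_prod, toAdd_prod]

theorem od_unit (u : (𝓞 K)ˣ) : od v (Units.map (algebraMap (𝓞 K) K : 𝓞 K →* K) u) = 0 := by
  unfold od
  rw [HeightOneSpectrum.valuation_of_unit_eq, toAdd_one]

theorem val_od (κ : Kˣ) : v.valuation K (κ : K) = exp (od v κ) := by
  rw [← HeightOneSpectrum.valuationOfNeZero_eq]
  rfl

theorem od_dvd_iff {p : ℕ} (hp : p ≠ 0) (κ : Kˣ) :
    (p : ℤ) ∣ od v κ ↔ ∃ t : WithZero (Multiplicative ℤ), v.valuation K (κ : K) = t ^ p := by
  rw [val_od]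
  constructor
  · rintro ⟨n, hn⟩
    refine ⟨exp n, ?_⟩
    rw [hn, ← exp_nsmul, nsmul_eq_mul]
  · rintro ⟨t, ht⟩
    have ht0 : t ≠ 0 := by
      rintro rfl
      rw [zero_pow hp] at ht
      exact exp_ne_zero ht
    obtain ⟨m, rfl⟩ : ∃ m : ℤ, t = exp m := ⟨log t, (exp_log ht0).symm⟩
    rw [← exp_nsmul, nsmul_eq_mul, exp_inj] at ht
    exact ⟨m, ht⟩

theorem exists_unif : ∃ π : Kˣ, od v π = -1 := by
  obtain ⟨π, hπ⟩ := v.valuation_exists_uniformizer K
  have h0 : π ≠ 0 := by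
    rintro rfl
    rw [map_zero] at hπ
    exact exp_ne_zero hπ.symm
  refine ⟨Units.mk0 π h0, ?_⟩
  have h1 := val_od v (Units.mk0 π h0)
  rw [Units.val_mk0, hπ, exp_inj] at h1
  exact h1.symm

end od

section

variable {p : ℕ} [hp : Fact p.Prime] {ζ : K} (hζ : IsPrimitiveRoot ζ p)

include hζ in
/-- an element whose order at `v` is divisible by `p` is, up to a `p`-th power, an integer prime
to `v` -/
theorem exists_good (v : HeightOneSpectrum (𝓞 K)) {κ : Kˣ} (h : (p : ℤ) ∣ od v κ) :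
    ∃ (w : 𝓞 K) (s κ' : Kˣ), w ∉ v.asIdeal ∧ algebraMap (𝓞 K) K w = κ' ∧ κ = s ^ p * κ' := by
  obtain ⟨n, hn⟩ := h
  obtain ⟨π, hπ⟩ := exists_unif v
  set t : Kˣ := π ^ (-n) with ht
  have hod : od v t = n := by rw [ht, od_zpow, hπ]; ring
  set k : Kˣ := κ * (t ^ p)⁻¹ with hk
  have hk0 : od v k = 0 := by
    rw [hk, od_mul, od_inv, od_pow, hod, hn, add_neg_cancel]
  clear_value k
  have hk1 : v.valuation K (k : K) = 1 := by rw [val_od, hk0, exp_zero]
  obtain ⟨a, d, had⟩ := v.exists_primeCompl_mul_eq_of_integer (k : K) hk1.le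
  have hd : v.valuation K (algebraMap (𝓞 K) K d) = 1 := by
    rw [HeightOneSpectrum.valuation_eq_one_iff_notMem]
    exact d.2
  have ha : (a : 𝓞 K) ∉ v.asIdeal := by
    rw [← HeightOneSpectrum.valuation_eq_one_iff_notMem (K := K), ← had, map_mul, hk1, hd, one_mul]
  have hd0 : algebraMap (𝓞 K) K d ≠ 0 := by
    intro h0
    rw [h0, map_zero] at hd
    exact zero_ne_one hd
  have hp1 : p = (p - 1) + 1 := by have := hp.out.pos; omega
  refine ⟨a * d ^ (p - 1), t * (Units.mk0 _ hd0)⁻¹, k * (Units.mk0 _ hd0) ^ p, ?_, ?_, ?_⟩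
  · intro hm
    rcases v.isPrime.mem_or_mem hm with h1 | h1
    · exact ha h1
    · exact d.2 (v.isPrime.mem_of_pow_mem _ h1)
  · rw [map_mul, map_pow, ← had, Units.val_mul, Units.val_pow_eq_pow_val, Units.val_mk0]
    conv_rhs => rw [hp1, pow_succ']
    ring
  · rw [hk, mul_pow, inv_pow]
    have e : t ^ p * ((Units.mk0 _ hd0) ^ p)⁻¹ * (κ * (t ^ p)⁻¹ * (Units.mk0 _ hd0) ^ p) =
        κ * (t ^ p * (t ^ p)⁻¹) * (((Units.mk0 _ hd0) ^ p)⁻¹ * (Units.mk0 _ hd0) ^ p) := by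
      ac_rfl
    rw [e, mul_inv_cancel, inv_mul_cancel, mul_one, mul_one]

/-- the root of unity as an algebraic integer -/
noncomputable def zi (hζ : IsPrimitiveRoot ζ p) : OO K :=
  ⟨zz ζ, IsIntegral.of_pow hp.out.pos (by rw [(zz_prim hζ).pow_eq_one]; exact isIntegral_one)⟩

theorem coe_zi : ((zi hζ : OO K) : AlgebraicClosure K) = zz ζ := rfl

theorem zi_pow : (zi hζ) ^ p = 1 := RingOfIntegers.ext (zz_prim hζ).pow_eq_one

/-- Kummer classes of order divisible by `p` are trivial on the inertia group -/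
theorem kp_inr_zero {v : HeightOneSpectrum (𝓞 K)} {Q : Ideal (OO K)} (hQ : Q.IsMaximal)
    (hQv : Q.comap (algebraMap (𝓞 K) (OO K)) = v.asIdeal) (hpQ : (p : OO K) ∉ Q) {κ : Kˣ}
    (h : (p : ℤ) ∣ od v κ) {σ : GK K} (hσ : σ ∈ Inr Q) : kp hζ κ σ = 0 := by
  obtain ⟨w, s, κ', hw, hwκ, rfl⟩ := exists_good hζ v h
  rw [kp_mul_left, kp_ppow, zero_add]
  have hb := rt_pow (p := p) κ'
  have hint : IsIntegral ℤ (rt p κ') := by
    refine IsIntegral.of_pow hp.out.pos ?_
    rw [hb, ← hwκ]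
    exact ((RingOfIntegers.isIntegral_coe w).map (Algebra.ofId K (AlgebraicClosure K) |>.restrictScalars ℤ))
  set B : OO K := ⟨rt p κ', hint⟩ with hB
  have hBp : B ^ p = algebraMap (𝓞 K) (OO K) w := by
    apply RingOfIntegers.ext
    have e1 : ((B ^ p : OO K) : AlgebraicClosure K) = rt p κ' ^ p := rfl
    rw [e1, hb, ← hwκ]
    rfl
  have hBQ : B ∉ Q := by
    intro hm
    apply hw
    rw [← hQv, Ideal.mem_comap, ← hBp]
    exact Q.pow_mem_of_mem hm p hp.out.pos
  have hsm : σ • B = zi hζ ^ (kp hζ κ' σ).val * B := RingOfIntegers.ext (kp_rt hζ κ' σ)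
  have h1 := hσ B
  rw [hsm] at h1
  have h2 : (zi hζ ^ (kp hζ κ' σ).val - 1) * B ∈ Q := by
    rw [sub_mul, one_mul]
    exact h1
  have h3 := (hQ.isPrime.mem_or_mem h2).resolve_right hBQ
  have h4 := Pool.Agent.Y802.root_eq hpQ (x := zi hζ ^ (kp hζ κ' σ).val) (y := 1)
    (by rw [← pow_mul, mul_comm, pow_mul, zi_pow, one_pow]) (one_pow _) h3 hp.out.ne_zero
  have h5 : zz ζ ^ (kp hζ κ' σ).val = zz ζ ^ (0 : ZMod p).val := by
    rw [ZMod.val_zero, pow_zero]
    exact congrArg (fun y : OO K => (y : AlgebraicClosure K)) h4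
  exact pw_inj (zz_prim hζ) h5

end

section unr

variable (M : IntermediateField K (AlgebraicClosure K)) [IsGalois K M] [hM : NumberField M]

theorem exists_place {v : HeightOneSpectrum (𝓞 K)} {Q : Ideal (OO K)} (hQ : Q.IsMaximal)
    (hQv : Q.comap (algebraMap (𝓞 K) (OO K)) = v.asIdeal)
    (htriv : ∀ σ ∈ Inr Q, ∀ x : M, σ (x : AlgebraicClosure K) = x) :
    ∃ w : HeightOneSpectrum (𝓞 M), w.asIdeal = Q.comap (algebraMap (𝓞 M) (OO K)) ∧
      ∀ x : K, w.valuation M (algebraMap K M x) = v.valuation K x := by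
  set P : Ideal (𝓞 M) := Q.comap (algebraMap (𝓞 M) (OO K)) with hP
  have hPm : P.IsMaximal := Ideal.isMaximal_comap_of_isIntegral_of_isMaximal Q
  have hG1 : IsGaloisGroup (M ≃ₐ[K] M) (𝓞 K) (𝓞 M) :=
    IsGaloisGroup.of_isFractionRing (M ≃ₐ[K] M) (𝓞 K) (𝓞 M) K M
  have hP0 : P ≠ ⊥ := Ideal.IsMaximal.ne_bot_of_isIntegral_int P
  have hover : P.LiesOver v.asIdeal := by
    refine ⟨?_⟩
    rw [← hQv, Ideal.under_def, hP, Ideal.comap_comap]
    rfl
  let w : HeightOneSpectrum (𝓞 M) := ⟨P, hPm.isPrime, hP0⟩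
  have e1 : Nat.card (P.inertia (M ≃ₐ[K] M)) = P.ramificationIdx (𝓞 K) := by
    rw [Ideal.card_inertia_eq_ramificationIdxIn (P.under (𝓞 K)),
      Ideal.ramificationIdxIn_eq_ramificationIdx (P.under (𝓞 K)) P (M ≃ₐ[K] M)]
  have e2 : Nat.card (P.inertia (M ≃ₐ[K] M)) = 1 := by
    have : P.inertia (M ≃ₐ[K] M) = ⊥ := by
      rw [eq_bot_iff]
      intro γ hγ
      rw [Subgroup.mem_bot]
      obtain ⟨τ, hτ, hτγ⟩ := inr_lift M hQ γ (fun a => hγ a)
      ext x
      rw [← hτγ, htriv τ hτ]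
      rfl
    rw [this]
    simp
  have e3 : Ideal.ramificationIdx' v.asIdeal P = 1 := by
    rw [Ideal.ramificationIdx'_eq_ramificationIdx v.asIdeal P v.ne_bot, ← e1, e2]
  refine ⟨w, rfl, fun x => ?_⟩
  have hl : w.asIdeal.LiesOver v.asIdeal := hover
  rw [← HeightOneSpectrum.valuation_liesOver M v w x]
  change v.valuation K x ^ (Ideal.ramificationIdx' v.asIdeal P) = _
  rw [e3, pow_one]

end unr

section ker

variable {A : Type} [AddCommGroup A] [TopologicalSpace A] [DiscreteTopology A]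
  {X : GK K → A} (hX : Continuous X) (hmul : ∀ g h, X (g * h) = X g + X h)

include hmul in
theorem X_one : X 1 = 0 := by
  have h := hmul 1 1
  rw [mul_one] at h
  exact left_eq_add.1 h

include hmul in
theorem X_inv (g : GK K) : X g⁻¹ = - X g := by
  have h := hmul g⁻¹ g
  rw [inv_mul_cancel, X_one hmul] at h
  exact eq_neg_of_add_eq_zero_left h.symm

/-- the kernel -/
def kerX (hmul : ∀ g h, X (g * h) = X g + X h) : Subgroup (GK K) where
  carrier := {g | X g = 0}
  mul_mem' := fun {a b} ha hb => by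
    rw [Set.mem_ofPred_eq] at ha hb ⊢
    rw [hmul, ha, hb, add_zero]
  one_mem' := X_one hmul
  inv_mem' := fun {a} ha => by
    rw [Set.mem_ofPred_eq] at ha ⊢
    rw [X_inv hmul, ha, neg_zero]

theorem mem_kerX (hmul : ∀ g h, X (g * h) = X g + X h) {g : GK K} : g ∈ kerX hmul ↔ X g = 0 :=
  Iff.rfl

theorem kerX_normal : (kerX hmul).Normal := ⟨fun n hn g => by
  rw [mem_kerX] at hn ⊢
  rw [hmul, hmul, X_inv hmul, hn]
  abel⟩

include hX in
theorem kerX_open : IsOpen (kerX hmul : Set (GK K)) := (isOpen_discrete {0}).preimage hX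

include hX in
theorem kerX_closed : IsClosed (kerX hmul : Set (GK K)) := isClosed_singleton.preimage hX

/-- the field cut out by `X` -/
noncomputable def fld (hmul : ∀ g h, X (g * h) = X g + X h) :
    IntermediateField K (AlgebraicClosure K) := IntermediateField.fixedField (kerX hmul)

include hX in
theorem fld_fix : (fld hmul).fixingSubgroup = kerX hmul :=
  InfiniteGalois.fixingSubgroup_fixedField ⟨kerX hmul, kerX_closed hX hmul⟩

include hX in
theorem fld_gal : IsGalois K (fld hmul) := by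
  have h : (fld hmul).fixingSubgroup.Normal := by
    rw [fld_fix hX hmul]
    exact kerX_normal hmul
  exact (InfiniteGalois.normal_iff_isGalois _).1 h

include hX in
theorem fld_fin : FiniteDimensional K (fld hmul) := by
  rw [← InfiniteGalois.isOpen_iff_finite, fld_fix hX hmul]
  exact kerX_open hX hmul

theorem fld_triv {g : GK K} (hg : X g = 0) (x : fld hmul) : g (x : AlgebraicClosure K) = x :=
  x.2 ⟨g, hg⟩

theorem mem_fld {y : AlgebraicClosure K} (h : ∀ g, X g = 0 → g y = y) : y ∈ fld hmul :=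
  fun g => h g.1 g.2

end ker

section

variable {p : ℕ} [hp : Fact p.Prime] {ζ : K} (hζ : IsPrimitiveRoot ζ p)

/-- if the Kummer class is trivial on the inertia group, then the order is divisible by `p` -/
theorem od_dvd_of_inr {v : HeightOneSpectrum (𝓞 K)} {Q : Ideal (OO K)} (hQ : Q.IsMaximal)
    (hQv : Q.comap (algebraMap (𝓞 K) (OO K)) = v.asIdeal) {κ : Kˣ}
    (h : ∀ σ ∈ Inr Q, kp hζ κ σ = 0) : (p : ℤ) ∣ od v κ := by
  have h1 := kp_mul_right hζ κ
  have h2 := kp_cont hζ κ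
  have := fld_gal h2 h1
  have := fld_fin h2 h1
  have := NumberField.of_module_finite K (fld h1)
  obtain ⟨w, -, hw⟩ := exists_place (fld h1) hQ hQv (fun σ hσ x => fld_triv h1 (h σ hσ) x)
  rw [od_dvd_iff v hp.out.ne_zero]
  have h3 : rt p κ ∈ fld h1 := mem_fld h1 fun g hg => (kp_zero_iff hζ (rt_pow κ)).1 hg
  refine ⟨w.valuation (fld h1) ⟨rt p κ, h3⟩, ?_⟩
  rw [← hw, ← map_pow]
  congr 1
  apply Subtype.ext
  exact (rt_pow κ).symm

end

end Pool.Agent.NH7.Sch
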